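import Pool.Agent.H72.IPS.Defs

namespace H72IPS

/-- the semigroup forgets the initial configuration -/
def AsympConst (p : Bool → Bool → ℝ) : Prop :=
  ∀ f : CC, IsCyl f → ∀ η : ℝ, 0 < η → ∃ t0 : ℝ, ∀ t ≥ t0, ∃ N0 : ℕ, ∀ N ≥ N0, ∀ x y : Cfg,
    |SN p N t f x - SN p N t f y| ≤ η

end H72IPS
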