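import Pool.Agent.H72.IPS.Defs

/-! # BAS: elementary facts on rates, flips, the generator and the operator `Qf` -/

namespace H72IPS

open Finset

theorem cr_nonneg {p : Bool → Bool → ℝ} (hp : IsProb p) (s y : Bool) : 0 ≤ cr p s y := by
  cases s
  · exact (hp false y).1
  · have := (hp true y).2
    simp only [cr, if_true]
    linarith

theorem cr_le_one {p : Bool → Bool → ℝ} (hp : IsProb p) (s y : Bool) : cr p s y ≤ 1 := by
  cases s
  · exact (hp false y).2
  · have := (hp true y).1
    simp only [cr, if_true]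
    linarith

theorem flip_of_true {x : Cfg} {j : ℤ} (h : x j = true) : flip x j = Function.update x j false := by
  unfold flip
  rw [h]
  rfl

theorem flip_of_false {x : Cfg} {j : ℤ} (h : x j = false) : flip x j = Function.update x j true := by
  unfold flip
  rw [h]
  rfl

private theorem bas_self {x : Cfg} {j : ℤ} {b : Bool} (h : x j = b) : Function.update x j b = x := by
  rw [← h]
  exact Function.update_eq_self j x

/-- the resampling form of one term of the generator equals its flip form -/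
theorem resample_eq (p : Bool → Bool → ℝ) (f : Cfg → ℝ) (x : Cfg) (j : ℤ) :
    p (x j) (x (j + 1)) * f (Function.update x j true)
      + (1 - p (x j) (x (j + 1))) * f (Function.update x j false) - f x
      = rate p x j * (f (flip x j) - f x) := by
  unfold rate cr
  cases h : x j
  · rw [flip_of_false h, bas_self h]
    simp
    ring
  · rw [flip_of_true h, bas_self h]
    simp
    ring

private theorem bas_flip_agree {S : Finset ℤ} {x y : Cfg} (h : ∀ i ∈ S, x i = y i) {j : ℤ}
    (hj : j ∈ S) : ∀ i ∈ S, flip x j i = flip y j i := by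
  intro i hi
  unfold flip
  by_cases hij : i = j
  · subst hij
    rw [Function.update_self, Function.update_self, h i hi]
  · rw [Function.update_of_ne hij, Function.update_of_ne hij, h i hi]

/-- the generator of a function of the sites of `S` is a sum over any finite `T ⊇ S` -/
theorem gen_eq_sum (p : Bool → Bool → ℝ) {f : Cfg → ℝ} {S T : Finset ℤ}
    (hS : ∀ x y : Cfg, (∀ i ∈ S, x i = y i) → f x = f y) (hST : S ⊆ T) (x : Cfg) :
    gen p f x = ∑ j ∈ T, rate p x j * (f (flip x j) - f x) := by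
  unfold gen
  simp only [resample_eq]
  apply finsum_eq_sum_of_support_subset
  intro j hj
  by_contra hjT
  apply hj
  have hjS : j ∉ S := fun h => hjT (hST h)
  have : f (flip x j) = f x := by
    apply hS
    intro i hi
    unfold flip
    have hij : i ≠ j := fun h => hjS (by rw [← h]; exact hi)
    exact Function.update_of_ne hij _ _
  simp only [this, sub_self, mul_zero]

/-- the generator of a cylinder function is a cylinder function -/
theorem gen_isCyl (p : Bool → Bool → ℝ) {f : Cfg → ℝ} (hf : IsCyl f) : IsCyl (gen p f) := by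
  classical
  obtain ⟨S, hS⟩ := hf
  refine ⟨S ∪ S.image (fun j => j + 1), ?_⟩
  intro x y hxy
  have h1 : ∀ i ∈ S, x i = y i := fun i hi => hxy i (Finset.mem_union_left _ hi)
  have h2 : ∀ i ∈ S, x (i + 1) = y (i + 1) := fun i hi =>
    hxy (i + 1) (Finset.mem_union_right _ (Finset.mem_image_of_mem _ hi))
  rw [gen_eq_sum p hS (Finset.Subset.refl S) x, gen_eq_sum p hS (Finset.Subset.refl S) y]
  refine Finset.sum_congr rfl fun j hj => ?_
  rw [hS (flip x j) (flip y j) (bas_flip_agree h1 hj), hS x y h1]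
  unfold rate
  rw [h1 j hj, h2 j hj]

/-- a flip changes the function by its discrete derivative -/
theorem abs_flip_sub (g : Cfg → ℝ) (x : Cfg) (j : ℤ) : |g (flip x j) - g x| = |dd g j x| := by
  unfold dd
  cases h : x j
  · rw [flip_of_false h, bas_self h]
  · rw [flip_of_true h, bas_self h, abs_sub_comm]

/-- the discrete derivative at `k` does not depend on the state of `k` -/
theorem dd_update (g : Cfg → ℝ) (k : ℤ) (x : Cfg) (b : Bool) :
    dd g k (Function.update x k b) = dd g k x := by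
  unfold dd
  rw [Function.update_idem, Function.update_idem]

/-- `Qf` is additive -/
theorem Qf_add (p : Bool → Bool → ℝ) (N : ℕ) (g h : Cfg → ℝ) :
    Qf p N (fun x => g x + h x) = fun x => Qf p N g x + Qf p N h x := by
  funext x
  unfold Qf
  have : ∑ j ∈ Finset.Ico (-(N : ℤ)) N, rate p x j * ((g (flip x j) + h (flip x j)) - (g x + h x))
      = ∑ j ∈ Finset.Ico (-(N : ℤ)) N, rate p x j * (g (flip x j) - g x)
        + ∑ j ∈ Finset.Ico (-(N : ℤ)) N, rate p x j * (h (flip x j) - h x) := by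
    rw [← Finset.sum_add_distrib]
    refine Finset.sum_congr rfl fun j _ => ?_
    ring
  rw [this]
  ring

private theorem bas_conv (p : Bool → Bool → ℝ) (N : ℕ) (g : Cfg → ℝ) (x : Cfg) :
    Qf p N g x = (1 - (4 * (N : ℝ))⁻¹ * ∑ j ∈ Finset.Ico (-(N : ℤ)) N, rate p x j) * g x
      + (4 * (N : ℝ))⁻¹ * ∑ j ∈ Finset.Ico (-(N : ℤ)) N, rate p x j * g (flip x j) := by
  unfold Qf
  have : ∑ j ∈ Finset.Ico (-(N : ℤ)) N, rate p x j * (g (flip x j) - g x)
      = ∑ j ∈ Finset.Ico (-(N : ℤ)) N, rate p x j * g (flip x j)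
        - (∑ j ∈ Finset.Ico (-(N : ℤ)) N, rate p x j) * g x := by
    rw [Finset.sum_mul, ← Finset.sum_sub_distrib]
    refine Finset.sum_congr rfl fun j _ => ?_
    ring
  rw [this]
  ring

private theorem bas_coef {p : Bool → Bool → ℝ} (hp : IsProb p) {N : ℕ} (hN : 1 ≤ N) (x : Cfg) :
    (4 * (N : ℝ))⁻¹ * ∑ j ∈ Finset.Ico (-(N : ℤ)) N, rate p x j ≤ 1 := by
  have hN' : (1 : ℝ) ≤ (N : ℝ) := by exact_mod_cast hN
  have h1 : ∑ j ∈ Finset.Ico (-(N : ℤ)) N, rate p x j ≤ 2 * (N : ℝ) := by
    calc ∑ j ∈ Finset.Ico (-(N : ℤ)) N, rate p x j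
        ≤ ∑ j ∈ Finset.Ico (-(N : ℤ)) N, (1 : ℝ) :=
          Finset.sum_le_sum fun j _ => cr_le_one hp _ _
      _ = 2 * (N : ℝ) := by
          rw [Finset.sum_const, Int.card_Ico, nsmul_eq_mul, mul_one]
          have : ((N : ℤ) - -(N : ℤ)).toNat = 2 * N := by omega
          rw [this]
          push_cast
          ring
  have h4 : (0 : ℝ) < 4 * (N : ℝ) := by linarith
  rw [inv_mul_le_iff₀ h4]
  linarith

private theorem bas_inv_nonneg (N : ℕ) : (0 : ℝ) ≤ (4 * (N : ℝ))⁻¹ := by positivity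

/-- `Qf` preserves bounds (it is a Markov operator: the coefficients
`rate / (4N)` are nonnegative with sum at most `1/2`) -/
theorem Qf_bound {p : Bool → Bool → ℝ} (hp : IsProb p) {N : ℕ} (hN : 1 ≤ N) {g : Cfg → ℝ} {B : ℝ}
    (hg : ∀ x, |g x| ≤ B) (x : Cfg) : |Qf p N g x| ≤ B := by
  rw [bas_conv]
  have hc := bas_coef hp hN x
  have hi := bas_inv_nonneg N
  calc |(1 - (4 * (N : ℝ))⁻¹ * ∑ j ∈ Finset.Ico (-(N : ℤ)) N, rate p x j) * g x
      + (4 * (N : ℝ))⁻¹ * ∑ j ∈ Finset.Ico (-(N : ℤ)) N, rate p x j * g (flip x j)|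
      ≤ |(1 - (4 * (N : ℝ))⁻¹ * ∑ j ∈ Finset.Ico (-(N : ℤ)) N, rate p x j) * g x|
        + |(4 * (N : ℝ))⁻¹ * ∑ j ∈ Finset.Ico (-(N : ℤ)) N, rate p x j * g (flip x j)| :=
        abs_add_le _ _
    _ ≤ (1 - (4 * (N : ℝ))⁻¹ * ∑ j ∈ Finset.Ico (-(N : ℤ)) N, rate p x j) * B
        + (4 * (N : ℝ))⁻¹ * ∑ j ∈ Finset.Ico (-(N : ℤ)) N, rate p x j * B := by
        apply add_le_add
        · rw [abs_mul, abs_of_nonneg (by linarith)]
          exact mul_le_mul_of_nonneg_left (hg x) (by linarith)
        · rw [abs_mul, abs_of_nonneg hi]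
          apply mul_le_mul_of_nonneg_left _ hi
          refine (Finset.abs_sum_le_sum_abs _ _).trans ?_
          refine Finset.sum_le_sum fun j _ => ?_
          have hr : 0 ≤ rate p x j := cr_nonneg hp _ _
          rw [abs_mul, abs_of_nonneg hr]
          exact mul_le_mul_of_nonneg_left (hg _) hr
    _ = B := by
        rw [← Finset.sum_mul]
        ring

theorem Qf_nonneg {p : Bool → Bool → ℝ} (hp : IsProb p) {N : ℕ} (hN : 1 ≤ N) {g : Cfg → ℝ}
    (hg : ∀ x, 0 ≤ g x) (x : Cfg) : 0 ≤ Qf p N g x := by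
  rw [bas_conv]
  have hc := bas_coef hp hN x
  have hi := bas_inv_nonneg N
  apply add_nonneg
  · exact mul_nonneg (by linarith) (hg x)
  · exact mul_nonneg hi (Finset.sum_nonneg fun j _ => mul_nonneg (cr_nonneg hp _ _) (hg _))

theorem Qf_const (p : Bool → Bool → ℝ) (N : ℕ) (c : ℝ) : Qf p N (fun _ => c) = fun _ => c := by
  funext x
  simp [Qf]

/-- the bounded operator `1 + A_N / (4N)` -/
noncomputable def QN (p : Bool → Bool → ℝ) (N : ℕ) : CC →L[ℝ] CC :=
  1 + (4 * (N : ℝ))⁻¹ • AN p N

theorem QN_apply (p : Bool → Bool → ℝ) (N : ℕ) (f : CC) (x : Cfg) :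
    QN p N f x = Qf p N f x := by
  unfold QN Qf
  rw [← AN_apply]
  rfl

theorem QN_pow_apply (p : Bool → Bool → ℝ) (N n : ℕ) (f : CC) (x : Cfg) :
    ((QN p N) ^ n) f x = (Qf p N)^[n] f x := by
  induction n generalizing f with
  | zero => rfl
  | succ n ih =>
    rw [pow_succ, Function.iterate_succ_apply]
    have h1 : ((QN p N) ^ n * QN p N) f = ((QN p N) ^ n) (QN p N f) := rfl
    rw [h1, ih (QN p N f)]
    have h2 : ((QN p N f : CC) : Cfg → ℝ) = Qf p N f := funext fun x => QN_apply p N f x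
    rw [h2]

end H72IPS
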