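import Pool.Agent.H72.IPS.Bas

/-! # CYLA: cylinder functions -/

namespace H72IPS

open Finset


theorem IsCyl.continuous {f : Cfg → ℝ} (hf : IsCyl f) : Continuous f := by
  obtain ⟨S, hS⟩ := hf
  have h1 : Continuous (fun x : Cfg => (fun i : S => x i)) := by fun_prop
  let g : (S → Bool) → ℝ := fun y => f (fun i => if h : i ∈ S then y ⟨i, h⟩ else false)
  have h2 : Continuous g := continuous_of_discreteTopology
  have h3 : f = g ∘ (fun x : Cfg => (fun i : S => x i)) := by
    funext x
    refine hS _ _ (fun i hi => ?_)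
    simp [hi]
  rw [h3]
  exact h2.comp h1

/-- a cylinder function depends on an interval of sites -/
theorem IsCyl.exists_interval {f : Cfg → ℝ} (hf : IsCyl f) :
    ∃ m M : ℤ, m ≤ M ∧ ∀ x y : Cfg, (∀ i, m ≤ i → i < M → x i = y i) → f x = f y := by
  obtain ⟨S, hS⟩ := hf
  rcases S.eq_empty_or_nonempty with h | h
  · refine ⟨0, 0, le_refl _, fun x y _ => hS x y (fun i hi => ?_)⟩
    simp [h] at hi
  · refine ⟨S.min' h, S.max' h + 1, ?_, fun x y hxy => hS x y (fun i hi => ?_)⟩
    · have := S.min'_le_max' h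
      omega
    · exact hxy i (S.min'_le i hi) (by have := S.le_max' i hi; omega)

/-- bounds for the discrete derivatives of a cylinder function -/
theorem IsCyl.dd_bounds {f : CC} (hf : IsCyl f) :
    ∃ (m : ℤ) (K : ℝ), 0 ≤ K ∧ (∀ k < m, ∀ x, dd f k x = 0) ∧
      ∀ (k : ℤ) x, |dd f k x| ≤ K * Real.exp (-(k : ℝ)) := by
  obtain ⟨m, M, hmM, hM⟩ := IsCyl.exists_interval hf
  have hzero : ∀ k : ℤ, (k < m ∨ M ≤ k) → ∀ x, dd f k x = 0 := by
    intro k hk x
    unfold dd
    rw [sub_eq_zero]
    refine hM _ _ (fun i hi1 hi2 => ?_)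
    have hik : i ≠ k := by
      rcases hk with h | h <;> omega
    simp [Function.update_of_ne hik]
  refine ⟨m, 2 * ‖f‖ * Real.exp (M : ℝ), by positivity, fun k hk x => hzero k (Or.inl hk) x, ?_⟩
  intro k x
  rcases lt_or_ge k M with h | h
  · have h1 : |dd f k x| ≤ 2 * ‖f‖ := by
      unfold dd
      have a1 := CC.abs_le_norm f (Function.update x k true)
      have a2 := CC.abs_le_norm f (Function.update x k false)
      have a3 := abs_sub (f (Function.update x k true)) (f (Function.update x k false))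
      linarith
    have h2 : (1 : ℝ) ≤ Real.exp (M : ℝ) * Real.exp (-(k : ℝ)) := by
      rw [← Real.exp_add]
      apply Real.one_le_exp
      have : (k : ℝ) < M := by exact_mod_cast h
      linarith
    have h3 : (0 : ℝ) ≤ 2 * ‖f‖ := by positivity
    calc |dd f k x| ≤ 2 * ‖f‖ := h1
      _ = 2 * ‖f‖ * 1 := by ring
      _ ≤ 2 * ‖f‖ * (Real.exp (M : ℝ) * Real.exp (-(k : ℝ))) := by gcongr
      _ = 2 * ‖f‖ * Real.exp (M : ℝ) * Real.exp (-(k : ℝ)) := by ring
  · rw [hzero k (Or.inr h) x]
    simp only [abs_zero]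
    positivity

end H72IPS
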