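import Pool.Agent.H72.IPS.SemA

/-! # SEMB: derivative and semigroup facts for `SN` (abstract exponentials) -/

namespace H72IPS

open Finset

theorem SN_zero (p : Bool → Bool → ℝ) (N : ℕ) : SN p N 0 = 1 := by
  unfold SN
  rw [zero_smul, NormedSpace.exp_zero]

theorem SN_add (p : Bool → Bool → ℝ) (N : ℕ) (s t : ℝ) : SN p N (s + t) = SN p N s * SN p N t := by
  unfold SN
  rw [add_smul]
  let +nondep : NormedAlgebra ℚ (CC →L[ℝ] CC) := .restrictScalars ℚ ℝ (CC →L[ℝ] CC)
  apply NormedSpace.exp_add_of_commute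
  exact ((Commute.refl (AN p N)).smul_left s).smul_right t

/-- the generator commutes with the semigroup -/
theorem AN_SN (p : Bool → Bool → ℝ) (N : ℕ) (t : ℝ) (f : CC) :
    AN p N (SN p N t f) = SN p N t (AN p N f) := by
  have h : Commute (AN p N) (SN p N t) := by
    unfold SN
    exact ((Commute.refl (AN p N)).smul_right t).exp_right
  exact congrArg (fun T : CC →L[ℝ] CC => T f) h.eq

theorem semb_hasDerivAt (p : Bool → Bool → ℝ) (N : ℕ) (t : ℝ) :
    HasDerivAt (fun s => SN p N s) (SN p N t * AN p N) t := by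
  unfold SN
  exact hasDerivAt_exp_smul_const (AN p N) t

theorem SN_hasDerivAt (p : Bool → Bool → ℝ) (N : ℕ) (t : ℝ) (f : CC) :
    HasDerivAt (fun s => SN p N s f) (SN p N t (AN p N f)) t := by
  have h := (semb_hasDerivAt p N t).clm_apply (hasDerivAt_const t f)
  simpa using h

/-- Duhamel comparison of two finite volume semigroups: if the generators differ by at most `D`
along the second evolution then the semigroups differ by at most `t D`.  (Differentiate
`s ↦ SN p N' (t - s) (SN p N s f)` on `[0, t]`; the derivative is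
`SN p N' (t - s) ((AN p N - AN p N') (SN p N s f))`.) -/
theorem SN_duhamel {p : Bool → Bool → ℝ} (hp : IsProb p) {N N' : ℕ} (hN' : 1 ≤ N') (f : CC)
    {t D : ℝ} (ht : 0 ≤ t)
    (hD : ∀ s ∈ Set.Icc 0 t, ‖AN p N (SN p N s f) - AN p N' (SN p N s f)‖ ≤ D) :
    ‖SN p N' t f - SN p N t f‖ ≤ t * D := by
  have hder : ∀ s : ℝ, HasDerivAt (fun s => SN p N' (t - s) (SN p N s f))
      (SN p N' (t - s) (AN p N (SN p N s f) - AN p N' (SN p N s f))) s := by
    intro s
    have h1 : HasDerivAt (fun s => SN p N' (t - s)) (-(SN p N' (t - s) * AN p N')) s := by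
      have h2 : HasDerivAt (fun s : ℝ => t - s) (-1) s := by
        simpa using (hasDerivAt_id s).const_sub t
      have h3 := (semb_hasDerivAt p N' (t - s)).scomp s h2
      rw [neg_one_smul] at h3
      exact h3
    have h4 := h1.clm_apply (SN_hasDerivAt p N s f)
    refine h4.congr_deriv ?_
    rw [map_sub, ← AN_SN p N s f]
    show -(SN p N' (t - s) (AN p N' (SN p N s f))) + SN p N' (t - s) (AN p N (SN p N s f)) = _
    abel
  have hb := norm_image_sub_le_of_norm_deriv_le_segment' (a := 0) (b := t) (C := D)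
    (f := fun s => SN p N' (t - s) (SN p N s f)) (fun s _ => (hder s).hasDerivWithinAt)
    (fun s hs => (SN_norm_le hp hN' (by linarith [hs.2]) _).trans
      (hD s ⟨hs.1, hs.2.le⟩)) t ⟨ht, le_rfl⟩
  simp only [sub_self, sub_zero, SN_zero] at hb
  have h5 : ‖SN p N' t f - SN p N t f‖ = ‖SN p N t f - SN p N' t f‖ := norm_sub_rev _ _
  rw [h5, mul_comm]
  exact hb

end H72IPS
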