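import Pool.Agent.H72.IPS.Inf
import Pool.Agent.H72.IPS.SemB
import Pool.Agent.H72.IPS.CylA

/-! # CAU: the finite volume semigroups form a Cauchy sequence -/

namespace H72IPS

open Finset Filter Topology

theorem cau_geom (N : ℕ) : ∀ N' : ℕ, N ≤ N' →
    ∑ j ∈ Finset.Ico (N : ℤ) (N' : ℤ), Real.exp (-(j : ℝ)) ≤
      (Real.exp (-(N : ℝ)) - Real.exp (-(N' : ℝ))) / (1 - Real.exp (-1)) := by
  have h1 : 0 < 1 - Real.exp (-1) := by
    have : Real.exp (-1) < 1 := Real.exp_lt_one_iff.mpr (by norm_num)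
    linarith
  intro N' hN'
  induction N', hN' using Nat.le_induction with
  | base => simp
  | succ M hM ih =>
    have h2 : Finset.Ico (N : ℤ) ((M + 1 : ℕ) : ℤ) = insert (M : ℤ) (Finset.Ico (N : ℤ) (M : ℤ)) := by
      ext j
      simp only [Finset.mem_Ico, Finset.mem_insert]
      push_cast
      omega
    rw [h2, Finset.sum_insert (by simp)]
    have h3 : Real.exp (-((M + 1 : ℕ) : ℝ)) = Real.exp (-(M : ℝ)) * Real.exp (-1) := by
      rw [← Real.exp_add]
      congr 1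
      push_cast
      ring
    have h4 : (Real.exp (-(N : ℝ)) - Real.exp (-((M + 1 : ℕ) : ℝ))) / (1 - Real.exp (-1)) =
        (Real.exp (-(N : ℝ)) - Real.exp (-(M : ℝ))) / (1 - Real.exp (-1)) +
          Real.exp (-(M : ℝ)) := by
      rw [h3]
      field_simp
      ring
    rw [h4]
    push_cast
    linarith

theorem cau_diff {p : Bool → Bool → ℝ} (hp : IsProb p) (g : CC) (m : ℤ) {K : ℝ} (hK : 0 ≤ K)
    (h0 : ∀ k < m, ∀ x, dd g k x = 0) (h : ∀ (k : ℤ) x, |dd g k x| ≤ K * Real.exp (-(k : ℝ)))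
    {N N' : ℕ} (hN : -(N : ℤ) ≤ m) (hNN : N ≤ N') :
    ‖AN p N g - AN p N' g‖ ≤ K / (1 - Real.exp (-1)) * Real.exp (-(N : ℝ)) := by
  have h1 : 0 < 1 - Real.exp (-1) := by
    have : Real.exp (-1) < 1 := Real.exp_lt_one_iff.mpr (by norm_num)
    linarith
  refine CC.norm_le (by positivity) fun x => ?_
  rw [CC.sub_apply, AN_apply, AN_apply]
  have hsub : Finset.Ico (-(N : ℤ)) N ⊆ Finset.Ico (-(N' : ℤ)) N' := by
    intro j hj
    rw [Finset.mem_Ico] at hj ⊢
    omega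
  rw [abs_sub_comm, ← Finset.sum_sdiff hsub, add_sub_cancel_right]
  have hsub2 : Finset.Ico (N : ℤ) N' ⊆ Finset.Ico (-(N' : ℤ)) N' \ Finset.Ico (-(N : ℤ)) N := by
    intro j hj
    rw [Finset.mem_sdiff, Finset.mem_Ico, Finset.mem_Ico]
    rw [Finset.mem_Ico] at hj
    omega
  have hzero : ∀ j ∈ Finset.Ico (-(N' : ℤ)) N' \ Finset.Ico (-(N : ℤ)) N,
      j ∉ Finset.Ico (N : ℤ) N' → rate p x j * (g (flip x j) - g x) = 0 := by
    intro j hj hj'
    rw [Finset.mem_sdiff, Finset.mem_Ico, Finset.mem_Ico] at hj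
    rw [Finset.mem_Ico] at hj'
    have h3 : j < m := by omega
    have h4 : |g (flip x j) - g x| = 0 := by rw [abs_flip_sub, h0 j h3 x, abs_zero]
    rw [abs_eq_zero.mp h4, mul_zero]
  rw [← Finset.sum_subset hsub2 hzero]
  calc |∑ j ∈ Finset.Ico (N : ℤ) N', rate p x j * (g (flip x j) - g x)|
      ≤ ∑ j ∈ Finset.Ico (N : ℤ) N', |rate p x j * (g (flip x j) - g x)| :=
        Finset.abs_sum_le_sum_abs _ _
    _ ≤ ∑ j ∈ Finset.Ico (N : ℤ) N', K * Real.exp (-(j : ℝ)) := by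
        refine Finset.sum_le_sum fun j _ => ?_
        rw [abs_mul, abs_flip_sub]
        have h3 : |rate p x j| ≤ 1 := by
          unfold rate
          rw [abs_of_nonneg (cr_nonneg hp _ _)]
          exact cr_le_one hp _ _
        calc |rate p x j| * |dd g j x| ≤ 1 * |dd g j x| :=
              mul_le_mul_of_nonneg_right h3 (abs_nonneg _)
          _ ≤ _ := by rw [one_mul]; exact h j x
    _ = K * ∑ j ∈ Finset.Ico (N : ℤ) N', Real.exp (-(j : ℝ)) := by rw [Finset.mul_sum]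
    _ ≤ K * ((Real.exp (-(N : ℝ)) - Real.exp (-(N' : ℝ))) / (1 - Real.exp (-1))) :=
        mul_le_mul_of_nonneg_left (cau_geom N N' hNN) hK
    _ ≤ K / (1 - Real.exp (-1)) * Real.exp (-(N : ℝ)) := by
        rw [div_mul_eq_mul_div, mul_div_assoc]
        have h5 := Real.exp_pos (-(N' : ℝ))
        gcongr
        linarith

/-- CAU.  Let `m, K` be as in `IsCyl.dd_bounds`, `N ≥ N0 ≥ max 1 (-m)`.  `(AN p N' - AN p N) (SN s f)`
is a sum over the sites of `[-N', N') \ [-N, N)`; the sites `< -N ≤ m` contribute `0` and the sites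
`j ≥ N` at most `K e^{-j + e T}` each (`abs_flip_sub`, `dd_SN`); sum the geometric series and use
`SN_duhamel`. -/
theorem SN_cauchy {p : Bool → Bool → ℝ} (hp : IsProb p) (f : CC) (hf : IsCyl f) (T : ℝ) :
    ∃ (N0 : ℕ) (C : ℝ), 1 ≤ N0 ∧ 0 ≤ C ∧ ∀ N N' : ℕ, N0 ≤ N → N ≤ N' → ∀ t ∈ Set.Icc 0 T,
      ‖SN p N' t f - SN p N t f‖ ≤ C * Real.exp (-(N : ℝ)) := by
  obtain ⟨m, K, hK, h0, h⟩ := hf.dd_bounds
  have h1 : 0 < 1 - Real.exp (-1) := by
    have : Real.exp (-1) < 1 := Real.exp_lt_one_iff.mpr (by norm_num)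
    linarith
  have hK' : 0 ≤ K * Real.exp (Real.exp 1 * T) := by positivity
  refine ⟨max 1 (-m).toNat, |T| * (K * Real.exp (Real.exp 1 * T) / (1 - Real.exp (-1))),
    le_max_left _ _, by positivity, ?_⟩
  intro N N' hN hNN t ht
  have hN1 : 1 ≤ N := (le_max_left _ _).trans hN
  have hNm : -(N : ℤ) ≤ m := by
    have := (le_max_right 1 (-m).toNat).trans hN
    omega
  have hD : ∀ s ∈ Set.Icc 0 t, ‖AN p N (SN p N s f) - AN p N' (SN p N s f)‖ ≤
      K * Real.exp (Real.exp 1 * T) / (1 - Real.exp (-1)) * Real.exp (-(N : ℝ)) := by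
    intro s hs
    obtain ⟨h2, h3⟩ := dd_SN hp hN1 hs.1 f m h0 h
    refine cau_diff hp (SN p N s f) m hK' h2 (fun k x => (h3 k x).trans ?_) hNm hNN
    rw [mul_assoc, ← Real.exp_add]
    refine mul_le_mul_of_nonneg_left (Real.exp_le_exp.mpr ?_) hK
    have h4 : Real.exp 1 * s ≤ Real.exp 1 * T :=
      mul_le_mul_of_nonneg_left (hs.2.trans ht.2) (Real.exp_pos 1).le
    linarith
  refine (SN_duhamel hp (hN1.trans hNN) f ht.1 hD).trans ?_
  rw [mul_assoc]
  refine mul_le_mul_of_nonneg_right (ht.2.trans (le_abs_self T)) (by positivity)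

end H72IPS
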