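import Pool.Agent.H72.IPS.CertS
import Pool.Agent.H72.IPS.CertData

/-! # The path coupling criterion holds on the region of the theorem -/

namespace H72IPS

/-- the numbers `e c q` are the coordinates of the rates `a0 a1 b0 b1` -/
structure Coord (a0 a1 b0 b1 e c q : ℝ) : Prop where
  pb1 : 0 < b1
  ha : a0 ≤ a1
  hb : b0 ≤ b1
  he : 0 < e
  hc : 0 < c
  hc' : c < 1280
  hq : 0 < q
  hq' : q ≤ 768
  k0 : q * (e * c) * b1 = 2013265920 * a0
  k1 : 768 * (e * c) * b1 = 2013265920 * a1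
  k2 : 768 * (e * (1280 - c)) * b1 = 2013265920 * b0

theorem tchk_sound {e0 e1 c0 c1 q0 q1 : ℕ} (h : tchk e0 e1 c0 c1 q0 q1 = true)
    {a0 a1 b0 b1 e c q : ℝ} (H : Coord a0 a1 b0 b1 e c q) (he0 : (e0 : ℝ) ≤ e)
    (hcc0 : (c0 : ℝ) ≤ c) (hcc1 : c ≤ c1) (hq1 : q ≤ q1) :
    a0 * (b1 - a1) < 2 * a1 * b0 := by
  obtain ⟨pb1, ha, hb, he, hc, hc', hq, hq', k0, k1, k2⟩ := H
  have hec : (e0 : ℝ) * c0 ≤ e * c :=
    mul_le_mul he0 hcc0 (Nat.cast_nonneg _) he.le
  -- the claim in coordinates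
  have claim : q * (2621440 - e * c) < 2 * 768 * (e * (1280 - c)) := by
    have hr : 0 < 2 * 768 * (e * (1280 - c)) := by
      have : 0 < e * (1280 - c) := mul_pos he (by linarith)
      linarith
    unfold tchk at h
    simp only [Bool.or_eq_true] at h
    rcases h with (h | h) | h
    · have h1 := Nat.le_of_ble_eq_true h
      simp only [Nat.mul_eq] at h1
      have h2 : (2621440 : ℝ) ≤ (e0 : ℝ) * c0 := by exact_mod_cast h1
      have h3 : q * (2621440 - e * c) ≤ 0 := by
        apply mul_nonpos_of_nonneg_of_nonpos hq.le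
        linarith
      linarith
    · have h1 := Nat.le_of_ble_eq_true h
      simp only [Nat.mul_eq, Nat.sub_eq] at h1
      rcases le_or_gt c1 1280 with hc1 | hc1
      · have h2 : (2621440 : ℝ) ≤ 2 * ((e0 : ℝ) * (1280 - c1)) := by
          have := (Nat.cast_le (α := ℝ)).mpr h1
          push_cast [Nat.cast_sub hc1] at this
          exact this
        have hc1' : (0 : ℝ) ≤ 1280 - c1 := by
          have : (c1 : ℝ) ≤ 1280 := by exact_mod_cast hc1
          linarith
        have h3 : (e0 : ℝ) * (1280 - c1) ≤ e * (1280 - c) :=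
          mul_le_mul he0 (by linarith) hc1' he.le
        have hecp : 0 < e * c := mul_pos he hc
        rcases le_or_gt 0 (2621440 - e * c) with hs | hs
        · have h4 : q * (2621440 - e * c) ≤ 768 * (2621440 - e * c) :=
            mul_le_mul_of_nonneg_right hq' hs
          linarith
        · have h4 : q * (2621440 - e * c) ≤ 0 :=
            mul_nonpos_of_nonneg_of_nonpos hq.le hs.le
          linarith
      · rw [Nat.sub_eq_zero_of_le hc1.le] at h1
        simp at h1
    · have h1 : q1 * (2621440 - e0 * c0) < 1536 * (e0 * (1280 - c1)) := by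
        have := Nat.le_of_ble_eq_true h
        simpa [Nat.mul_eq, Nat.sub_eq, Nat.succ_le_iff] using this
      rcases le_or_gt c1 1280 with hc1 | hc1
      · have hc1' : (0 : ℝ) ≤ 1280 - c1 := by
          have : (c1 : ℝ) ≤ 1280 := by exact_mod_cast hc1
          linarith
        have h3 : (e0 : ℝ) * (1280 - c1) ≤ e * (1280 - c) :=
          mul_le_mul he0 (by linarith) hc1' he.le
        rcases le_or_gt (e0 * c0) 2621440 with hz | hz
        · have h2 : (q1 : ℝ) * (2621440 - (e0 : ℝ) * c0) < 1536 * ((e0 : ℝ) * (1280 - c1)) := by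
            have := (Nat.cast_lt (α := ℝ)).mpr h1
            push_cast [Nat.cast_sub hc1, Nat.cast_sub hz] at this
            exact this
          have hz' : (0 : ℝ) ≤ 2621440 - (e0 : ℝ) * c0 := by
            have : ((e0 * c0 : ℕ) : ℝ) ≤ 2621440 := by exact_mod_cast hz
            push_cast at this
            linarith
          have h4 : q * (2621440 - e * c) ≤ q1 * (2621440 - (e0 : ℝ) * c0) := by
            have h5 : q * (2621440 - e * c) ≤ q * (2621440 - (e0 : ℝ) * c0) :=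
              mul_le_mul_of_nonneg_left (by linarith) hq.le
            have h6 : q * (2621440 - (e0 : ℝ) * c0) ≤ q1 * (2621440 - (e0 : ℝ) * c0) :=
              mul_le_mul_of_nonneg_right hq1 hz'
            linarith
          linarith
        · have hz' : (2621440 : ℝ) ≤ (e0 : ℝ) * c0 := by
            have : (2621440 : ℝ) ≤ ((e0 * c0 : ℕ) : ℝ) := by exact_mod_cast hz.le
            push_cast at this
            linarith
          have h3 : q * (2621440 - e * c) ≤ 0 := by
            apply mul_nonpos_of_nonneg_of_nonpos hq.le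
            linarith
          linarith
      · rw [Nat.sub_eq_zero_of_le hc1.le] at h1
        simp at h1
  -- back to the rates
  have pa1 : 0 < a1 := by
    have : 0 < 768 * (e * c) * b1 := by positivity
    linarith
  have e1' : (2621440 - e * c) * b1 * 768 = 2013265920 * (b1 - a1) := by
    linear_combination (-1 : ℝ) * k1
  have e2 : q * a1 = 768 * a0 := by
    have h1 : 2013265920 * (q * a1) = 2013265920 * (768 * a0) := by
      linear_combination 768 * k0 - q * k1
    linarith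
  have m1 := mul_lt_mul_of_pos_right claim (mul_pos pb1 pa1)
  have m2 : q * (2621440 - e * c) * (b1 * a1) = 2013265920 * (a0 * (b1 - a1)) := by
    have : q * (2621440 - e * c) * (b1 * a1) = (q * a1) * ((2621440 - e * c) * b1) := by ring
    rw [this, e2]
    have h5 : 768 * a0 * ((2621440 - e * c) * b1) = a0 * ((2621440 - e * c) * b1 * 768) := by ring
    rw [h5, e1']
    ring
  have m3 : 2 * 768 * (e * (1280 - c)) * (b1 * a1) = 2013265920 * (2 * a1 * b0) := by
    linear_combination (2 * a1) * k2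
  rw [m2, m3] at m1
  linarith

theorem ochk_sound {e0 e1 c0 c1 q0 q1 : ℕ} (h : ochk e0 e1 c0 c1 q0 q1 = true)
    {a0 a1 b0 b1 e c q : ℝ} (H : Coord a0 a1 b0 b1 e c q) (he1 : e ≤ e1)
    (hcc0 : (c0 : ℝ) ≤ c) (hq1 : q ≤ q1) :
    20 * b0 ≤ b1 ∧ 4 * b0 ≤ a1 ∧ 3 * a0 ≤ a1 := by
  obtain ⟨pb1, ha, hb, he, hc, hc', hq, hq', k0, k1, k2⟩ := H
  unfold ochk at h
  simp only [Bool.and_eq_true] at h
  obtain ⟨⟨h1, h2⟩, h3⟩ := h
  have h1' := Nat.le_of_ble_eq_true h1
  have h2' := Nat.le_of_ble_eq_true h2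
  have h3' := Nat.le_of_ble_eq_true h3
  simp only [Nat.mul_eq, Nat.sub_eq] at h1'
  have g2 : (1024 : ℝ) ≤ c := by
    have : (1024 : ℝ) ≤ c0 := by exact_mod_cast h2'
    linarith
  have g3 : q ≤ 256 := by
    have : (q1 : ℝ) ≤ 256 := by exact_mod_cast h3'
    linarith
  have hcb : c0 ≤ 1280 := by
    have : (c0 : ℝ) < 1280 := by linarith
    exact_mod_cast this.le
  have g1 : 20 * (e * (1280 - c)) ≤ 2621440 := by
    have h4 := (Nat.cast_le (α := ℝ)).mpr h1'
    push_cast [Nat.cast_sub hcb] at h4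
    have h5 : e * (1280 - c) ≤ e1 * (1280 - c0) :=
      mul_le_mul he1 (by linarith) (by linarith) (Nat.cast_nonneg _)
    linarith
  have hecp : 0 < e * c := mul_pos he hc
  refine ⟨?_, ?_, ?_⟩
  · have := mul_le_mul_of_nonneg_right g1 pb1.le
    linarith
  · have h4 : 4 * (768 * (e * (1280 - c))) ≤ 768 * (e * c) := by
      have : e * (4 * (1280 - c)) ≤ e * c := mul_le_mul_of_nonneg_left (by linarith) he.le
      linarith
    have := mul_le_mul_of_nonneg_right h4 pb1.le
    linarith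
  · have h4 : 3 * (q * (e * c)) ≤ 768 * (e * c) := by
      have := mul_le_mul_of_nonneg_right g3 hecp.le
      linarith
    have := mul_le_mul_of_nonneg_right h4 pb1.le
    linarith

theorem Tr.chk_sound (tr : Tr) : ∀ {e0 e1 c0 c1 q0 q1 : ℕ}, c0 ≤ 1280 → c1 ≤ 1280 →
    tr.chk e0 e1 c0 c1 q0 q1 = true → ∀ {a0 a1 b0 b1 e c q : ℝ}, Coord a0 a1 b0 b1 e c q →
    (e0 : ℝ) ≤ e → e ≤ e1 → (c0 : ℝ) ≤ c → c ≤ c1 → (q0 : ℝ) ≤ q → q ≤ q1 →
    a0 * (b1 - a1) < 2 * a1 * b0 ∨ (20 * b0 ≤ b1 ∧ 4 * b0 ≤ a1 ∧ 3 * a0 ≤ a1) ∨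
      ∃ W, PCCrit (c4 a0 a1 b0 b1) W := by
  induction tr with
  | t =>
    intro e0 e1 c0 c1 q0 q1 _ _ h a0 a1 b0 b1 e c q H he0 _ hcc0 hcc1 _ hq1
    exact Or.inl (tchk_sound h H he0 hcc0 hcc1 hq1)
  | o =>
    intro e0 e1 c0 c1 q0 q1 _ _ h a0 a1 b0 b1 e c q H _ he1 hcc0 _ _ hq1
    exact Or.inr (Or.inl (ochk_sound h H he1 hcc0 hq1))
  | p T =>
    intro e0 e1 c0 c1 q0 q1 hc0 hc1 h a0 a1 b0 b1 e c q H he0 he1 hcc0 hcc1 hq0 hq1
    exact Or.inr (Or.inr ⟨WT T, pchk_sound hc0 hc1 h H.pb1 H.ha H.hb H.he he0 he1 hcc0 hcc1 hq0 hq1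
      H.k0 H.k1 H.k2⟩)
  | se m l r ihl ihr =>
    intro e0 e1 c0 c1 q0 q1 hc0 hc1 h a0 a1 b0 b1 e c q H he0 he1 hcc0 hcc1 hq0 hq1
    unfold Tr.chk at h
    simp only [Bool.and_eq_true] at h
    rcases le_total e m with hm | hm
    · exact ihl hc0 hc1 h.1 H he0 hm hcc0 hcc1 hq0 hq1
    · exact ihr hc0 hc1 h.2 H hm he1 hcc0 hcc1 hq0 hq1
  | sc m l r ihl ihr =>
    intro e0 e1 c0 c1 q0 q1 hc0 hc1 h a0 a1 b0 b1 e c q H he0 he1 hcc0 hcc1 hq0 hq1
    unfold Tr.chk at h
    simp only [Bool.and_eq_true] at h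
    rcases le_total c m with hm | hm
    · exact ihl hc0 (Nat.le_of_ble_eq_true h.1) h.2.1 H he0 he1 hcc0 hm hq0 hq1
    · exact ihr (Nat.le_of_ble_eq_true h.1) hc1 h.2.2 H he0 he1 hm hcc1 hq0 hq1
  | sq m l r ihl ihr =>
    intro e0 e1 c0 c1 q0 q1 hc0 hc1 h a0 a1 b0 b1 e c q H he0 he1 hcc0 hcc1 hq0 hq1
    unfold Tr.chk at h
    simp only [Bool.and_eq_true] at h
    rcases le_total q m with hm | hm
    · exact ihl hc0 hc1 h.1 H he0 he1 hcc0 hcc1 hq0 hm
    · exact ihr hc0 hc1 h.2 H he0 he1 hcc0 hcc1 hm hq1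

/-- The criterion of path coupling holds outside the region of duality, except near the East line. -/
theorem cert {a0 a1 b0 b1 : ℝ} (pa0 : 0 < a0) (pb0 : 0 < b0) (ha : a0 ≤ a1) (hb : b0 ≤ b1)
    (hT : ¬ a0 * (b1 - a1) < 2 * a1 * b0) (hR : b1 < 20 * b0 ∨ a1 < 4 * b0 ∨ a1 < 3 * a0) :
    ∃ W, PCCrit (c4 a0 a1 b0 b1) W := by
  have pa1 : 0 < a1 := lt_of_lt_of_le pa0 ha
  have pb1 : 0 < b1 := lt_of_lt_of_le pb0 hb
  have hS : 0 < a1 + b0 := add_pos pa1 pb0
  have hSb : a1 + b0 ≤ b1 := by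
    have h1 : 2 * a1 * b0 ≤ a0 * (b1 - a1) := not_lt.mp hT
    have h2 : 0 < b1 - a1 := by
      have h3 : 0 < a0 * (b1 - a1) := lt_of_lt_of_le (by positivity) h1
      exact (pos_iff_pos_of_mul_pos h3).mp pa0
    have h4 : a0 * (b1 - a1) ≤ a1 * (b1 - a1) := mul_le_mul_of_nonneg_right ha h2.le
    have h5 : a1 * (2 * b0) ≤ a1 * (b1 - a1) := by linarith
    have h6 := le_of_mul_le_mul_left h5 pa1
    linarith
  have H : Coord a0 a1 b0 b1 (2048 * ((a1 + b0) / b1)) (1280 * (a1 / (a1 + b0)))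
      (768 * (a0 / a1)) := by
    refine ⟨pb1, ha, hb, by positivity, by positivity, ?_, by positivity, ?_, ?_, ?_, ?_⟩
    · have : a1 / (a1 + b0) < 1 := (div_lt_one hS).mpr (by linarith)
      linarith
    · have : a0 / a1 ≤ 1 := (div_le_one pa1).mpr ha
      linarith
    · field_simp
      ring
    · field_simp
      ring
    · field_simp
      ring
  have hmain := Tr.chk_sound certTree (by norm_num) (by norm_num) certTree_chk H
    (by have := H.he.le; simpa using this)
    (by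
      have : (a1 + b0) / b1 ≤ 1 := (div_le_one pb1).mpr hSb
      push_cast
      linarith)
    (by have := H.hc.le; simpa using this)
    (by have := H.hc'.le; push_cast; linarith)
    (by have := H.hq.le; simpa using this)
    (by have := H.hq'; push_cast; linarith)
  rcases hmain with h | ⟨h1, h2, h3⟩ | h
  · exact absurd h hT
  · rcases hR with h | h | h
    · exact absurd h (not_lt.mpr h1)
    · exact absurd h (not_lt.mpr h2)
    · exact absurd h (not_lt.mpr h3)
  · exact h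

end H72IPS
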