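import Pool.Agent.H72.IPS.PCDefs

/-! # Certificates for the path coupling criterion: the checker

Grid coordinates: `e / 2048 = (a1 + b0) / b1`, `c / 1280 = a1 / (a1 + b0)`, `q / 768 = a0 / a1`, so that
`(a0, a1, b0, b1)` is proportional to `(q e c, 768 e c, 768 e (1280 - c), 2048 * 1280 * 768)`. -/

namespace H72IPS

/-- rates from four numbers -/
def c4 (a0 a1 b0 b1 : ℝ) (s y : Bool) : ℝ := cond s (cond y b1 b0) (cond y a1 a0)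

/-- rates from four natural numbers -/
def cN (a0 a1 b0 b1 : ℕ) (s y : Bool) : ℕ := cond s (cond y b1 b0) (cond y a1 a0)

/-- index of a pattern -/
def ix (l1 l2 l3 r1 r2 r3 : Bool) : ℕ :=
  Nat.add (Nat.add (cond l1 20 0) (cond l2 40 0)) (Nat.add (Nat.add (cond l3 80 0) (cond r1 160 0))
    (Nat.add (cond r2 320 0) (cond r3 640 0)))

/-- table lookup: 64 entries of 20 bits -/
def gw (T : ℕ) (l1 l2 l3 r1 r2 r3 : Bool) : ℕ :=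
  Nat.mod (Nat.shiftRight T (ix l1 l2 l3 r1 r2 r3)) 1048576

/-- the larger (over the state of `k-4`) of the costs of a new discrepancy -/
def mxN (T : ℕ) (l1 l2 l3 r1 r2 r3 : Bool) : ℕ :=
  max (min (Nat.add (gw T (!l1) l2 l3 r1 r2 r3) (gw T l2 l3 false false r1 r2))
           (Nat.add (gw T l2 l3 false true r1 r2) (gw T l1 l2 l3 r1 r2 r3)))
      (min (Nat.add (gw T (!l1) l2 l3 r1 r2 r3) (gw T l2 l3 true false r1 r2))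
           (Nat.add (gw T l2 l3 true true r1 r2) (gw T l1 l2 l3 r1 r2 r3)))

/-- one ray: the inequality `Gval < 0` (`≤ 0` if not strict) in natural numbers -/
def ray (a0 a1 b0 b1 : ℕ) (strict : Bool) (l1 l2 l3 r1 r2 r3 f : Bool)
    (w wr1 wr2 wr3 wl2 wl3 wl1 mx : ℕ) : Bool :=
  Nat.ble
    (Nat.add (cond strict 1 0)
      (Nat.add (Nat.add (Nat.add (Nat.mul (cN a0 a1 b0 b1 r1 r2) wr1) (Nat.mul (cN a0 a1 b0 b1 r2 r3) wr2))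
        (Nat.add (Nat.mul (cN a0 a1 b0 b1 r3 f) wr3) (Nat.mul (cN a0 a1 b0 b1 l2 l1) wl2)))
        (Nat.add (Nat.add (Nat.mul (cN a0 a1 b0 b1 l3 l2) wl3) (Nat.mul (cN a0 a1 b0 b1 l1 false) wl1))
          (Nat.mul (cN a0 a1 b0 b1 l1 true) mx))))
    (Nat.add (Nat.mul
      (Nat.add (Nat.add (Nat.add (cN a0 a1 b0 b1 false r1) (cN a0 a1 b0 b1 true r1))
          (Nat.add (cN a0 a1 b0 b1 r1 r2) (cN a0 a1 b0 b1 r2 r3)))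
        (Nat.add (Nat.add (cN a0 a1 b0 b1 r3 f) (cN a0 a1 b0 b1 l2 l1))
          (Nat.add (cN a0 a1 b0 b1 l3 l2) (cN a0 a1 b0 b1 l1 true)))) w)
      (Nat.mul (cN a0 a1 b0 b1 l1 false) mx))

/-- a ray given by a grid point -/
def gray (e c q : ℕ) (l1 l2 l3 r1 r2 r3 f : Bool) (w wr1 wr2 wr3 wl2 wl3 wl1 mx : ℕ) : Bool :=
  ray (Nat.mul q (Nat.mul e c)) (Nat.mul 768 (Nat.mul e c)) (Nat.mul 768 (Nat.mul e (Nat.sub 1280 c)))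
    2013265920 true l1 l2 l3 r1 r2 r3 f w wr1 wr2 wr3 wl2 wl3 wl1 mx

/-- all rays of a box -/
def rays (e0 e1 c0 c1 q0 q1 : ℕ) (l1 l2 l3 r1 r2 r3 f : Bool)
    (w wr1 wr2 wr3 wl2 wl3 wl1 mx : ℕ) : Bool :=
  gray e1 c0 q0 l1 l2 l3 r1 r2 r3 f w wr1 wr2 wr3 wl2 wl3 wl1 mx &&
  gray e1 c0 q1 l1 l2 l3 r1 r2 r3 f w wr1 wr2 wr3 wl2 wl3 wl1 mx &&
  gray e1 c1 q0 l1 l2 l3 r1 r2 r3 f w wr1 wr2 wr3 wl2 wl3 wl1 mx &&
  gray e1 c1 q1 l1 l2 l3 r1 r2 r3 f w wr1 wr2 wr3 wl2 wl3 wl1 mx &&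
  cond (Nat.beq e0 0)
    (ray 0 0 0 1 false l1 l2 l3 r1 r2 r3 f w wr1 wr2 wr3 wl2 wl3 wl1 mx)
    (gray e0 c0 q0 l1 l2 l3 r1 r2 r3 f w wr1 wr2 wr3 wl2 wl3 wl1 mx &&
     gray e0 c0 q1 l1 l2 l3 r1 r2 r3 f w wr1 wr2 wr3 wl2 wl3 wl1 mx &&
     gray e0 c1 q0 l1 l2 l3 r1 r2 r3 f w wr1 wr2 wr3 wl2 wl3 wl1 mx &&
     gray e0 c1 q1 l1 l2 l3 r1 r2 r3 f w wr1 wr2 wr3 wl2 wl3 wl1 mx)

/-- conjunction over both booleans -/
def allB (P : Bool → Bool) : Bool := P false && P true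

/-- the check of a table on a box -/
def pchk (T e0 e1 c0 c1 q0 q1 : ℕ) : Bool :=
  allB fun l1 => allB fun l2 => allB fun l3 => allB fun r1 => allB fun r2 => allB fun r3 =>
    Nat.ble 1 (gw T l1 l2 l3 r1 r2 r3) &&
    allB fun f => rays e0 e1 c0 c1 q0 q1 l1 l2 l3 r1 r2 r3 f
      (gw T l1 l2 l3 r1 r2 r3) (gw T l1 l2 l3 (!r1) r2 r3) (gw T l1 l2 l3 r1 (!r2) r3)
      (gw T l1 l2 l3 r1 r2 (!r3)) (gw T l1 (!l2) l3 r1 r2 r3) (gw T l1 l2 (!l3) r1 r2 r3)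
      (gw T (!l1) l2 l3 r1 r2 r3) (mxN T l1 l2 l3 r1 r2 r3)

/-- the dual criterion holds on the box -/
def tchk (e0 _e1 c0 c1 _q0 q1 : ℕ) : Bool :=
  Nat.ble 2621440 (Nat.mul e0 c0) || Nat.ble 2621440 (Nat.mul 2 (Nat.mul e0 (Nat.sub 1280 c1))) ||
    Nat.blt (Nat.mul q1 (Nat.sub 2621440 (Nat.mul e0 c0))) (Nat.mul 1536 (Nat.mul e0 (Nat.sub 1280 c1)))

/-- the box is outside the region of the theorem -/
def ochk (_e0 e1 c0 _c1 _q0 q1 : ℕ) : Bool :=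
  Nat.ble (Nat.mul 20 (Nat.mul e1 (Nat.sub 1280 c0))) 2621440 && Nat.ble 1024 c0 && Nat.ble q1 256

/-- decision trees -/
inductive Tr where
  | t : Tr
  | o : Tr
  | p : ℕ → Tr
  | se : ℕ → Tr → Tr → Tr
  | sc : ℕ → Tr → Tr → Tr
  | sq : ℕ → Tr → Tr → Tr

/-- the check of a decision tree on a box -/
def Tr.chk : Tr → ℕ → ℕ → ℕ → ℕ → ℕ → ℕ → Bool
  | .t, e0, e1, c0, c1, q0, q1 => tchk e0 e1 c0 c1 q0 q1
  | .o, e0, e1, c0, c1, q0, q1 => ochk e0 e1 c0 c1 q0 q1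
  | .p T, e0, e1, c0, c1, q0, q1 => pchk T e0 e1 c0 c1 q0 q1
  | .se m l r, e0, e1, c0, c1, q0, q1 => l.chk e0 m c0 c1 q0 q1 && r.chk m e1 c0 c1 q0 q1
  | .sc m l r, e0, e1, c0, c1, q0, q1 =>
    Nat.ble m 1280 && (l.chk e0 e1 c0 m q0 q1 && r.chk e0 e1 m c1 q0 q1)
  | .sq m l r, e0, e1, c0, c1, q0, q1 => l.chk e0 e1 c0 c1 q0 m && r.chk e0 e1 c0 c1 m q1

end H72IPS
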