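import Pool.Agent.H72.IPS.CertDefs

/-! # Certificates for the path coupling criterion: soundness of the checker -/

namespace H72IPS

theorem cN_cast (a0 a1 b0 b1 : ℕ) (s y : Bool) :
    ((cN a0 a1 b0 b1 s y : ℕ) : ℝ) = c4 a0 a1 b0 b1 s y := by
  cases s <;> cases y <;> rfl

/-- the linear form controlling `Gval` -/
def GF (a0 a1 b0 b1 : ℝ) (l1 l2 l3 r1 r2 r3 f : Bool) (w wr1 wr2 wr3 wl2 wl3 wl1 mx : ℝ) : ℝ :=
  -(c4 a0 a1 b0 b1 false r1 + c4 a0 a1 b0 b1 true r1) * w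
  + c4 a0 a1 b0 b1 r1 r2 * (wr1 - w)
  + c4 a0 a1 b0 b1 r2 r3 * (wr2 - w)
  + c4 a0 a1 b0 b1 r3 f * (wr3 - w)
  + c4 a0 a1 b0 b1 l2 l1 * (wl2 - w)
  + c4 a0 a1 b0 b1 l3 l2 * (wl3 - w)
  + c4 a0 a1 b0 b1 l1 false * (wl1 - w)
  + (c4 a0 a1 b0 b1 l1 true - c4 a0 a1 b0 b1 l1 false) * (mx - w)

theorem ray_sound {a0 a1 b0 b1 : ℕ} {s : Bool} {l1 l2 l3 r1 r2 r3 f : Bool}
    {w wr1 wr2 wr3 wl2 wl3 wl1 mx : ℕ}
    (h : ray a0 a1 b0 b1 s l1 l2 l3 r1 r2 r3 f w wr1 wr2 wr3 wl2 wl3 wl1 mx = true) :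
    GF a0 a1 b0 b1 l1 l2 l3 r1 r2 r3 f w wr1 wr2 wr3 wl2 wl3 wl1 mx + (cond s 1 0 : ℝ) ≤ 0 := by
  have h1 := Nat.le_of_ble_eq_true h
  simp only [Nat.add_eq, Nat.mul_eq] at h1
  have h2 : ((cond s 1 0 : ℕ) : ℝ) = (cond s 1 0 : ℝ) := by cases s <;> simp
  have h3 := (Nat.cast_le (α := ℝ)).mpr h1
  push_cast [cN_cast] at h3
  rw [h2] at h3
  unfold GF
  linarith

theorem c4_lin (a0 a1 b0 b1 : ℝ) (s y : Bool) :
    c4 a0 a1 b0 b1 s y = a0 * c4 1 0 0 0 s y + a1 * c4 0 1 0 0 s y + b0 * c4 0 0 1 0 s y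
      + b1 * c4 0 0 0 1 s y := by
  cases s <;> cases y <;> simp [c4]

theorem GF_lin (a0 a1 b0 b1 : ℝ) (l1 l2 l3 r1 r2 r3 f : Bool)
    (w wr1 wr2 wr3 wl2 wl3 wl1 mx : ℝ) :
    GF a0 a1 b0 b1 l1 l2 l3 r1 r2 r3 f w wr1 wr2 wr3 wl2 wl3 wl1 mx =
      a0 * GF 1 0 0 0 l1 l2 l3 r1 r2 r3 f w wr1 wr2 wr3 wl2 wl3 wl1 mx +
      a1 * GF 0 1 0 0 l1 l2 l3 r1 r2 r3 f w wr1 wr2 wr3 wl2 wl3 wl1 mx +
      b0 * GF 0 0 1 0 l1 l2 l3 r1 r2 r3 f w wr1 wr2 wr3 wl2 wl3 wl1 mx +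
      b1 * GF 0 0 0 1 l1 l2 l3 r1 r2 r3 f w wr1 wr2 wr3 wl2 wl3 wl1 mx := by
  unfold GF
  simp only [c4_lin a0 a1 b0 b1]
  ring

/-- an affine function negative at both ends of an interval is negative in between -/
theorem aff_neg {A B x x0 x1 : ℝ} (h0 : A * x0 + B < 0) (h1 : A * x1 + B < 0) (hx0 : x0 ≤ x)
    (hx1 : x ≤ x1) : A * x + B < 0 := by
  rcases le_total 0 A with hA | hA
  · nlinarith [mul_le_mul_of_nonneg_left hx1 hA]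
  · nlinarith [mul_le_mul_of_nonpos_left hx0 hA]

/-- the same on a half-open interval starting at `0` -/
theorem aff_neg0 {A B x x1 : ℝ} (h0 : B ≤ 0) (h1 : A * x1 + B < 0) (hx0 : 0 < x)
    (hx1 : x ≤ x1) : A * x + B < 0 := by
  rcases le_or_gt 0 A with hA | hA
  · nlinarith [mul_le_mul_of_nonneg_left hx1 hA]
  · nlinarith [mul_neg_of_neg_of_pos hA hx0]

theorem gray_sound {e c q : ℕ} (hc : c ≤ 1280) {l1 l2 l3 r1 r2 r3 f : Bool}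
    {w wr1 wr2 wr3 wl2 wl3 wl1 mx : ℕ}
    (h : gray e c q l1 l2 l3 r1 r2 r3 f w wr1 wr2 wr3 wl2 wl3 wl1 mx = true) :
    GF ((q : ℝ) * (e * c)) (768 * (e * c)) (768 * (e * (1280 - c))) 2013265920
      l1 l2 l3 r1 r2 r3 f w wr1 wr2 wr3 wl2 wl3 wl1 mx < 0 := by
  have h1 := ray_sound h
  simp only [Nat.mul_eq, Nat.sub_eq] at h1
  push_cast [Nat.cast_sub hc] at h1
  simp only [cond_true] at h1
  linarith

theorem rays_sound {e0 e1 c0 c1 q0 q1 : ℕ} (hc0 : c0 ≤ 1280) (hc1 : c1 ≤ 1280)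
    {l1 l2 l3 r1 r2 r3 f : Bool} {w wr1 wr2 wr3 wl2 wl3 wl1 mx : ℕ}
    (h : rays e0 e1 c0 c1 q0 q1 l1 l2 l3 r1 r2 r3 f w wr1 wr2 wr3 wl2 wl3 wl1 mx = true)
    {e c q : ℝ} (he : 0 < e) (he0 : (e0 : ℝ) ≤ e) (he1 : e ≤ e1) (hcc0 : (c0 : ℝ) ≤ c)
    (hcc1 : c ≤ c1) (hq0 : (q0 : ℝ) ≤ q) (hq1 : q ≤ q1) :
    GF (q * (e * c)) (768 * (e * c)) (768 * (e * (1280 - c))) 2013265920
      l1 l2 l3 r1 r2 r3 f w wr1 wr2 wr3 wl2 wl3 wl1 mx < 0 := by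
  unfold rays at h
  simp only [Bool.and_eq_true] at h
  obtain ⟨⟨⟨⟨h1, h2⟩, h3⟩, h4⟩, h5⟩ := h
  have g1 := gray_sound hc0 h1
  have g2 := gray_sound hc0 h2
  have g3 := gray_sound hc1 h3
  have g4 := gray_sound hc1 h4
  rw [GF_lin] at g1 g2 g3 g4 ⊢
  set G1 := GF 1 0 0 0 l1 l2 l3 r1 r2 r3 f w wr1 wr2 wr3 wl2 wl3 wl1 mx
  set G2 := GF 0 1 0 0 l1 l2 l3 r1 r2 r3 f w wr1 wr2 wr3 wl2 wl3 wl1 mx
  set G3 := GF 0 0 1 0 l1 l2 l3 r1 r2 r3 f w wr1 wr2 wr3 wl2 wl3 wl1 mx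
  set G4 := GF 0 0 0 1 l1 l2 l3 r1 r2 r3 f w wr1 wr2 wr3 wl2 wl3 wl1 mx
  -- the corners at height `e`
  have key : ∀ x y : ℝ,
      ((y * (e1 * x)) * G1 + (768 * (e1 * x)) * G2 + (768 * (e1 * (1280 - x))) * G3
        + 2013265920 * G4 < 0) →
      ((Nat.beq e0 0 = true ∧ G4 ≤ 0) ∨ ((y * (e0 * x)) * G1 + (768 * (e0 * x)) * G2
        + (768 * (e0 * (1280 - x))) * G3 + 2013265920 * G4 < 0)) →
      ((y * (e * x)) * G1 + (768 * (e * x)) * G2 + (768 * (e * (1280 - x))) * G3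
        + 2013265920 * G4 < 0) := by
    intro x y ha hb
    rcases hb with ⟨_, hb⟩ | hb
    · have := aff_neg0 (A := y * x * G1 + 768 * x * G2 + 768 * (1280 - x) * G3)
        (B := 2013265920 * G4) (x := e) (x1 := e1) (by linarith) (by linarith) he he1
      linarith
    · have := aff_neg (A := y * x * G1 + 768 * x * G2 + 768 * (1280 - x) * G3)
        (B := 2013265920 * G4) (x := e) (x0 := e0) (x1 := e1) (by linarith) (by linarith) he0 he1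
      linarith
  have hlow : ∀ x y : ℝ, ((x = c0 ∨ x = c1) ∧ (y = q0 ∨ y = q1)) →
      ((Nat.beq e0 0 = true ∧ G4 ≤ 0) ∨ ((y * (e0 * x)) * G1 + (768 * (e0 * x)) * G2
        + (768 * (e0 * (1280 - x))) * G3 + 2013265920 * G4 < 0)) := by
    intro x y hxy
    cases hz : Nat.beq e0 0
    · right
      rw [hz] at h5
      simp only [cond_false, Bool.and_eq_true] at h5
      obtain ⟨⟨⟨k1, k2⟩, k3⟩, k4⟩ := h5
      have m1 := gray_sound hc0 k1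
      have m2 := gray_sound hc0 k2
      have m3 := gray_sound hc1 k3
      have m4 := gray_sound hc1 k4
      rw [GF_lin] at m1 m2 m3 m4
      rcases hxy with ⟨hx | hx, hy | hy⟩
      · rw [hx, hy]; exact m1
      · rw [hx, hy]; exact m2
      · rw [hx, hy]; exact m3
      · rw [hx, hy]; exact m4
    · left
      rw [hz] at h5
      simp only [cond_true] at h5
      have m := ray_sound h5
      simp only [Nat.cast_zero, Nat.cast_one, cond_false, add_zero] at m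
      exact ⟨rfl, m⟩
  have f1 := key c0 q0 g1 (hlow c0 q0 ⟨Or.inl rfl, Or.inl rfl⟩)
  have f2 := key c0 q1 g2 (hlow c0 q1 ⟨Or.inl rfl, Or.inr rfl⟩)
  have f3 := key c1 q0 g3 (hlow c1 q0 ⟨Or.inr rfl, Or.inl rfl⟩)
  have f4 := key c1 q1 g4 (hlow c1 q1 ⟨Or.inr rfl, Or.inr rfl⟩)
  -- interpolate in `q`
  have i1 := aff_neg (A := (e * c0) * G1) (B := (768 * (e * c0)) * G2
    + (768 * (e * (1280 - c0))) * G3 + 2013265920 * G4) (x := q) (x0 := q0) (x1 := q1)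
    (by linarith) (by linarith) hq0 hq1
  have i2 := aff_neg (A := (e * c1) * G1) (B := (768 * (e * c1)) * G2
    + (768 * (e * (1280 - c1))) * G3 + 2013265920 * G4) (x := q) (x0 := q0) (x1 := q1)
    (by linarith) (by linarith) hq0 hq1
  -- interpolate in `c`
  have i3 := aff_neg (A := q * e * G1 + 768 * e * G2 - 768 * e * G3)
    (B := 768 * e * 1280 * G3 + 2013265920 * G4) (x := c) (x0 := c0) (x1 := c1)
    (by linarith) (by linarith) hcc0 hcc1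
  linarith

theorem allB_sound {P : Bool → Bool} (h : allB P = true) (b : Bool) : P b = true := by
  unfold allB at h
  simp only [Bool.and_eq_true] at h
  cases b
  · exact h.1
  · exact h.2

/-- the weight function given by a table -/
noncomputable def WT (T : ℕ) : Wt := fun l1 l2 l3 r1 r2 r3 => (gw T l1 l2 l3 r1 r2 r3 : ℝ)

theorem Gval_le_GF {a0 a1 b0 b1 : ℝ} (ha : a0 ≤ a1) (hb : b0 ≤ b1) (T : ℕ)
    (l1 l2 l3 r1 r2 r3 e f : Bool) :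
    Gval (c4 a0 a1 b0 b1) (WT T) l1 l2 l3 r1 r2 r3 e f ≤
      GF a0 a1 b0 b1 l1 l2 l3 r1 r2 r3 f (gw T l1 l2 l3 r1 r2 r3) (gw T l1 l2 l3 (!r1) r2 r3)
        (gw T l1 l2 l3 r1 (!r2) r3) (gw T l1 l2 l3 r1 r2 (!r3)) (gw T l1 (!l2) l3 r1 r2 r3)
        (gw T l1 l2 (!l3) r1 r2 r3) (gw T (!l1) l2 l3 r1 r2 r3) (mxN T l1 l2 l3 r1 r2 r3) := by
  have hmx : min (WT T (!l1) l2 l3 r1 r2 r3 + WT T l2 l3 e false r1 r2)
           (WT T l2 l3 e true r1 r2 + WT T l1 l2 l3 r1 r2 r3) ≤ (mxN T l1 l2 l3 r1 r2 r3 : ℝ) := by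
    unfold WT mxN
    simp only [Nat.add_eq]
    push_cast
    cases e
    · exact le_max_left _ _
    · exact le_max_right _ _
  have hd : 0 ≤ c4 a0 a1 b0 b1 l1 true - c4 a0 a1 b0 b1 l1 false := by
    cases l1
    · exact sub_nonneg.mpr ha
    · exact sub_nonneg.mpr hb
  have hm := mul_le_mul_of_nonneg_left hmx hd
  unfold Gval GF
  unfold WT at hm ⊢
  linarith

theorem pchk_sound {T e0 e1 c0 c1 q0 q1 : ℕ} (hc0 : c0 ≤ 1280) (hc1 : c1 ≤ 1280)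
    (h : pchk T e0 e1 c0 c1 q0 q1 = true)
    {a0 a1 b0 b1 : ℝ} (hb1 : 0 < b1) (ha : a0 ≤ a1) (hb : b0 ≤ b1)
    {e c q : ℝ} (he : 0 < e) (he0 : (e0 : ℝ) ≤ e) (he1 : e ≤ e1) (hcc0 : (c0 : ℝ) ≤ c)
    (hcc1 : c ≤ c1) (hq0 : (q0 : ℝ) ≤ q) (hq1 : q ≤ q1)
    (k0 : q * (e * c) * b1 = 2013265920 * a0) (k1 : 768 * (e * c) * b1 = 2013265920 * a1)
    (k2 : 768 * (e * (1280 - c)) * b1 = 2013265920 * b0) :
    PCCrit (c4 a0 a1 b0 b1) (WT T) := by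
  unfold pchk at h
  have hh : ∀ l1 l2 l3 r1 r2 r3 : Bool, Nat.ble 1 (gw T l1 l2 l3 r1 r2 r3) = true ∧ ∀ f : Bool,
      rays e0 e1 c0 c1 q0 q1 l1 l2 l3 r1 r2 r3 f
      (gw T l1 l2 l3 r1 r2 r3) (gw T l1 l2 l3 (!r1) r2 r3) (gw T l1 l2 l3 r1 (!r2) r3)
      (gw T l1 l2 l3 r1 r2 (!r3)) (gw T l1 (!l2) l3 r1 r2 r3) (gw T l1 l2 (!l3) r1 r2 r3)
      (gw T (!l1) l2 l3 r1 r2 r3) (mxN T l1 l2 l3 r1 r2 r3) = true := by
    intro l1 l2 l3 r1 r2 r3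
    have h6 := allB_sound (allB_sound (allB_sound (allB_sound (allB_sound (allB_sound h l1) l2) l3)
      r1) r2) r3
    simp only [Bool.and_eq_true] at h6
    exact ⟨h6.1, fun f => allB_sound h6.2 f⟩
  constructor
  · intro l1 l2 l3 r1 r2 r3
    have := Nat.le_of_ble_eq_true (hh l1 l2 l3 r1 r2 r3).1
    unfold WT
    exact_mod_cast this
  · intro l1 l2 l3 r1 r2 r3 e' f
    refine lt_of_le_of_lt (Gval_le_GF ha hb T l1 l2 l3 r1 r2 r3 e' f) ?_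
    have hr := rays_sound hc0 hc1 ((hh l1 l2 l3 r1 r2 r3).2 f) he he0 he1 hcc0 hcc1 hq0 hq1
    rw [GF_lin] at hr ⊢
    set G1 := GF 1 0 0 0 l1 l2 l3 r1 r2 r3 f (gw T l1 l2 l3 r1 r2 r3) (gw T l1 l2 l3 (!r1) r2 r3)
        (gw T l1 l2 l3 r1 (!r2) r3) (gw T l1 l2 l3 r1 r2 (!r3)) (gw T l1 (!l2) l3 r1 r2 r3)
        (gw T l1 l2 (!l3) r1 r2 r3) (gw T (!l1) l2 l3 r1 r2 r3) (mxN T l1 l2 l3 r1 r2 r3)
    set G2 := GF 0 1 0 0 l1 l2 l3 r1 r2 r3 f (gw T l1 l2 l3 r1 r2 r3) (gw T l1 l2 l3 (!r1) r2 r3)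
        (gw T l1 l2 l3 r1 (!r2) r3) (gw T l1 l2 l3 r1 r2 (!r3)) (gw T l1 (!l2) l3 r1 r2 r3)
        (gw T l1 l2 (!l3) r1 r2 r3) (gw T (!l1) l2 l3 r1 r2 r3) (mxN T l1 l2 l3 r1 r2 r3)
    set G3 := GF 0 0 1 0 l1 l2 l3 r1 r2 r3 f (gw T l1 l2 l3 r1 r2 r3) (gw T l1 l2 l3 (!r1) r2 r3)
        (gw T l1 l2 l3 r1 (!r2) r3) (gw T l1 l2 l3 r1 r2 (!r3)) (gw T l1 (!l2) l3 r1 r2 r3)
        (gw T l1 l2 (!l3) r1 r2 r3) (gw T (!l1) l2 l3 r1 r2 r3) (mxN T l1 l2 l3 r1 r2 r3)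
    set G4 := GF 0 0 0 1 l1 l2 l3 r1 r2 r3 f (gw T l1 l2 l3 r1 r2 r3) (gw T l1 l2 l3 (!r1) r2 r3)
        (gw T l1 l2 l3 r1 (!r2) r3) (gw T l1 l2 l3 r1 r2 (!r3)) (gw T l1 (!l2) l3 r1 r2 r3)
        (gw T l1 l2 (!l3) r1 r2 r3) (gw T (!l1) l2 l3 r1 r2 r3) (mxN T l1 l2 l3 r1 r2 r3)
    have hm := mul_neg_of_neg_of_pos hr hb1
    have e1' : (q * (e * c) * G1 + 768 * (e * c) * G2 + 768 * (e * (1280 - c)) * G3
        + 2013265920 * G4) * b1 = 2013265920 * (a0 * G1 + a1 * G2 + b0 * G3 + b1 * G4) := by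
      linear_combination G1 * k0 + G2 * k1 + G3 * k2
    rw [e1'] at hm
    linarith

end H72IPS
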