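import Pool.Agent.H72.IPS.CylA

/-! # CYLB: density of cylinder functions -/

namespace H72IPS

open Finset

/-- the subalgebra of cylinder functions -/
private def cylb_alg : Subalgebra ℝ C(Cfg, ℝ) where
  carrier := {g | IsCyl (g : Cfg → ℝ)}
  mul_mem' := by
    classical
    rintro a b ⟨S, hS⟩ ⟨T, hT⟩
    refine ⟨S ∪ T, fun x y h => ?_⟩
    rw [ContinuousMap.mul_apply, ContinuousMap.mul_apply,
      hS x y (fun i hi => h i (Finset.mem_union_left _ hi)),
      hT x y (fun i hi => h i (Finset.mem_union_right _ hi))]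
  add_mem' := by
    classical
    rintro a b ⟨S, hS⟩ ⟨T, hT⟩
    refine ⟨S ∪ T, fun x y h => ?_⟩
    rw [ContinuousMap.add_apply, ContinuousMap.add_apply,
      hS x y (fun i hi => h i (Finset.mem_union_left _ hi)),
      hT x y (fun i hi => h i (Finset.mem_union_right _ hi))]
  algebraMap_mem' := by
    intro c
    exact ⟨∅, fun x y _ => rfl⟩

/-- cylinder functions are dense (compactness, or Stone-Weierstrass) -/
theorem cyl_dense (f : CC) {ε : ℝ} (hε : 0 < ε) : ∃ g : CC, IsCyl g ∧ ‖f - g‖ ≤ ε := by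
  have hsep : cylb_alg.SeparatesPoints := by
    intro x y hxy
    obtain ⟨i, hi⟩ := Function.ne_iff.mp hxy
    have hcont : Continuous (fun z : Cfg => if z i then (1 : ℝ) else 0) :=
      (continuous_of_discreteTopology (f := fun b : Bool => if b then (1 : ℝ) else 0)).comp
        (continuous_apply i)
    refine ⟨fun z => if z i then (1 : ℝ) else 0, ⟨⟨_, hcont⟩, ⟨{i}, fun a b h => ?_⟩, rfl⟩, ?_⟩
    · show (if a i then (1 : ℝ) else 0) = if b i then (1 : ℝ) else 0
      rw [h i (Finset.mem_singleton_self i)]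
    · show (if x i then (1 : ℝ) else 0) ≠ if y i then (1 : ℝ) else 0
      cases hx : x i <;> cases hy : y i <;> simp_all
  obtain ⟨g, hg⟩ := ContinuousMap.exists_mem_subalgebra_near_continuousMap_of_separatesPoints
    cylb_alg hsep (⟨f, f.continuous⟩ : C(Cfg, ℝ)) ε hε
  refine ⟨CC.mk (g : C(Cfg, ℝ)) (g : C(Cfg, ℝ)).continuous, g.2, CC.norm_le hε.le fun x => ?_⟩
  have h1 := ContinuousMap.norm_coe_le_norm ((g : C(Cfg, ℝ)) - ⟨f, f.continuous⟩) x
  rw [ContinuousMap.sub_apply, Real.norm_eq_abs, abs_sub_comm] at h1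
  exact h1.trans hg.le

end H72IPS
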