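import Mathlib

/-!
# Simple one-sided interacting particle systems on the integers: definitions

`p s y` is the probability that a site in state `s` whose right neighbour is in state `y` becomes `1`
when its rate one clock rings.
-/

namespace H72IPS

open MeasureTheory Filter Topology

/-- Configurations: a state `0 = false` or `1 = true` at every integer site (product topology). -/
abbrev Cfg := ℤ → Bool

/-- A cylinder function: a function of finitely many sites. -/
def IsCyl (f : Cfg → ℝ) : Prop :=
  ∃ S : Finset ℤ, ∀ x y : Cfg, (∀ i ∈ S, x i = y i) → f x = f y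

/-- The generator: every site `j` is resampled at rate one, it becomes `1` with probability
`p (x j) (x (j+1))` and `0` otherwise.  (For a cylinder function only finitely many terms are
nonzero.) -/
noncomputable def gen (p : Bool → Bool → ℝ) (f : Cfg → ℝ) (x : Cfg) : ℝ :=
  ∑ᶠ j : ℤ, (p (x j) (x (j + 1)) * f (Function.update x j true)
    + (1 - p (x j) (x (j + 1))) * f (Function.update x j false) - f x)

/-- `μ t`, `t ≥ 0`, are the laws at time `t` of the system started from the configuration `ζ`:
they solve the Kolmogorov forward equation against all cylinder functions. -/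
structure IsEvolution (p : Bool → Bool → ℝ) (ζ : Cfg) (μ : ℝ → ProbabilityMeasure Cfg) : Prop where
  init : (μ 0 : Measure Cfg) = Measure.dirac ζ
  forward : ∀ f : Cfg → ℝ, IsCyl f → ∀ t : ℝ, 0 ≤ t →
    HasDerivWithinAt (fun s => ∫ x, f x ∂(μ s : Measure Cfg))
      (∫ x, gen p f x ∂(μ t : Measure Cfg)) (Set.Ici 0) t

/-- For every initial configuration the laws exist and are unique. -/
def WellPosed (p : Bool → Bool → ℝ) : Prop :=
  ∀ ζ : Cfg, ∃ μ : ℝ → ProbabilityMeasure Cfg, IsEvolution p ζ μ ∧
    ∀ ν : ℝ → ProbabilityMeasure Cfg, IsEvolution p ζ ν → ∀ t : ℝ, 0 ≤ t → ν t = μ t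

/-- The system is ergodic: there is an attractive distribution, to which the law at time `t`
converges weakly from every initial configuration. -/
def Ergodic (p : Bool → Bool → ℝ) : Prop :=
  ∃ π : ProbabilityMeasure Cfg, ∀ (ζ : Cfg) (μ : ℝ → ProbabilityMeasure Cfg),
    IsEvolution p ζ μ → Tendsto μ atTop (𝓝 π)

/-- `p` consists of probabilities. -/
def IsProb (p : Bool → Bool → ℝ) : Prop := ∀ s y, p s y ∈ Set.Icc (0 : ℝ) 1

/-! ## Internal notions -/

/-- flip the state of site `j` -/
def flip (x : Cfg) (j : ℤ) : Cfg := Function.update x j (!(x j))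

/-- flip rate of a site in state `s` with right neighbour in state `y` -/
def cr (p : Bool → Bool → ℝ) (s y : Bool) : ℝ := if s then 1 - p true y else p false y

/-- flip rate of site `j` -/
def rate (p : Bool → Bool → ℝ) (x : Cfg) (j : ℤ) : ℝ := cr p (x j) (x (j + 1))

/-- discrete derivative at site `k` -/
def dd (g : Cfg → ℝ) (k : ℤ) (x : Cfg) : ℝ :=
  g (Function.update x k true) - g (Function.update x k false)

/-- one step of the uniformised chain on the window `[-N, N)` -/
noncomputable def Qf (p : Bool → Bool → ℝ) (N : ℕ) (g : Cfg → ℝ) (x : Cfg) : ℝ :=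
  g x + (4 * (N : ℝ))⁻¹ * ∑ j ∈ Finset.Ico (-(N : ℤ)) N, rate p x j * (g (flip x j) - g x)

/-- the Banach space of (bounded) continuous functions (a wrapper of `Cfg →ᵇ ℝ` with clean instances) -/
def CC : Type := BoundedContinuousFunction Cfg ℝ

noncomputable instance : NormedAddCommGroup CC :=
  inferInstanceAs (NormedAddCommGroup (BoundedContinuousFunction Cfg ℝ))
noncomputable instance : NormedSpace ℝ CC :=
  inferInstanceAs (NormedSpace ℝ (BoundedContinuousFunction Cfg ℝ))
instance : CompleteSpace CC :=
  inferInstanceAs (CompleteSpace (BoundedContinuousFunction Cfg ℝ))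
instance : FunLike CC Cfg ℝ :=
  inferInstanceAs (FunLike (BoundedContinuousFunction Cfg ℝ) Cfg ℝ)

namespace CC

/-- the continuous function as an element of `CC` -/
noncomputable def mk (f : Cfg → ℝ) (hf : Continuous f) : CC :=
  BoundedContinuousFunction.mkOfCompact ⟨f, hf⟩

@[simp] theorem mk_apply (f : Cfg → ℝ) (hf : Continuous f) (x : Cfg) : mk f hf x = f x := rfl

theorem continuous (f : CC) : Continuous (f : Cfg → ℝ) :=
  BoundedContinuousFunction.continuous (f : BoundedContinuousFunction Cfg ℝ)

@[ext] theorem ext {f g : CC} (h : ∀ x, f x = g x) : f = g := DFunLike.ext _ _ h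

@[simp] theorem add_apply (f g : CC) (x : Cfg) : (f + g) x = f x + g x := rfl
@[simp] theorem sub_apply (f g : CC) (x : Cfg) : (f - g) x = f x - g x := rfl
@[simp] theorem neg_apply (f : CC) (x : Cfg) : (-f) x = -(f x) := rfl
@[simp] theorem smul_apply (c : ℝ) (f : CC) (x : Cfg) : (c • f) x = c * f x := rfl
@[simp] theorem zero_apply (x : Cfg) : (0 : CC) x = 0 := rfl

theorem abs_le_norm (f : CC) (x : Cfg) : |f x| ≤ ‖f‖ :=
  BoundedContinuousFunction.norm_coe_le_norm (f : BoundedContinuousFunction Cfg ℝ) x

theorem norm_le {f : CC} {C : ℝ} (hC : 0 ≤ C) (h : ∀ x, |f x| ≤ C) : ‖f‖ ≤ C :=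
  (BoundedContinuousFunction.norm_le (f := (f : BoundedContinuousFunction Cfg ℝ)) hC).2 h

/-- evaluation at a configuration, as a continuous linear functional -/
noncomputable def ev (x : Cfg) : CC →L[ℝ] ℝ :=
  LinearMap.mkContinuous { toFun := fun f => f x, map_add' := fun _ _ => rfl, map_smul' := fun _ _ => rfl } 1
    (fun f => by rw [one_mul]; exact abs_le_norm f x)

@[simp] theorem ev_apply (x : Cfg) (f : CC) : ev x f = f x := rfl

@[simp] theorem sum_apply {ι : Type*} (s : Finset ι) (f : ι → CC) (x : Cfg) :
    (∑ i ∈ s, f i) x = ∑ i ∈ s, f i x := by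
  exact map_sum (ev x) f s

end CC

theorem continuous_flip (j : ℤ) : Continuous (fun x : Cfg => flip x j) := by
  unfold flip
  refine continuous_id.update j ?_
  exact (continuous_of_discreteTopology (f := fun b : Bool => !b)).comp (continuous_apply j)

theorem continuous_rate (p : Bool → Bool → ℝ) (j : ℤ) : Continuous (fun x : Cfg => rate p x j) := by
  have h : Continuous (fun x : Cfg => (x j, x (j + 1))) := by fun_prop
  exact (continuous_of_discreteTopology (f := fun b : Bool × Bool => cr p b.1 b.2)).comp h

/-- the rate of site `j` as a bounded continuous function -/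
noncomputable def rateC (p : Bool → Bool → ℝ) (j : ℤ) : CC :=
  CC.mk (fun x => rate p x j) (continuous_rate p j)

/-- the generator of site `j` as a bounded operator -/
noncomputable def Lj (p : Bool → Bool → ℝ) (j : ℤ) : CC →L[ℝ] CC :=
  LinearMap.mkContinuous
    { toFun := fun f => CC.mk (fun x => rate p x j * (f (flip x j) - f x))
        ((continuous_rate p j).mul ((f.continuous.comp (continuous_flip j)).sub f.continuous))
      map_add' := by
        intro f g; ext x; simp; ring
      map_smul' := by
        intro c f; ext x; simp; ring }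
    (‖rateC p j‖ * 2) (by
      intro f
      refine CC.norm_le (by positivity) (fun x => ?_)
      simp only [LinearMap.coe_mk, AddHom.coe_mk, CC.mk_apply, abs_mul]
      have h1 := CC.abs_le_norm f (flip x j)
      have h2 := CC.abs_le_norm f x
      have h3 := CC.abs_le_norm (rateC p j) x
      simp only [rateC, CC.mk_apply] at h3
      calc |rate p x j| * |f (flip x j) - f x| ≤ ‖rateC p j‖ * (‖f‖ + ‖f‖) := by
            gcongr
            · exact h3
            · exact (abs_sub _ _).trans (by gcongr)
        _ = ‖rateC p j‖ * 2 * ‖f‖ := by ring)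

theorem Lj_apply (p : Bool → Bool → ℝ) (j : ℤ) (f : CC) (x : Cfg) :
    Lj p j f x = rate p x j * (f (flip x j) - f x) := rfl

/-- the finite volume generator on the window `[-N, N)` -/
noncomputable def AN (p : Bool → Bool → ℝ) (N : ℕ) : CC →L[ℝ] CC :=
  ∑ j ∈ Finset.Ico (-(N : ℤ)) N, Lj p j

theorem AN_apply (p : Bool → Bool → ℝ) (N : ℕ) (f : CC) (x : Cfg) :
    AN p N f x = ∑ j ∈ Finset.Ico (-(N : ℤ)) N, rate p x j * (f (flip x j) - f x) := by
  unfold AN
  rw [_root_.sum_apply, CC.sum_apply]
  rfl

/-- the finite volume semigroup -/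
noncomputable def SN (p : Bool → Bool → ℝ) (N : ℕ) (t : ℝ) : CC →L[ℝ] CC :=
  NormedSpace.exp (t • AN p N)

end H72IPS
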