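import Pool.Agent.H72.IPS.Phi

/-! # PHIS: the products `Phi A` span the functions of finitely many sites

Induction on `M`: `f x = 1[x_M = 0] f (update x M false) + 1[x_M = 1] f (update x M true)`,
`1[x_M = 0] = (q + phi)/(1 + q)`, `1[x_M = 1] = (1 - phi)/(1 + q)`. -/

namespace H72IPS

open Finset

theorem phis_aux {q : ℝ} (hq : 0 < q) {m : ℤ} (k : ℕ) : ∀ f : Cfg → ℝ,
    (∀ x y : Cfg, (∀ i, m ≤ i → i < m + k → x i = y i) → f x = f y) →
    ∃ c : Finset ℤ → ℝ, ∀ x, f x = ∑ A ∈ (Ico m (m + k)).powerset, c A * Phi q A x := by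
  classical
  induction k with
  | zero =>
    intro f hf
    refine ⟨fun _ => f (fun _ => false), fun x => ?_⟩
    have h0 : Ico m (m + ((0 : ℕ) : ℤ)) = ∅ := by simp
    rw [h0, Finset.powerset_empty, Finset.sum_singleton]
    have h1 : Phi q ∅ x = 1 := by simp [Phi]
    rw [h1, mul_one]
    refine hf _ _ fun i h2 h3 => ?_
    exfalso
    push_cast at h3
    omega
  | succ k ih =>
    intro f hf
    obtain ⟨c0, hc0⟩ := ih (fun x => f (Function.update x (m + k) false)) (by
      intro x y hxy
      refine hf _ _ fun i h1 h2 => ?_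
      by_cases hi : i = m + k
      · subst hi; rw [Function.update_self, Function.update_self]
      · rw [Function.update_of_ne hi, Function.update_of_ne hi]
        push_cast at h2
        exact hxy i h1 (by omega))
    obtain ⟨c1, hc1⟩ := ih (fun x => f (Function.update x (m + k) true)) (by
      intro x y hxy
      refine hf _ _ fun i h1 h2 => ?_
      by_cases hi : i = m + k
      · subst hi; rw [Function.update_self, Function.update_self]
      · rw [Function.update_of_ne hi, Function.update_of_ne hi]
        push_cast at h2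
        exact hxy i h1 (by omega))
    have hI : Ico m (m + ((k + 1 : ℕ) : ℤ)) = insert (m + k) (Ico m (m + k)) := by
      ext i
      rw [Finset.mem_insert, Finset.mem_Ico, Finset.mem_Ico]
      push_cast
      omega
    have hnot : (m + (k : ℤ)) ∉ Ico m (m + (k : ℤ)) := by
      rw [Finset.mem_Ico]; omega
    refine ⟨fun B => if (m + (k : ℤ)) ∈ B then (c0 (B.erase (m + k)) - c1 (B.erase (m + k))) / (1 + q)
      else (q * c0 B + c1 B) / (1 + q), fun x => ?_⟩
    rw [hI, Finset.sum_powerset_insert hnot]
    have hB : ∀ B ∈ (Ico m (m + (k : ℤ))).powerset, (m + (k : ℤ)) ∉ B := fun B hB h =>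
      hnot (Finset.mem_powerset.mp hB h)
    have h1 : ∑ B ∈ (Ico m (m + (k : ℤ))).powerset, (if (m + (k : ℤ)) ∈ B then
        (c0 (B.erase (m + k)) - c1 (B.erase (m + k))) / (1 + q)
        else (q * c0 B + c1 B) / (1 + q)) * Phi q B x =
        (q * f (Function.update x (m + k) false) + f (Function.update x (m + k) true)) / (1 + q) := by
      rw [hc0 x, hc1 x, Finset.mul_sum, ← Finset.sum_add_distrib, Finset.sum_div]
      refine Finset.sum_congr rfl fun B hB' => ?_
      rw [if_neg (hB B hB')]
      ring
    have h2 : ∑ B ∈ (Ico m (m + (k : ℤ))).powerset, (if (m + (k : ℤ)) ∈ insert (m + (k : ℤ)) B then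
        (c0 ((insert (m + (k : ℤ)) B).erase (m + k)) - c1 ((insert (m + (k : ℤ)) B).erase (m + k)))
          / (1 + q)
        else (q * c0 (insert (m + (k : ℤ)) B) + c1 (insert (m + (k : ℤ)) B)) / (1 + q)) *
          Phi q (insert (m + (k : ℤ)) B) x =
        (f (Function.update x (m + k) false) - f (Function.update x (m + k) true)) / (1 + q) *
          phi q x (m + k) := by
      rw [hc0 x, hc1 x, ← Finset.sum_sub_distrib, Finset.sum_div, Finset.sum_mul]
      refine Finset.sum_congr rfl fun B hB' => ?_
      rw [if_pos (Finset.mem_insert_self _ _), Finset.erase_insert (hB B hB')]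
      unfold Phi
      rw [Finset.prod_insert (hB B hB')]
      ring
    rw [h1, h2]
    have hq1 : (1 + q) ≠ 0 := by linarith
    unfold phi
    cases hx : x (m + k)
    · have h3 : Function.update x (m + k) false = x := by
        rw [← hx, Function.update_eq_self]
      rw [h3]
      simp only [Bool.false_eq_true, if_false]
      field_simp
      ring
    · have h3 : Function.update x (m + k) true = x := by
        rw [← hx, Function.update_eq_self]
      rw [h3]
      simp only [if_true]
      field_simp
      ring

/-- every function of the sites of `[m, M)` is a combination of the `Phi A`, `A ⊆ [m, M)` -/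
theorem Phi_span {q : ℝ} (hq : 0 < q) {m M : ℤ} {f : Cfg → ℝ}
    (hf : ∀ x y : Cfg, (∀ i, m ≤ i → i < M → x i = y i) → f x = f y) :
    ∃ c : Finset ℤ → ℝ, ∀ x, f x = ∑ A ∈ (Ico m M).powerset, c A * Phi q A x := by
  have h1 : Ico m (m + ((M - m).toNat : ℤ)) = Ico m M := by
    ext i
    rw [Finset.mem_Ico, Finset.mem_Ico]
    omega
  obtain ⟨c, hc⟩ := phis_aux hq (m := m) (M - m).toNat f (by
    intro x y hxy
    exact hf x y fun i h2 h3 => hxy i h2 (by omega))
  rw [h1] at hc
  exact ⟨c, hc⟩

end H72IPS
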