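import Pool.Agent.H72.IPS.PhiQ

/-! # REP2: weighted coefficient representations -/

namespace H72IPS

open Finset

/-- the weight `θ^(-max A)` of a nonempty set -/
noncomputable def wt (θ : ℝ) (A : Finset ℤ) (hA : A.Nonempty) : ℝ := θ ^ (-(A.max' hA))

/-- `Rep2 q θ m n g c α β`: `g = c + sum_A c_A Phi A + sum_A Phi A * h_A`, with
`sum_A |c_A| θ^(-max A) ≤ α` over nonempty `A ⊆ [m, n)`, and `h_A` functions of the sites `≥ n` with
total supremum at most `β` -/
inductive Rep2 (q θ : ℝ) (m n : ℤ) : (Cfg → ℝ) → ℝ → ℝ → ℝ → Prop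
  | const (c : ℝ) : Rep2 q θ m n (fun _ => c) c 0 0
  | atom (A : Finset ℤ) (hA : A.Nonempty) (hsub : A ⊆ Ico m n) (c : ℝ) :
      Rep2 q θ m n (fun x => c * Phi q A x) 0 (|c| * wt θ A hA) 0
  | touched (A : Finset ℤ) (hsub : A ⊆ Ico m n) (h : Cfg → ℝ)
      (hdep : ∀ x y : Cfg, (∀ i, n ≤ i → x i = y i) → h x = h y) (K : ℝ) (hK : ∀ x, |h x| ≤ K) :
      Rep2 q θ m n (fun x => Phi q A x * h x) 0 0 K
  | add {g g' : Cfg → ℝ} {c c' α α' β β' : ℝ} : Rep2 q θ m n g c α β → Rep2 q θ m n g' c' α' β' →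
      Rep2 q θ m n (fun x => g x + g' x) (c + c') (α + α') (β + β')
  | mono {g : Cfg → ℝ} {c α α' β β' : ℝ} : Rep2 q θ m n g c α β → α ≤ α' → β ≤ β' →
      Rep2 q θ m n g c α' β'

/-- on a configuration which vanishes on `[m, n)` one has `Phi A = 1` for `A ⊆ [m, n)` -/
theorem Rep2.eval {q θ : ℝ} (hθ : 0 < θ) (hθ1 : θ < 1) {m n : ℤ} {g : Cfg → ℝ}
    {c α β : ℝ} (h : Rep2 q θ m n g c α β) (z : Cfg) (hz : ∀ i, m ≤ i → i < n → z i = false) :
    |g z - c| ≤ θ ^ m * α + β := by
  have hPhi : ∀ A : Finset ℤ, A ⊆ Ico m n → Phi q A z = 1 := by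
    intro A hA
    unfold Phi
    refine Finset.prod_eq_one (fun j hj => ?_)
    have := Finset.mem_Ico.1 (hA hj)
    simp [phi, hz j this.1 this.2]
  induction h with
  | const c => simp
  | atom A hA hsub c =>
    simp only [hPhi A hsub]
    have hmax := Finset.mem_Ico.1 (hsub (A.max'_mem hA))
    have h1 : (1 : ℝ) ≤ θ ^ m * wt θ A hA := by
      unfold wt
      rw [← zpow_add₀ hθ.ne']
      have h2 : m + -(A.max' hA) ≤ 0 := by linarith [hmax.1]
      have h3 := zpow_le_zpow_right_of_le_one₀ hθ hθ1.le h2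
      simpa using h3
    have h0 : 0 ≤ |c| := abs_nonneg c
    simp only [mul_one, sub_zero, add_zero]
    nlinarith [mul_le_mul_of_nonneg_left h1 h0]
  | touched A hsub h hdep K hK =>
    simp only [hPhi A hsub]
    simpa using hK z
  | @add g g' c c' α α' β β' _ _ ih1 ih2 =>
    have h1 : g z + g' z - (c + c') = (g z - c) + (g' z - c') := by ring
    rw [h1]
    refine (abs_add_le _ _).trans ?_
    linarith
  | @mono g c α α' β β' _ ha hb ih =>
    have : θ ^ m * α ≤ θ ^ m * α' := mul_le_mul_of_nonneg_left ha (zpow_pos hθ m).le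
    linarith

/-- representation with some constant -/
private def rep2_R (q θ : ℝ) (m n : ℤ) (g : Cfg → ℝ) (α β : ℝ) : Prop :=
  ∃ c, Rep2 q θ m n g c α β

private theorem rep2_add {q θ : ℝ} {m n : ℤ} {g g' : Cfg → ℝ} {α α' β β' : ℝ}
    (h : rep2_R q θ m n g α β) (h' : rep2_R q θ m n g' α' β') :
    rep2_R q θ m n (fun x => g x + g' x) (α + α') (β + β') := by
  obtain ⟨c, hc⟩ := h
  obtain ⟨c', hc'⟩ := h'
  exact ⟨c + c', hc.add hc'⟩

private theorem rep2_mono {q θ : ℝ} {m n : ℤ} {g : Cfg → ℝ} {α α' β β' : ℝ}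
    (h : rep2_R q θ m n g α β) (ha : α ≤ α') (hb : β ≤ β') :
    rep2_R q θ m n g α' β' := by
  obtain ⟨c, hc⟩ := h
  exact ⟨c, hc.mono ha hb⟩

private theorem rep2_congr {q θ : ℝ} {m n : ℤ} {g g' : Cfg → ℝ} {α β : ℝ}
    (h : rep2_R q θ m n g α β) (hg : ∀ x, g x = g' x) : rep2_R q θ m n g' α β := by
  have : g = g' := funext hg
  rwa [← this]

private theorem rep2_zero {q θ : ℝ} {m n : ℤ} : rep2_R q θ m n (fun _ => 0) 0 0 :=
  ⟨0, Rep2.const 0⟩

private theorem rep2_sum {q θ : ℝ} {m n : ℤ} (s : Finset ℤ) (g : ℤ → Cfg → ℝ) (a b : ℤ → ℝ)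
    (h : ∀ j ∈ s, rep2_R q θ m n (g j) (a j) (b j)) :
    rep2_R q θ m n (fun x => ∑ j ∈ s, g j x) (∑ j ∈ s, a j) (∑ j ∈ s, b j) := by
  classical
  induction s using Finset.induction_on with
  | empty => simpa using rep2_zero
  | insert j s hj ih =>
    have h1 := h j (Finset.mem_insert_self j s)
    have h2 := ih (fun i hi => h i (Finset.mem_insert_of_mem hi))
    refine rep2_congr (rep2_mono (rep2_add h1 h2) ?_ ?_) (fun x => ?_)
    · rw [Finset.sum_insert hj]
    · rw [Finset.sum_insert hj]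
    · rw [Finset.sum_insert hj]

/-- a multiple of `Phi A`, `A` possibly empty -/
private theorem rep2_atom {q θ : ℝ} {m n : ℤ} (A : Finset ℤ) (hsub : A ⊆ Ico m n) (c w : ℝ)
    (hw : 0 ≤ w) (hwt : ∀ hA : A.Nonempty, wt θ A hA ≤ w) :
    rep2_R q θ m n (fun x => c * Phi q A x) (|c| * w) 0 := by
  rcases A.eq_empty_or_nonempty with hA | hA
  · subst hA
    refine ⟨c, ?_⟩
    have h1 : (fun x => c * Phi q ∅ x) = fun _ : Cfg => c := by
      funext x; simp [Phi]
    rw [h1]
    exact (Rep2.const c).mono (by positivity) le_rfl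
  · exact ⟨0, (Rep2.atom A hA hsub c).mono (mul_le_mul_of_nonneg_left (hwt hA) (abs_nonneg c)) le_rfl⟩

private theorem rep2_touched {q θ : ℝ} {m n : ℤ} (A : Finset ℤ) (hsub : A ⊆ Ico m n) (h : Cfg → ℝ)
    (hdep : ∀ x y : Cfg, (∀ i, n ≤ i → x i = y i) → h x = h y) (K : ℝ) (hK : ∀ x, |h x| ≤ K) :
    rep2_R q θ m n (fun x => Phi q A x * h x) 0 K :=
  ⟨0, Rep2.touched A hsub h hdep K hK⟩

private theorem rep2_wt_le {θ : ℝ} (hθ : 0 < θ) (hθ1 : θ < 1) {A B : Finset ℤ} (hA : A.Nonempty)
    (hB : B.Nonempty) (h : ∀ i ∈ B, i ≤ A.max' hA) : wt θ B hB ≤ wt θ A hA := by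
  unfold wt
  refine zpow_le_zpow_right_of_le_one₀ hθ hθ1.le ?_
  have := h _ (B.max'_mem hB)
  linarith

private theorem rep2_wt_le' {θ : ℝ} (hθ : 0 < θ) (hθ1 : θ < 1) {A B : Finset ℤ} (hA : A.Nonempty)
    (hB : B.Nonempty) (h : ∀ i ∈ B, i ≤ A.max' hA + 1) : wt θ B hB ≤ θ⁻¹ * wt θ A hA := by
  unfold wt
  have h1 : θ⁻¹ * θ ^ (-(A.max' hA)) = θ ^ (-(A.max' hA) - 1) := by
    rw [zpow_sub₀ hθ.ne', zpow_one]; field_simp
  rw [h1]
  refine zpow_le_zpow_right_of_le_one₀ hθ hθ1.le ?_
  have := h _ (B.max'_mem hB)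
  linarith

private theorem rep2_wt_pos {θ : ℝ} (hθ : 0 < θ) {A : Finset ℤ} (hA : A.Nonempty) :
    0 < wt θ A hA := zpow_pos hθ _

/-- the diagonal coefficient -/
private noncomputable def rep2_d (p : Bool → Bool → ℝ) (n : ℤ) (A : Finset ℤ) (j : ℤ) : ℝ :=
  if j = n - 1 then r0 p else if j + 1 ∈ A then r0 p + DD p * (1 - rho p) else r0 p + DD p * rho p

private theorem rep2_d_bounds {p : Bool → Bool → ℝ} (hp : DualHyp p) (n : ℤ) (A : Finset ℤ)
    (j : ℤ) : 0 ≤ rep2_d p n A j ∧ rep2_d p n A j ≤ 2 := by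
  obtain ⟨h1, h2, h3, h4, h5, h6, h7, h8, h9⟩ := hp.consts
  unfold rep2_d
  split_ifs
  · exact ⟨h5.le, h6⟩
  · constructor
    · have := mul_nonneg h4 (by linarith : 0 ≤ 1 - rho p); linarith
    · have := mul_nonneg h4 h2.le; linarith
  · constructor
    · have := mul_nonneg h4 h2.le; linarith
    · have := mul_nonneg h4 (by linarith : 0 ≤ 1 - rho p); linarith

/-- one flip of an atom, `j < n - 1` -/
private theorem rep2_flip_lt {p : Bool → Bool → ℝ} (hp : DualHyp p) {θ : ℝ} (hθ : 0 < θ)
    (hθ1 : θ < 1) (hθk : (DD p + |uu p|) * (θ⁻¹ - 1) ≤ kap p / 2) {m n : ℤ} {A : Finset ℤ}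
    (hA : A.Nonempty) (hsub : A ⊆ Ico m n) {j : ℤ} (hj : j ∈ A) (hjn : j ≠ n - 1) (e : ℝ) :
    rep2_R (qq p) θ m n
      (fun x => e * (rate p x j * (Phi (qq p) A (flip x j) - Phi (qq p) A x)
        + rep2_d p n A j * Phi (qq p) A x))
      (|e| * wt θ A hA * (rep2_d p n A j - kap p + if j = A.max' hA then kap p / 2 else 0)) 0 := by
  obtain ⟨h1, h2, h3, h4, h5, h6, h7, h8, h9⟩ := hp.consts
  have hw := rep2_wt_pos hθ hA
  have hjI := Finset.mem_Ico.1 (hsub hj)
  have hjn' : j + 1 < n := by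
    rcases lt_or_ge (j + 1) n with h | h
    · exact h
    · exfalso; apply hjn; omega
  have hθinv : 1 ≤ θ⁻¹ := (one_le_inv₀ hθ).2 hθ1.le
  have hu0 : 0 ≤ |uu p| := abs_nonneg _
  have he0 : 0 ≤ |e| := abs_nonneg e
  have hkap : kap p = r0 p - |uu p| := rfl
  have hkp := hp.kap_pos
  by_cases hj' : j + 1 ∈ A
  · -- all sets are subsets of `A`
    have hd : rep2_d p n A j = r0 p + DD p * (1 - rho p) := by
      unfold rep2_d; rw [if_neg hjn, if_pos hj']
    have hne : j ≠ A.max' hA := by
      intro h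
      have := A.le_max' _ hj'
      omega
    rw [if_neg hne, hd]
    have hB1 : A.erase (j + 1) ⊆ A := Finset.erase_subset _ _
    have hB2 : (A.erase j).erase (j + 1) ⊆ A :=
      (Finset.erase_subset _ _).trans (Finset.erase_subset _ _)
    have hB3 : A.erase j ⊆ A := Finset.erase_subset _ _
    have key : ∀ B : Finset ℤ, B ⊆ A → ∀ c : ℝ,
        rep2_R (qq p) θ m n (fun x => c * Phi (qq p) B x) (|c| * wt θ A hA) 0 := by
      intro B hB c
      exact rep2_atom B (hB.trans hsub) c _ hw.le
        (fun hBn => rep2_wt_le hθ hθ1 hA hBn (fun i hi => A.le_max' _ (hB hi)))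
    have k1 := key _ hB1 (e * (DD p * (1 - rho p)))
    have k2 := key _ hB2 (e * (uu p * (1 - rho p)))
    have k3 := key _ hB3 (e * (uu p * rho p))
    refine rep2_congr (rep2_mono (rep2_add (rep2_add k1 k2) k3) ?_ (by simp)) (fun x => ?_)
    · simp only [abs_mul, abs_of_nonneg h4, abs_of_pos h2, abs_of_nonneg (by linarith : 0 ≤ 1 - rho p)]
      rw [hkap]
      apply le_of_eq
      ring
    · rw [flip_Phi_mem hp hj hj' x]
      ring
  · have hd : rep2_d p n A j = r0 p + DD p * rho p := by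
      unfold rep2_d; rw [if_neg hjn, if_neg hj']
    rw [hd]
    have hins : insert (j + 1) A ⊆ Ico m n := by
      intro i hi
      rcases Finset.mem_insert.1 hi with h | h
      · subst h; exact Finset.mem_Ico.2 ⟨by linarith [hjI.1], hjn'⟩
      · exact hsub h
    have hins' : insert (j + 1) (A.erase j) ⊆ Ico m n :=
      (Finset.insert_subset_insert _ (Finset.erase_subset _ _)).trans hins
    by_cases hmax : j = A.max' hA
    · rw [if_pos hmax]
      have hw' : 0 ≤ θ⁻¹ * wt θ A hA := by positivity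
      have b1 : ∀ i ∈ insert (j + 1) A, i ≤ A.max' hA + 1 := by
        intro i hi
        rcases Finset.mem_insert.1 hi with h | h
        · omega
        · have := A.le_max' _ h; omega
      have k1 := rep2_atom (q := qq p) (θ := θ) (insert (j + 1) A) hins (e * (DD p * rho p)) _ hw'
        (fun hBn => rep2_wt_le' hθ hθ1 hA hBn b1)
      have k2 := rep2_atom (q := qq p) (θ := θ) (A.erase j) ((Finset.erase_subset _ _).trans hsub)
        (e * (uu p * (1 - rho p))) _ hw.le
        (fun hBn => rep2_wt_le hθ hθ1 hA hBn (fun i hi => A.le_max' _ (Finset.mem_of_mem_erase hi)))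
      have k3 := rep2_atom (q := qq p) (θ := θ) (insert (j + 1) (A.erase j)) hins'
        (e * (uu p * rho p)) _ hw'
        (fun hBn => rep2_wt_le' hθ hθ1 hA hBn (fun i hi => b1 i
          ((Finset.insert_subset_insert _ (Finset.erase_subset _ _)) hi)))
      refine rep2_congr (rep2_mono (rep2_add (rep2_add k1 k2) k3) ?_ (by simp)) (fun x => ?_)
      · simp only [abs_mul, abs_of_nonneg h4, abs_of_pos h2,
          abs_of_nonneg (by linarith : 0 ≤ 1 - rho p)]
        have hW : 0 ≤ |e| * wt θ A hA := by positivity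
        have e1 : |e| * (DD p * rho p) * (θ⁻¹ * wt θ A hA) + |e| * (|uu p| * (1 - rho p)) * wt θ A hA
            + |e| * (|uu p| * rho p) * (θ⁻¹ * wt θ A hA)
            = |e| * wt θ A hA * (DD p * rho p + |uu p| + (DD p + |uu p|) * rho p * (θ⁻¹ - 1)) := by
          ring
        rw [e1]
        refine mul_le_mul_of_nonneg_left ?_ hW
        have h10 : (DD p + |uu p|) * rho p * (θ⁻¹ - 1) ≤ (DD p + |uu p|) * (θ⁻¹ - 1) := by
          have h11 : 0 ≤ (DD p + |uu p|) * (θ⁻¹ - 1) := mul_nonneg (by linarith) (by linarith)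
          nlinarith
        linarith
      · rw [flip_Phi_notMem hp hj hj' x]
        ring
    · rw [if_neg hmax]
      have hlt : j + 1 ≤ A.max' hA := by
        have := A.le_max' _ hj
        omega
      have b1 : ∀ i ∈ insert (j + 1) A, i ≤ A.max' hA := by
        intro i hi
        rcases Finset.mem_insert.1 hi with h | h
        · omega
        · exact A.le_max' _ h
      have key : ∀ B : Finset ℤ, B ⊆ insert (j + 1) A → ∀ c : ℝ,
          rep2_R (qq p) θ m n (fun x => c * Phi (qq p) B x) (|c| * wt θ A hA) 0 := by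
        intro B hB c
        exact rep2_atom B (hB.trans hins) c _ hw.le
          (fun hBn => rep2_wt_le hθ hθ1 hA hBn (fun i hi => b1 i (hB hi)))
      have k1 := key _ (Finset.Subset.refl _) (e * (DD p * rho p))
      have k2 := key (A.erase j) ((Finset.erase_subset _ _).trans (Finset.subset_insert _ _))
        (e * (uu p * (1 - rho p)))
      have k3 := key (insert (j + 1) (A.erase j))
        (Finset.insert_subset_insert _ (Finset.erase_subset _ _)) (e * (uu p * rho p))
      refine rep2_congr (rep2_mono (rep2_add (rep2_add k1 k2) k3) ?_ (by simp)) (fun x => ?_)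
      · simp only [abs_mul, abs_of_nonneg h4, abs_of_pos h2,
          abs_of_nonneg (by linarith : 0 ≤ 1 - rho p)]
        rw [hkap]
        apply le_of_eq
        ring
      · rw [flip_Phi_notMem hp hj hj' x]
        ring

/-- one flip of an atom, `j = n - 1` -/
private theorem rep2_flip_eq {p : Bool → Bool → ℝ} (hp : DualHyp p) {θ : ℝ}
    {m n : ℤ} {A : Finset ℤ}
    (hsub : A ⊆ Ico m n) {j : ℤ} (hj : j ∈ A) (hjn : j = n - 1) (e : ℝ) :
    rep2_R (qq p) θ m n
      (fun x => e * (rate p x j * (Phi (qq p) A (flip x j) - Phi (qq p) A x)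
        + rep2_d p n A j * Phi (qq p) A x))
      0 (|e| * (DD p + |uu p|)) := by
  obtain ⟨h1, h2, h3, h4, h5, h6, h7, h8, h9⟩ := hp.consts
  have hd : rep2_d p n A j = r0 p := by
    unfold rep2_d; rw [if_pos hjn]
  have hjn' : j + 1 = n := by omega
  have k1 := rep2_touched (q := qq p) (θ := θ) A hsub
    (fun x => e * (if x n then -DD p else 0))
    (fun x y hxy => by rw [hxy n le_rfl]) (|e| * DD p) (fun x => by
      rw [abs_mul]
      refine mul_le_mul_of_nonneg_left ?_ (abs_nonneg e)
      split_ifs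
      · rw [abs_neg, abs_of_nonneg h4]
      · simpa using h4)
  have k2 := rep2_touched (q := qq p) (θ := θ) (A.erase j) ((Finset.erase_subset _ _).trans hsub)
    (fun x => e * (if x n then 0 else uu p))
    (fun x y hxy => by rw [hxy n le_rfl]) (|e| * |uu p|) (fun x => by
      rw [abs_mul]
      refine mul_le_mul_of_nonneg_left ?_ (abs_nonneg e)
      split_ifs
      · simp
      · exact le_rfl)
  refine rep2_congr (rep2_mono (rep2_add k1 k2) (by simp) (by apply le_of_eq; ring)) (fun x => ?_)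
  rw [flip_Phi hp hj x, hd, hjn']
  rcases hx : x n with _ | _
  · simp [r0]; ring
  · simp [r0, DD]; ring

/-- touched terms -/
private theorem rep2_step_touched {p : Bool → Bool → ℝ} (hp : DualHyp p) {θ : ℝ} 
    {N : ℕ} (hN : 1 ≤ N) {m n : ℤ}
    (hm : -(N : ℤ) ≤ m) (hmn : m ≤ n) (hn : n ≤ N) (A : Finset ℤ) (hsub : A ⊆ Ico m n) (h : Cfg → ℝ)
    (hdep : ∀ x y : Cfg, (∀ i, n ≤ i → x i = y i) → h x = h y) (K : ℝ) (hK : ∀ x, |h x| ≤ K) :
    rep2_R (qq p) θ m n (Qf p N (fun x => Phi (qq p) A x * h x)) 0 K := by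
  obtain ⟨h1, h2, h3, h4, h5, h6, h7, h8, h9⟩ := hp.consts
  have hN0 : (0 : ℝ) < N := by exact_mod_cast hN
  have ha : 0 < (4 * (N : ℝ))⁻¹ := by positivity
  set a := (4 * (N : ℝ))⁻¹ with ha_def
  have hK0 : 0 ≤ K := (abs_nonneg _).trans (hK (fun _ => false))
  have hu0 : 0 ≤ |uu p| := abs_nonneg _
  -- the diagonal coefficients
  set D : Cfg → ℤ → ℝ := fun x j =>
    if j = n - 1 then cr p false (x n) + cr p true (x n)
    else if j + 1 ∈ A then r0 p + DD p * (1 - rho p) else r0 p + DD p * rho p with hD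
  have hDle : ∀ x j, D x j ≤ 2 := by
    intro x j
    simp only [hD]
    split_ifs
    · have := cr_le_one hp.prob false (x n)
      have := cr_le_one hp.prob true (x n)
      linarith
    · have := mul_nonneg h4 h2.le; linarith
    · have := mul_nonneg h4 (by linarith : 0 ≤ 1 - rho p); linarith
  have hDd : ∀ x j, rep2_d p n A j ≤ D x j := by
    intro x j
    simp only [hD, rep2_d]
    split_ifs
    · rcases hx : x n with _ | _
      · simp [r0]
      · have : DD p = cr p false true + cr p true true - r0 p := rfl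
        linarith
    · exact le_rfl
    · exact le_rfl
  -- the flip terms
  have hfl : ∀ j ∈ A, rep2_R (qq p) θ m n
      (fun x => a * (rate p x j * (Phi (qq p) A (flip x j) - Phi (qq p) A x)
        + D x j * Phi (qq p) A x) * h x) 0 (a * (K * rep2_d p n A j)) := by
    intro j hj
    have hjI := Finset.mem_Ico.1 (hsub hj)
    have key : ∀ B : Finset ℤ, B ⊆ Ico m n → ∀ c : ℝ,
        rep2_R (qq p) θ m n (fun x => Phi (qq p) B x * (a * c * h x)) 0 (a * |c| * K) := by
      intro B hB c
      refine rep2_touched B hB _ (fun x y hxy => by rw [hdep x y hxy]) _ (fun x => ?_)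
      rw [abs_mul, abs_mul, abs_of_pos ha]
      exact mul_le_mul_of_nonneg_left (hK x) (by positivity)
    have hKa : 0 ≤ a * K := by positivity
    by_cases hjn : j = n - 1
    · have hjn' : j + 1 = n := by omega
      have k2 := rep2_touched (q := qq p) (θ := θ) (A.erase j)
        ((Finset.erase_subset _ _).trans hsub)
        (fun x => a * (if x n then 0 else uu p) * h x)
        (fun x y hxy => by rw [hxy n le_rfl, hdep x y hxy]) (a * |uu p| * K) (fun x => by
          rw [abs_mul, abs_mul, abs_of_pos ha]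
          refine mul_le_mul ?_ (hK x) (abs_nonneg _) (by positivity)
          refine mul_le_mul_of_nonneg_left ?_ ha.le
          split_ifs
          · simp
          · exact le_rfl)
      refine rep2_congr (rep2_mono k2 le_rfl ?_) (fun x => ?_)
      · have hd : rep2_d p n A j = r0 p := by
          unfold rep2_d; rw [if_pos hjn]
        rw [hd]
        have := mul_le_mul_of_nonneg_left h9.le hKa
        linarith
      · rw [flip_Phi hp hj x]
        simp only [hD, if_pos hjn, hjn']
        ring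
    · have hjn' : j + 1 < n := by
        rcases lt_or_ge (j + 1) n with h | h
        · exact h
        · exfalso; apply hjn; omega
      by_cases hj' : j + 1 ∈ A
      · have hd : rep2_d p n A j = r0 p + DD p * (1 - rho p) := by
          unfold rep2_d; rw [if_neg hjn, if_pos hj']
        have k1 := key (A.erase (j + 1)) ((Finset.erase_subset _ _).trans hsub)
          (DD p * (1 - rho p))
        have k2 := key ((A.erase j).erase (j + 1))
          (((Finset.erase_subset _ _).trans (Finset.erase_subset _ _)).trans hsub)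
          (uu p * (1 - rho p))
        have k3 := key (A.erase j) ((Finset.erase_subset _ _).trans hsub) (uu p * rho p)
        refine rep2_congr (rep2_mono (rep2_add (rep2_add k1 k2) k3) (by simp) ?_) (fun x => ?_)
        · rw [hd]
          simp only [abs_mul, abs_of_nonneg h4, abs_of_pos h2,
            abs_of_nonneg (by linarith : 0 ≤ 1 - rho p)]
          have := mul_le_mul_of_nonneg_left h9.le hKa
          nlinarith
        · rw [flip_Phi_mem hp hj hj' x]
          simp only [hD, if_neg hjn, if_pos hj']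
          ring
      · have hd : rep2_d p n A j = r0 p + DD p * rho p := by
          unfold rep2_d; rw [if_neg hjn, if_neg hj']
        have hins : insert (j + 1) A ⊆ Ico m n := by
          intro i hi
          rcases Finset.mem_insert.1 hi with h | h
          · subst h; exact Finset.mem_Ico.2 ⟨by linarith [hjI.1], hjn'⟩
          · exact hsub h
        have k1 := key (insert (j + 1) A) hins (DD p * rho p)
        have k2 := key (A.erase j) ((Finset.erase_subset _ _).trans hsub) (uu p * (1 - rho p))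
        have k3 := key (insert (j + 1) (A.erase j))
          ((Finset.insert_subset_insert _ (Finset.erase_subset _ _)).trans hins) (uu p * rho p)
        refine rep2_congr (rep2_mono (rep2_add (rep2_add k1 k2) k3) (by simp) ?_) (fun x => ?_)
        · rw [hd]
          simp only [abs_mul, abs_of_nonneg h4, abs_of_pos h2,
            abs_of_nonneg (by linarith : 0 ≤ 1 - rho p)]
          have := mul_le_mul_of_nonneg_left h9.le hKa
          nlinarith
        · rw [flip_Phi_notMem hp hj hj' x]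
          simp only [hD, if_neg hjn, if_neg hj']
          ring
  have hsum := rep2_sum A _ (fun _ => 0) _ hfl
  -- the main term
  have hcard : (A.card : ℝ) ≤ n - m := by
    have h10 := Finset.card_le_card hsub
    rw [Int.card_Ico] at h10
    have h11 : (A.card : ℤ) ≤ n - m := by
      have : ((n - m).toNat : ℤ) = n - m := Int.toNat_of_nonneg (by linarith)
      omega
    exact_mod_cast h11
  have hmr : -(N : ℝ) ≤ m := by exact_mod_cast hm
  have hnr : (n : ℝ) ≤ N := by exact_mod_cast hn
  have hmain := rep2_touched (q := qq p) (θ := θ) A hsub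
    (fun x => h x + a * ∑ j ∈ Ico n N, rate p x j * (h (flip x j) - h x)
      - a * (∑ j ∈ A, D x j) * h x)
    (by
      intro x y hxy
      have e1 : h x = h y := hdep x y hxy
      have e2 : ∀ j ∈ Ico n (N : ℤ), rate p x j * (h (flip x j) - h x)
          = rate p y j * (h (flip y j) - h y) := by
        intro j hj
        have hj := Finset.mem_Ico.1 hj
        have e3 : h (flip x j) = h (flip y j) := by
          refine hdep _ _ (fun i hi => ?_)
          unfold flip
          by_cases hij : i = j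
          · subst hij; simp [hxy i hi]
          · simp [Function.update_of_ne hij, hxy i hi]
        unfold rate
        rw [e3, e1, hxy j hj.1, hxy (j + 1) (by linarith [hj.1])]
      have e4 : ∀ j ∈ A, D x j = D y j := by
        intro j _
        simp only [hD]
        rw [hxy n le_rfl]
      rw [Finset.sum_congr rfl e2, Finset.sum_congr rfl e4, e1])
    (K * (1 - a * ∑ j ∈ A, rep2_d p n A j))
    (by
      intro x
      have f1 : h x + a * ∑ j ∈ Ico n (N : ℤ), rate p x j * (h (flip x j) - h x)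
          - a * (∑ j ∈ A, D x j) * h x
          = (1 - a * ∑ j ∈ Ico n (N : ℤ), rate p x j - a * ∑ j ∈ A, D x j) * h x
            + a * ∑ j ∈ Ico n (N : ℤ), rate p x j * h (flip x j) := by
        simp only [mul_sub, Finset.sum_sub_distrib, ← Finset.sum_mul]
        ring
      have hr0 : ∀ j, 0 ≤ rate p x j := fun j => cr_nonneg hp.prob _ _
      have hr1 : ∀ j, rate p x j ≤ 1 := fun j => cr_le_one hp.prob _ _
      have f2 : ∑ j ∈ Ico n (N : ℤ), rate p x j ≤ N - n := by
        have h10 : ∑ j ∈ Ico n (N : ℤ), rate p x j ≤ ∑ j ∈ Ico n (N : ℤ), (1 : ℝ) :=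
          Finset.sum_le_sum (fun j _ => hr1 j)
        rw [Finset.sum_const, Int.card_Ico, nsmul_eq_mul, mul_one] at h10
        have h11 : (((N : ℤ) - n).toNat : ℝ) = N - n := by
          have h12 : (((N : ℤ) - n).toNat : ℤ) = N - n := Int.toNat_of_nonneg (by linarith)
          exact_mod_cast h12
        rwa [h11] at h10
      have f3 : ∑ j ∈ A, D x j ≤ 2 * (n - m) := by
        have h10 : ∑ j ∈ A, D x j ≤ ∑ j ∈ A, (2 : ℝ) := Finset.sum_le_sum (fun j _ => hDle x j)
        rw [Finset.sum_const, nsmul_eq_mul] at h10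
        linarith
      have f4 : 0 ≤ 1 - a * ∑ j ∈ Ico n (N : ℤ), rate p x j - a * ∑ j ∈ A, D x j := by
        have h10 : ∑ j ∈ Ico n (N : ℤ), rate p x j + ∑ j ∈ A, D x j ≤ 4 * N := by linarith
        have h11 := mul_le_mul_of_nonneg_left h10 ha.le
        have h12 : a * (4 * (N : ℝ)) = 1 := by rw [ha_def]; field_simp
        linarith
      have f5 : ∑ j ∈ A, rep2_d p n A j ≤ ∑ j ∈ A, D x j := Finset.sum_le_sum (fun j _ => hDd x j)
      have f6 : |∑ j ∈ Ico n (N : ℤ), rate p x j * h (flip x j)|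
          ≤ (∑ j ∈ Ico n (N : ℤ), rate p x j) * K := by
        refine (Finset.abs_sum_le_sum_abs _ _).trans ?_
        rw [Finset.sum_mul]
        refine Finset.sum_le_sum (fun j _ => ?_)
        rw [abs_mul, abs_of_nonneg (hr0 j)]
        exact mul_le_mul_of_nonneg_left (hK _) (hr0 j)
      rw [f1]
      refine (abs_add_le _ _).trans ?_
      rw [abs_mul, abs_mul, abs_of_nonneg f4, abs_of_pos ha]
      have f7 := mul_le_mul_of_nonneg_left (hK x) f4
      have f8 := mul_le_mul_of_nonneg_left f6 ha.le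
      have f9 := mul_le_mul_of_nonneg_left f5 (mul_nonneg ha.le hK0)
      nlinarith)
  refine rep2_congr (rep2_mono (rep2_add hmain hsum) ?_ ?_) (fun x => ?_)
  · simp
  · rw [← Finset.mul_sum, ← Finset.mul_sum]
    apply le_of_eq
    ring
  · rw [Qf_Phi_mul p (qq p) hm hn hsub hdep x (by assumption)]
    have g1 : ∑ j ∈ A, a * (rate p x j * (Phi (qq p) A (flip x j) - Phi (qq p) A x)
        + D x j * Phi (qq p) A x) * h x
        = a * (∑ j ∈ A, rate p x j * (Phi (qq p) A (flip x j) - Phi (qq p) A x)) * h x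
          + a * (∑ j ∈ A, D x j) * Phi (qq p) A x * h x := by
      rw [← Finset.sum_mul, ← Finset.mul_sum, Finset.sum_add_distrib, ← Finset.sum_mul]
      ring
    rw [g1]
    ring

/-- atoms -/
private theorem rep2_step_atom {p : Bool → Bool → ℝ} (hp : DualHyp p) {θ : ℝ} (hθ : 0 < θ)
    (hθ1 : θ < 1) (hθk : (DD p + |uu p|) * (θ⁻¹ - 1) ≤ kap p / 2)
    {N : ℕ} (hN : 1 ≤ N) {m n : ℤ}
    (hm : -(N : ℤ) ≤ m) (hmn : m ≤ n) (hn : n ≤ N) (A : Finset ℤ) (hA : A.Nonempty)
    (hsub : A ⊆ Ico m n) (c : ℝ) :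
    rep2_R (qq p) θ m n (Qf p N (fun x => c * Phi (qq p) A x))
      (|c| * wt θ A hA * (1 - kap p / 2 / (4 * N)))
      ((DD p + |uu p|) / (4 * N) * θ ^ (n - 1) * (|c| * wt θ A hA)) := by
  obtain ⟨h1, h2, h3, h4, h5, h6, h7, h8, h9⟩ := hp.consts
  have hN0 : (0 : ℝ) < N := by exact_mod_cast hN
  have ha : 0 < (4 * (N : ℝ))⁻¹ := by positivity
  set a := (4 * (N : ℝ))⁻¹ with ha_def
  have hu0 : 0 ≤ |uu p| := abs_nonneg _
  have hw := rep2_wt_pos hθ hA
  have hkp := hp.kap_pos
  have hkap : kap p = r0 p - |uu p| := rfl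
  set W := |c| * wt θ A hA with hW
  have hW0 : 0 ≤ W := by positivity
  have hae : |a * c| = a * |c| := by rw [abs_mul, abs_of_pos ha]
  -- flips
  have hfl : ∀ j ∈ A, rep2_R (qq p) θ m n
      (fun x => a * c * (rate p x j * (Phi (qq p) A (flip x j) - Phi (qq p) A x)
        + rep2_d p n A j * Phi (qq p) A x))
      (a * W * (rep2_d p n A j - kap p + if j = A.max' hA then kap p / 2 else 0))
      (if j = A.max' hA then (DD p + |uu p|) * a * θ ^ (n - 1) * W else 0) := by
    intro j hj
    have hb0 : 0 ≤ (DD p + |uu p|) * a * θ ^ (n - 1) * W := by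
      have := zpow_pos hθ (n - 1)
      positivity
    by_cases hjn : j = n - 1
    · have k := rep2_flip_eq hp (θ := θ) hsub hj hjn (a * c)
      have hd : rep2_d p n A j = r0 p := by
        unfold rep2_d; rw [if_pos hjn]
      have hmax : j = A.max' hA := by
        apply le_antisymm (A.le_max' _ hj)
        have := Finset.mem_Ico.1 (hsub (A.max'_mem hA))
        omega
      refine rep2_mono k ?_ ?_
      · rw [if_pos hmax, hd]
        have : 0 ≤ r0 p - kap p + kap p / 2 := by linarith
        positivity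
      · rw [if_pos hmax, hae]
        have hwA : wt θ A hA = θ ^ (-(n - 1)) := by
          unfold wt; rw [← hmax, hjn]
        have e1 : θ ^ (n - 1) * wt θ A hA = 1 := by
          rw [hwA, ← zpow_add₀ hθ.ne']; simp
        have e2 : (DD p + |uu p|) * a * θ ^ (n - 1) * W
            = a * |c| * (DD p + |uu p|) * (θ ^ (n - 1) * wt θ A hA) := by
          rw [hW]; ring
        rw [e2, e1, mul_one]
    · have k := rep2_flip_lt hp hθ hθ1 hθk hA hsub hj hjn (a * c)
      refine rep2_mono k ?_ ?_
      · rw [hae, hW]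
        apply le_of_eq
        ring
      · split_ifs
        · exact hb0
        · exact le_rfl
  have hsum := rep2_sum A _ _ _ hfl
  have hcard : (A.card : ℝ) ≤ n - m := by
    have h10 := Finset.card_le_card hsub
    rw [Int.card_Ico] at h10
    have h11 : (A.card : ℤ) ≤ n - m := by
      have : ((n - m).toNat : ℤ) = n - m := Int.toNat_of_nonneg (by linarith)
      omega
    exact_mod_cast h11
  have hcard1 : (1 : ℝ) ≤ A.card := by exact_mod_cast hA.card_pos
  have hmr : -(N : ℝ) ≤ m := by exact_mod_cast hm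
  have hnr : (n : ℝ) ≤ N := by exact_mod_cast hn
  have hdle : ∑ j ∈ A, rep2_d p n A j ≤ 2 * (n - m) := by
    have h10 : ∑ j ∈ A, rep2_d p n A j ≤ ∑ j ∈ A, (2 : ℝ) :=
      Finset.sum_le_sum (fun j _ => (rep2_d_bounds hp n A j).2)
    rw [Finset.sum_const, nsmul_eq_mul] at h10
    linarith
  have hpos : 0 ≤ 1 - a * ∑ j ∈ A, rep2_d p n A j := by
    have h10 : ∑ j ∈ A, rep2_d p n A j ≤ 4 * N := by linarith
    have h11 := mul_le_mul_of_nonneg_left h10 ha.le
    have h12 : a * (4 * (N : ℝ)) = 1 := by rw [ha_def]; field_simp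
    linarith
  have hmain := rep2_atom (q := qq p) (θ := θ) A hsub
    (c * (1 - a * ∑ j ∈ A, rep2_d p n A j)) (wt θ A hA) hw.le (fun _ => le_rfl)
  refine rep2_congr (rep2_mono (rep2_add hmain hsum) ?_ ?_) (fun x => ?_)
  · rw [abs_mul, abs_of_nonneg hpos, ← Finset.mul_sum, Finset.sum_add_distrib,
      Finset.sum_sub_distrib, Finset.sum_const, nsmul_eq_mul, Finset.sum_ite_eq' A (A.max' hA),
      if_pos (A.max'_mem hA)]
    have e1 : |c| * (1 - a * ∑ j ∈ A, rep2_d p n A j) * wt θ A hA
        + a * W * (∑ j ∈ A, rep2_d p n A j - A.card * kap p + kap p / 2)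
        = W * (1 - a * (A.card * kap p - kap p / 2)) := by
      rw [hW]; ring
    rw [e1]
    refine mul_le_mul_of_nonneg_left ?_ hW0
    have e2 : kap p / 2 / (4 * N) = a * (kap p / 2) := by
      rw [ha_def]; field_simp
    rw [e2]
    have e3 : kap p / 2 ≤ A.card * kap p - kap p / 2 := by nlinarith
    have e4 := mul_le_mul_of_nonneg_left e3 ha.le
    linarith
  · rw [Finset.sum_ite_eq' A (A.max' hA), if_pos (A.max'_mem hA), zero_add]
    apply le_of_eq
    rw [ha_def]
    field_simp
  · have g0 : (fun x => c * Phi (qq p) A x) = fun x => Phi (qq p) A x * (fun _ : Cfg => c) x := by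
      funext x; simp [mul_comm]
    rw [g0, Qf_Phi_mul p (qq p) hm hn hsub (h := fun _ => c) (fun _ _ _ => rfl) x (by assumption)]
    have g1 : ∑ j ∈ A, a * c * (rate p x j * (Phi (qq p) A (flip x j) - Phi (qq p) A x)
        + rep2_d p n A j * Phi (qq p) A x)
        = a * (∑ j ∈ A, rate p x j * (Phi (qq p) A (flip x j) - Phi (qq p) A x)) * c
          + a * c * (∑ j ∈ A, rep2_d p n A j) * Phi (qq p) A x := by
      rw [← Finset.mul_sum, Finset.sum_add_distrib, ← Finset.sum_mul]
      ring
    rw [g1]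
    simp
    ring

/-- One step, `c' = 4N`.  Constants are fixed.  Touched terms are treated as in `Rep1.step` (the total
supremum does not increase).  For an atom `c Phi A` and `j ∈ A`, `j < n-1`: the other coefficients have
total absolute value `d_j - kap`, and only the sets `insert (j+1) A`, `insert (j+1) (A.erase j)` with
`j = max A` have a larger weight, by a factor `θ⁻¹`, which costs at most `(DD + |uu|)(θ⁻¹ - 1) ≤ kap/2`.
If `j = n - 1 ∈ A` (then `max A = n - 1`, `|c| = θ^(n-1) * (|c| wt A)`), write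
`-r_y c Phi A = -r0 c Phi A - (r_y - r0) c Phi A`, the second term and `u_y c Phi (A.erase j)` are
touched terms, of total supremum at most `(DD + |uu|) |c|`. -/
theorem Rep2.step {p : Bool → Bool → ℝ} (hp : DualHyp p) {θ : ℝ} (hθ : 0 < θ) (hθ1 : θ < 1)
    (hθk : (DD p + |uu p|) * (θ⁻¹ - 1) ≤ kap p / 2)
    {N : ℕ} (hN : 1 ≤ N) {m n : ℤ}
    (hm : -(N : ℤ) ≤ m) (hmn : m ≤ n) (hn : n ≤ N) {g : Cfg → ℝ} {c α β : ℝ}
    (h : Rep2 (qq p) θ m n g c α β) :
    ∃ c' : ℝ, Rep2 (qq p) θ m n (Qf p N g) c' (α * (1 - kap p / 2 / (4 * N)))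
      (β + (DD p + |uu p|) / (4 * N) * θ ^ (n - 1) * α) := by
  have hN0 : (1 : ℝ) ≤ N := by exact_mod_cast hN
  obtain ⟨h1, h2, h3, h4, h5, h6, h7, h8, h9⟩ := hp.consts
  have hu0 : 0 ≤ |uu p| := abs_nonneg _
  have hkap : kap p = r0 p - |uu p| := rfl
  have hC : 0 ≤ (DD p + |uu p|) / (4 * N) * θ ^ (n - 1) := by
    have := zpow_pos hθ (n - 1)
    positivity
  have hF : 0 ≤ 1 - kap p / 2 / (4 * N) := by
    have : kap p / 2 / (4 * N) ≤ 1 := by
      rw [div_le_one (by positivity)]
      linarith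
    linarith
  change rep2_R (qq p) θ m n (Qf p N g) _ _
  induction h with
  | const c =>
    rw [Qf_const]
    exact rep2_mono ⟨c, Rep2.const c⟩ (by simp) (by simp)
  | atom A hA hsub c =>
    exact rep2_mono (rep2_step_atom hp hθ hθ1 hθk hN hm hmn hn A hA hsub c) le_rfl (by simp)
  | touched A hsub h hdep K hK =>
    exact rep2_mono (rep2_step_touched hp hN hm hmn hn A hsub h hdep K hK) (by simp) (by simp)
  | @add g g' c c' α α' β β' _ _ ih1 ih2 =>
    rw [Qf_add]
    exact rep2_mono (rep2_add ih1 ih2) (by apply le_of_eq; ring) (by apply le_of_eq; ring)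
  | @mono g c α α' β β' _ ha hb ih =>
    exact rep2_mono ih (mul_le_mul_of_nonneg_right ha hF)
      (add_le_add hb (mul_le_mul_of_nonneg_left ha hC))

end H72IPS
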