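import Pool.Agent.H72.IPS.Bas

/-! # SEMA: the finite volume semigroups `SN`

With `c = 4N` and `AN = c (QN - 1)` one has `exp (t AN) = e^{-ct} exp (ct QN)`, hence
`SN t f x = sum_n e^{-ct} (ct)^n / n! (Qf^n f)(x)` (expand with `NormedSpace.exp_eq_tsum`,
`NormedSpace.expSeries_hasSum_exp'` in the Banach algebra `CC →L[ℝ] CC`, then apply the continuous
linear functional `T ↦ T f x`). -/

namespace H72IPS

open Finset

private theorem sema_mem_ball (T : CC →L[ℝ] CC) :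
    T ∈ Metric.eball (0 : CC →L[ℝ] CC) (NormedSpace.expSeries ℝ (CC →L[ℝ] CC)).radius := by
  rw [NormedSpace.expSeries_radius_eq_top]
  simp

private theorem sema_exp (p : Bool → Bool → ℝ) {N : ℕ} (hN : 1 ≤ N) (t : ℝ) :
    SN p N t = Real.exp (-(4 * N * t)) • NormedSpace.exp ((4 * N * t) • QN p N) := by
  have hN' : (4 * (N : ℝ)) ≠ 0 := by positivity
  have h1 : t • AN p N = (-(4 * N * t)) • (1 : CC →L[ℝ] CC) + (4 * N * t) • QN p N := by
    unfold QN
    rw [smul_add, smul_smul, ← add_assoc, ← add_smul]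
    have : (4 * (N : ℝ) * t) * (4 * (N : ℝ))⁻¹ = t := by field_simp
    rw [this]
    simp
  have hc : Commute ((-(4 * (N : ℝ) * t)) • (1 : CC →L[ℝ] CC)) ((4 * (N : ℝ) * t) • QN p N) :=
    (Commute.one_left _).smul_left _
  unfold SN
  rw [h1, NormedSpace.exp_add_of_commute_of_mem_ball (𝕂 := ℝ) hc (sema_mem_ball _)
    (sema_mem_ball _)]
  have h2 : NormedSpace.exp ((-(4 * (N : ℝ) * t)) • (1 : CC →L[ℝ] CC))
      = Real.exp (-(4 * N * t)) • (1 : CC →L[ℝ] CC) := by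
    have := NormedSpace.algebraMap_exp_comm (𝕂 := ℝ) (𝔸 := CC →L[ℝ] CC) (-(4 * (N : ℝ) * t))
    rw [Algebra.algebraMap_eq_smul_one, Algebra.algebraMap_eq_smul_one] at this
    rw [← this, Real.exp_eq_exp_ℝ]
  rw [h2, smul_mul_assoc, one_mul]

theorem SN_hasSum (p : Bool → Bool → ℝ) {N : ℕ} (hN : 1 ≤ N) (t : ℝ) (f : CC) (x : Cfg) :
    HasSum (fun n : ℕ => Real.exp (-(4 * N * t)) * (4 * N * t) ^ n / (n.factorial : ℝ)
      * (Qf p N)^[n] f x) (SN p N t f x) := by
  have h := NormedSpace.exp_series_hasSum_exp' (𝕂 := ℝ) ((4 * (N : ℝ) * t) • QN p N)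
  let φ : (CC →L[ℝ] CC) →L[ℝ] ℝ := (CC.ev x).comp (ContinuousLinearMap.apply ℝ CC f)
  have h2 := (h.map φ φ.continuous).mul_left (Real.exp (-(4 * N * t)))
  rw [sema_exp p hN t]
  have h4 : (fun n : ℕ => Real.exp (-(4 * N * t)) * (4 * N * t) ^ n / (n.factorial : ℝ)
      * (Qf p N)^[n] f x) = fun n : ℕ => Real.exp (-(4 * N * t))
        * (φ ∘ fun n : ℕ => ((n.factorial : ℝ)⁻¹) • ((4 * (N : ℝ) * t) • QN p N) ^ n) n := by
   funext n
   have h3 : φ (((n.factorial : ℝ)⁻¹) • ((4 * (N : ℝ) * t) • QN p N) ^ n)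
      = (n.factorial : ℝ)⁻¹ * ((4 * (N : ℝ) * t) ^ n * (Qf p N)^[n] f x) := by
    rw [smul_pow, ← QN_pow_apply]
    rfl
   simp only [Function.comp_apply]
   rw [h3]
   ring
  rw [h4]
  exact h2

/-- geometric bounds for the iterates of `Qf` give exponential bounds for the semigroup -/
theorem SN_poisson_bound (p : Bool → Bool → ℝ) {N : ℕ} (hN : 1 ≤ N) {t : ℝ} (ht : 0 ≤ t) (f : CC)
    (x y : Cfg) {ι : Type*} (s : Finset ι) (K r : ι → ℝ)
    (h : ∀ n : ℕ, |(Qf p N)^[n] f x - (Qf p N)^[n] f y| ≤ ∑ i ∈ s, K i * r i ^ n) :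
    |SN p N t f x - SN p N t f y| ≤ ∑ i ∈ s, K i * Real.exp (-(4 * N * t) * (1 - r i)) := by
  have hs := (SN_hasSum p hN t f x).sub (SN_hasSum p hN t f y)
  have hexp : ∀ i ∈ s, HasSum (fun n : ℕ => Real.exp (-(4 * N * t)) * (4 * N * t) ^ n
      / (n.factorial : ℝ) * (K i * r i ^ n)) (K i * Real.exp (-(4 * N * t) * (1 - r i))) := by
    intro i _
    have h1 := NormedSpace.expSeries_div_hasSum_exp (𝔸 := ℝ) ((4 * (N : ℝ) * t) * r i)
    rw [← Real.exp_eq_exp_ℝ] at h1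
    have h2 := h1.mul_left (K i * Real.exp (-(4 * N * t)))
    have e1 : (fun n : ℕ => Real.exp (-(4 * N * t)) * (4 * N * t) ^ n
        / (n.factorial : ℝ) * (K i * r i ^ n)) = fun n : ℕ => K i * Real.exp (-(4 * N * t))
          * ((4 * (N : ℝ) * t * r i) ^ n / (n.factorial : ℝ)) := by
      funext n
      rw [mul_pow]
      ring
    have e2 : K i * Real.exp (-(4 * N * t) * (1 - r i))
        = K i * Real.exp (-(4 * N * t)) * Real.exp (4 * (N : ℝ) * t * r i) := by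
      have : -(4 * N * t) * (1 - r i) = -(4 * N * t) + 4 * (N : ℝ) * t * r i := by ring
      rw [this, Real.exp_add]
      ring
    rw [e1, e2]
    exact h2
  have hsum := hasSum_sum hexp
  have hle : ∀ n : ℕ, ‖Real.exp (-(4 * N * t)) * (4 * N * t) ^ n / (n.factorial : ℝ)
      * (Qf p N)^[n] f x - Real.exp (-(4 * N * t)) * (4 * N * t) ^ n / (n.factorial : ℝ)
      * (Qf p N)^[n] f y‖ ≤ ∑ i ∈ s, Real.exp (-(4 * N * t)) * (4 * N * t) ^ n
      / (n.factorial : ℝ) * (K i * r i ^ n) := by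
    intro n
    rw [← mul_sub, ← Finset.mul_sum, norm_mul, Real.norm_eq_abs, Real.norm_eq_abs,
      abs_of_nonneg (by positivity : (0 : ℝ) ≤ Real.exp (-(4 * N * t)) * (4 * N * t) ^ n
        / (n.factorial : ℝ))]
    exact mul_le_mul_of_nonneg_left (h n) (by positivity)
  rw [← hs.tsum_eq, ← Real.norm_eq_abs]
  exact tsum_of_norm_bounded hsum hle

theorem SN_const (p : Bool → Bool → ℝ) {N : ℕ} (hN : 1 ≤ N) (t : ℝ) (c : ℝ) :
    SN p N t (CC.mk (fun _ => c) continuous_const) = CC.mk (fun _ => c) continuous_const := by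
  ext x
  have h := SN_hasSum p hN t (CC.mk (fun _ => c) continuous_const) x
  have hc : ∀ n : ℕ, (Qf p N)^[n] (CC.mk (fun _ : Cfg => c) continuous_const) x = c := by
    intro n
    have : (Qf p N)^[n] (fun _ => c) = fun _ => c := by
      induction n with
      | zero => rfl
      | succ n ih => rw [Function.iterate_succ_apply', ih, Qf_const]
    have h2 : (⇑(CC.mk (fun _ : Cfg => c) continuous_const) : Cfg → ℝ) = fun _ => c := by
      funext y; rfl
    rw [h2, this]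
  simp only [hc] at h
  have h1 := NormedSpace.expSeries_div_hasSum_exp (𝔸 := ℝ) (4 * (N : ℝ) * t)
  rw [← Real.exp_eq_exp_ℝ] at h1
  have h2 := (h1.mul_left (Real.exp (-(4 * N * t)))).mul_right c
  rw [← Real.exp_add, neg_add_cancel, Real.exp_zero, one_mul] at h2
  have h3 : (fun n : ℕ => Real.exp (-(4 * N * t)) * (4 * N * t) ^ n / (n.factorial : ℝ) * c)
      = fun n : ℕ => Real.exp (-(4 * N * t)) * ((4 * N * t) ^ n / (n.factorial : ℝ)) * c := by
    funext n; ring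
  rw [h3] at h
  rw [CC.mk_apply]
  exact h.unique h2

theorem SN_nonneg {p : Bool → Bool → ℝ} (hp : IsProb p) {N : ℕ} (hN : 1 ≤ N) {t : ℝ} (ht : 0 ≤ t)
    {f : CC} (hf : ∀ x, 0 ≤ f x) (x : Cfg) : 0 ≤ SN p N t f x := by
  have hq : ∀ n : ℕ, ∀ y, 0 ≤ (Qf p N)^[n] f y := by
    intro n
    induction n with
    | zero => exact hf
    | succ n ih =>
      intro y
      rw [Function.iterate_succ_apply']
      exact Qf_nonneg hp hN ih y
  refine (SN_hasSum p hN t f x).nonneg (fun n => ?_)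
  have := hq n x
  positivity

theorem SN_norm_le {p : Bool → Bool → ℝ} (hp : IsProb p) {N : ℕ} (hN : 1 ≤ N) {t : ℝ} (ht : 0 ≤ t)
    (f : CC) : ‖SN p N t f‖ ≤ ‖f‖ := by
  have hq : ∀ n : ℕ, ∀ y, |(Qf p N)^[n] f y| ≤ ‖f‖ := by
    intro n
    induction n with
    | zero => exact fun y => f.abs_le_norm y
    | succ n ih =>
      intro y
      rw [Function.iterate_succ_apply']
      exact Qf_bound hp hN ih y
  refine CC.norm_le (norm_nonneg _) (fun x => ?_)
  have h1 := NormedSpace.expSeries_div_hasSum_exp (𝔸 := ℝ) (4 * (N : ℝ) * t)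
  rw [← Real.exp_eq_exp_ℝ] at h1
  have h2 := (h1.mul_left (Real.exp (-(4 * N * t)))).mul_right ‖f‖
  rw [← Real.exp_add, neg_add_cancel, Real.exp_zero, one_mul] at h2
  rw [← (SN_hasSum p hN t f x).tsum_eq, ← Real.norm_eq_abs]
  refine tsum_of_norm_bounded h2 (fun n => ?_)
  rw [norm_mul, Real.norm_eq_abs, Real.norm_eq_abs,
      abs_of_nonneg (by positivity : (0 : ℝ) ≤ Real.exp (-(4 * N * t)) * (4 * N * t) ^ n
        / (n.factorial : ℝ))]
  calc _ ≤ Real.exp (-(4 * N * t)) * (4 * N * t) ^ n / (n.factorial : ℝ) * ‖f‖ :=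
        mul_le_mul_of_nonneg_left (hq n x) (by positivity)
    _ = _ := by ring

end H72IPS
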