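import Pool.Agent.H72.IPS.Rep1
import Pool.Agent.H72.IPS.Rep2
import Pool.Agent.H72.IPS.PhiS
import Pool.Agent.H72.IPS.SemA
import Pool.Agent.H72.IPS.CylA
import Pool.Agent.H72.IPS.Asy

/-! # DUALE: the dual theorem

Let `f` be a function of the sites of `[m, M)`.  By `Phi_span` there are `γ`, `c`, `α` such that for all
`n ≥ M`: `Rep1 q m n f γ` and `Rep2 q θ m n f c α 0` (`θ < 1` close to `1`).  Iterating the steps `k`
times, for `N ≥ n`, `N ≥ -m`: with `r = 1 - kap/(4N)`, `r' = 1 - kap/(8N)`,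
`|g_k x - g_k y| ≤ 4 Q^(n-m) γ r^k + 2 (θ^m α r'^k + C θ^(n-1) α / kap)` where `g_k = (Qf p N)^[k] f`,
`Q = max 1 q`, `C = 2 (DD + |uu|)` (sum of a geometric series), by comparing `x` and `y` with their
modifications which vanish on `[m, n)`.  By `SN_poisson_bound`,
`|SN t f x - SN t f y| ≤ 4 Q^(n-m) γ e^{-kap t} + 2 θ^m α e^{-kap t/2} + 2 C θ^(n-1) α / kap`.  Given `η`
choose first `n`, then `t0`. -/

namespace H72IPS

open Finset

open Classical in
private noncomputable def duale_al (θ : ℝ) (c : Finset ℤ → ℝ) (A : Finset ℤ) : ℝ :=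
  if h : A.Nonempty then |c A| * wt θ A h else 0

private theorem duale_al_nonneg {θ : ℝ} (hθ : 0 < θ) (c : Finset ℤ → ℝ) (A : Finset ℤ) :
    0 ≤ duale_al θ c A := by
  unfold duale_al
  split_ifs with h
  · exact mul_nonneg (abs_nonneg _) (by unfold wt; positivity)
  · exact le_rfl

private theorem duale_rep1 {q : ℝ} {m n : ℤ} (c : Finset ℤ → ℝ) (S : Finset (Finset ℤ))
    (hS : ∀ A ∈ S, A.Nonempty ∧ A ⊆ Ico m n) :
    Rep1 q m n (fun x => ∑ A ∈ S, c A * Phi q A x) (∑ A ∈ S, |c A|) := by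
  classical
  induction S using Finset.induction_on with
  | empty =>
    simp only [Finset.sum_empty]
    exact Rep1.base (fun _ => 0) (fun _ _ _ => rfl)
  | insert A S hA ih =>
    have h1 := hS A (Finset.mem_insert_self A S)
    have h2 := ih (fun B hB => hS B (Finset.mem_insert_of_mem hB))
    have h3 : Rep1 q m n (fun x => Phi q A x * c A) (|c A|) :=
      Rep1.atom A h1.1 h1.2 (fun _ => c A) (fun _ _ _ => rfl) _ (fun _ => le_rfl)
    have h4 := Rep1.add h3 h2
    rw [Finset.sum_insert hA]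
    convert h4 using 2 with x
    rw [Finset.sum_insert hA, mul_comm]

private theorem duale_rep2 {q θ : ℝ} {m n : ℤ} (c : Finset ℤ → ℝ) (S : Finset (Finset ℤ))
    (hS : ∀ A ∈ S, A.Nonempty ∧ A ⊆ Ico m n) :
    Rep2 q θ m n (fun x => ∑ A ∈ S, c A * Phi q A x) 0 (∑ A ∈ S, duale_al θ c A) 0 := by
  classical
  induction S using Finset.induction_on with
  | empty =>
    simp only [Finset.sum_empty]
    exact Rep2.const 0
  | insert A S hA ih =>
    have h1 := hS A (Finset.mem_insert_self A S)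
    have h2 := ih (fun B hB => hS B (Finset.mem_insert_of_mem hB))
    have h3 : Rep2 q θ m n (fun x => c A * Phi q A x) 0 (duale_al θ c A) 0 := by
      unfold duale_al
      rw [dif_pos h1.1]
      exact Rep2.atom A h1.1 h1.2 (c A)
    have h4 := Rep2.add h3 h2
    rw [Finset.sum_insert hA]
    rw [add_zero] at h4
    convert h4 using 2 with x
    rw [Finset.sum_insert hA]

/-- the representations of a cylinder function -/
private theorem duale_repr {q θ : ℝ} (hq : 0 < q) (hθ : 0 < θ) {m M : ℤ} {f : Cfg → ℝ}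
    (hf : ∀ x y : Cfg, (∀ i, m ≤ i → i < M → x i = y i) → f x = f y) :
    ∃ γ c α : ℝ, 0 ≤ γ ∧ 0 ≤ α ∧ ∀ n, M ≤ n → Rep1 q m n f γ ∧ Rep2 q θ m n f c α 0 := by
  classical
  obtain ⟨c, hc⟩ := Phi_span hq hf
  set S := (Ico m M).powerset.erase ∅ with hSdef
  have hmem : (∅ : Finset ℤ) ∈ (Ico m M).powerset := Finset.empty_mem_powerset _
  have hfe : f = fun x => c ∅ + ∑ A ∈ S, c A * Phi q A x := by
    funext x
    have e1 := Finset.add_sum_erase _ (fun A => c A * Phi q A x) hmem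
    have e2 : Phi q ∅ x = 1 := by simp [Phi]
    rw [hc x, ← e1, e2, mul_one]
  have hS : ∀ n, M ≤ n → ∀ A ∈ S, A.Nonempty ∧ A ⊆ Ico m n := by
    intro n hn A hA
    obtain ⟨h1, h2⟩ := Finset.mem_erase.mp hA
    exact ⟨Finset.nonempty_iff_ne_empty.mpr h1,
      (Finset.mem_powerset.mp h2).trans (Finset.Ico_subset_Ico_right hn)⟩
  refine ⟨∑ A ∈ S, |c A|, c ∅, ∑ A ∈ S, duale_al θ c A,
    Finset.sum_nonneg fun _ _ => abs_nonneg _,
    Finset.sum_nonneg fun A _ => duale_al_nonneg hθ c A, fun n hn => ⟨?_, ?_⟩⟩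
  · have h1 := Rep1.add (Rep1.base (q := q) (m := m) (n := n) (fun _ => c ∅) (fun _ _ _ => rfl))
      (duale_rep1 (q := q) c S (hS n hn))
    rw [zero_add] at h1
    rw [hfe]; exact h1
  · have h1 := Rep2.add (Rep2.const (q := q) (θ := θ) (m := m) (n := n) (c ∅))
      (duale_rep2 (q := q) (θ := θ) c S (hS n hn))
    rw [add_zero, zero_add, add_zero] at h1
    rw [hfe]; exact h1

private theorem duale_iter1 {p : Bool → Bool → ℝ} (hp : DualHyp p) {N : ℕ} (hN : 1 ≤ N) {m n : ℤ}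
    (hm : -(N : ℤ) ≤ m) (hmn : m ≤ n) (hn : n ≤ N) {g : Cfg → ℝ} {γ : ℝ}
    (h : Rep1 (qq p) m n g γ) (k : ℕ) :
    Rep1 (qq p) m n ((Qf p N)^[k] g) (γ * (1 - kap p / (4 * N)) ^ k) := by
  induction k with
  | zero => simpa using h
  | succ k ih =>
    rw [Function.iterate_succ_apply', pow_succ, ← mul_assoc]
    exact ih.step hp hN hm hmn hn

private theorem duale_iter2 {p : Bool → Bool → ℝ} (hp : DualHyp p) {θ : ℝ} (hθ : 0 < θ)
    (hθ1 : θ < 1) (hθk : (DD p + |uu p|) * (θ⁻¹ - 1) ≤ kap p / 2)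
    {N : ℕ} (hN : 1 ≤ N) {m n : ℤ}
    (hm : -(N : ℤ) ≤ m) (hmn : m ≤ n) (hn : n ≤ N) {g : Cfg → ℝ} {c α : ℝ}
    (h : Rep2 (qq p) θ m n g c α 0) (k : ℕ) :
    ∃ c' : ℝ, Rep2 (qq p) θ m n ((Qf p N)^[k] g) c' (α * (1 - kap p / 2 / (4 * N)) ^ k)
      (2 * (DD p + |uu p|) / kap p * θ ^ (n - 1) * α *
        (1 - (1 - kap p / 2 / (4 * N)) ^ k)) := by
  have hkap := hp.kap_pos
  have hNpos : (0 : ℝ) < N := by exact_mod_cast hN
  induction k with
  | zero => exact ⟨c, by simpa using h⟩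
  | succ k ih =>
    obtain ⟨c', hc'⟩ := ih
    obtain ⟨c'', hc''⟩ := hc'.step hp hθ hθ1 hθk hN hm hmn hn
    refine ⟨c'', ?_⟩
    rw [Function.iterate_succ_apply']
    refine hc''.mono (le_of_eq (by rw [pow_succ]; ring)) (le_of_eq ?_)
    rw [pow_succ]
    have e1 : (DD p + |uu p|) / (4 * N) =
        2 * (DD p + |uu p|) / kap p * (kap p / 2 / (4 * N)) := by
      field_simp
    rw [e1]
    ring

theorem asympConst_of_dual {p : Bool → Bool → ℝ} (hp : DualHyp p) : AsympConst p := by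
  intro f hf η hη
  have hkap := hp.kap_pos
  obtain ⟨hq, -, -, hDD, hr0, hr02, -, -, -⟩ := hp.consts
  have hkap2 : kap p ≤ 2 := by
    unfold kap
    have := abs_nonneg (uu p)
    linarith
  obtain ⟨m, M, hmM, hfdep⟩ := hf.exists_interval
  set S := DD p + |uu p| with hS
  have hS0 : 0 ≤ S := add_nonneg hDD (abs_nonneg _)
  -- the parameter θ
  obtain ⟨θ, hθ, hθ1, hθk⟩ : ∃ θ : ℝ, 0 < θ ∧ θ < 1 ∧ S * (θ⁻¹ - 1) ≤ kap p / 2 := by
    set δ := kap p / (2 * (S + 1)) with hδ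
    have hδ0 : 0 < δ := by positivity
    refine ⟨(1 + δ)⁻¹, by positivity, ?_, ?_⟩
    · exact inv_lt_one_of_one_lt₀ (by linarith)
    · rw [inv_inv, add_sub_cancel_left, hδ, mul_div_assoc', div_le_div_iff₀ (by positivity)
        (by norm_num)]
      nlinarith
  obtain ⟨γ, c, α, hγ, hα, hrep⟩ := duale_repr (θ := θ) hq hθ hfdep
  -- the choice of `n`
  obtain ⟨n, hMn, hnB⟩ : ∃ n, M ≤ n ∧ 2 * (2 * S / kap p * θ ^ (n - 1) * α) ≤ η / 2 := by
    set C := 2 * (2 * S / kap p * α) * θ ^ (M - 1) with hC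
    have hC0 : 0 ≤ C := by positivity
    obtain ⟨k, hk⟩ := exists_pow_lt_of_lt_one (show 0 < η / 2 / (C + 1) by positivity) hθ1
    refine ⟨M + k, by omega, ?_⟩
    have e1 : θ ^ (M + (k : ℤ) - 1) = θ ^ (M - 1) * θ ^ k := by
      rw [← zpow_natCast θ k, ← zpow_add₀ hθ.ne']
      congr 1; ring
    rw [e1]
    calc 2 * (2 * S / kap p * (θ ^ (M - 1) * θ ^ k) * α) = C * θ ^ k := by rw [hC]; ring
      _ ≤ C * (η / 2 / (C + 1)) := mul_le_mul_of_nonneg_left hk.le hC0
      _ ≤ η / 2 := by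
        rw [mul_div_assoc', div_le_iff₀ (by positivity)]
        nlinarith
  have hmn : m ≤ n := hmM.trans hMn
  set Q := (max 1 (qq p)) ^ (n - m).toNat with hQ
  set B := 2 * S / kap p * θ ^ (n - 1) * α with hB
  have hB0 : 0 ≤ B := by positivity
  -- the choice of `t0`
  obtain ⟨t0, ht0⟩ : ∃ t0 : ℝ, ∀ t ≥ t0, 0 ≤ t ∧
      4 * Q * γ * Real.exp (-(kap p * t)) + 2 * θ ^ m * α * Real.exp (-(kap p / 2 * t)) ≤ η / 2 := by
    have hexp : ∀ a : ℝ, 0 < a → Filter.Tendsto (fun t : ℝ => Real.exp (-(a * t)))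
        Filter.atTop (nhds 0) := by
      intro a ha
      refine Real.tendsto_exp_neg_atTop_nhds_zero.comp ?_
      exact Filter.tendsto_id.const_mul_atTop ha
    have h1 := ((hexp (kap p) hkap).const_mul (4 * Q * γ)).add
      ((hexp (kap p / 2) (by positivity)).const_mul (2 * θ ^ m * α))
    rw [mul_zero, mul_zero, add_zero] at h1
    have h2 := (Filter.eventually_ge_atTop (0 : ℝ)).and
      (h1.eventually (ge_mem_nhds (show (0 : ℝ) < η / 2 by positivity)))
    obtain ⟨t0, h3⟩ := Filter.eventually_atTop.mp h2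
    exact ⟨t0, fun t ht => h3 t ht⟩
  refine ⟨t0, fun t ht => ⟨max 1 (max m.natAbs n.natAbs), fun N hN x y => ?_⟩⟩
  obtain ⟨ht', hsmall⟩ := ht0 t ht
  have hN1 : 1 ≤ N := (le_max_left _ _).trans hN
  have hNm : -(N : ℤ) ≤ m := by
    have : m.natAbs ≤ N := (le_max_left _ _).trans ((le_max_right _ _).trans hN)
    omega
  have hNn : n ≤ N := by
    have : n.natAbs ≤ N := (le_max_right _ _).trans ((le_max_right _ _).trans hN)
    omega
  have hNpos : (0 : ℝ) < N := by exact_mod_cast hN1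
  set r := 1 - kap p / (4 * N) with hr
  set r' := 1 - kap p / 2 / (4 * N) with hr'
  have hr'0 : 0 ≤ r' := by
    rw [hr', sub_nonneg, div_le_one (by positivity)]
    have : (1 : ℝ) ≤ N := by exact_mod_cast hN1
    linarith
  -- modification
  have key : ∀ (k : ℕ) (x : Cfg) (c' : ℝ),
      Rep2 (qq p) θ m n ((Qf p N)^[k] f) c' (α * r' ^ k) (B * (1 - r' ^ k)) →
      |(Qf p N)^[k] f x - c'| ≤ 2 * Q * (γ * r ^ k) + (θ ^ m * (α * r' ^ k) + B) := by
    intro k x c' hc'
    set z : Cfg := fun i => if m ≤ i ∧ i < n then false else x i with hz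
    have h1 := (duale_iter1 hp hN1 hNm hmn hNn (hrep n hMn).1 k).eval hq x z (by
      intro i hi
      simp only [hz]
      rw [if_neg]
      omega)
    have h2 := hc'.eval hθ hθ1 z (by
      intro i hi1 hi2
      simp only [hz]
      rw [if_pos ⟨hi1, hi2⟩])
    have h3 : B * (1 - r' ^ k) ≤ B := by
      have := mul_nonneg hB0 (pow_nonneg hr'0 k)
      linarith
    calc |(Qf p N)^[k] f x - c'|
        = |((Qf p N)^[k] f x - (Qf p N)^[k] f z) + ((Qf p N)^[k] f z - c')| := by ring_nf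
      _ ≤ _ := (abs_add_le _ _).trans (add_le_add h1 (h2.trans (by linarith)))
  have hbound := SN_poisson_bound p hN1 ht' f x y (Finset.univ : Finset (Fin 3))
    ![4 * Q * γ, 2 * θ ^ m * α, 2 * B] ![r, r', 1] (by
      intro k
      obtain ⟨c', hc'⟩ := duale_iter2 hp hθ hθ1 hθk hN1 hNm hmn hNn (hrep n hMn).2 k
      have h1 := key k x c' hc'
      have h2 := key k y c' hc'
      have h3 : |(Qf p N)^[k] f x - (Qf p N)^[k] f y| ≤
          |(Qf p N)^[k] f x - c'| + |(Qf p N)^[k] f y - c'| := by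
        have := abs_sub_le ((Qf p N)^[k] f x) c' ((Qf p N)^[k] f y)
        rwa [abs_sub_comm c'] at this
      rw [Fin.sum_univ_three]
      simp only [Matrix.cons_val_zero, Matrix.cons_val_one, Matrix.cons_val, one_pow, mul_one]
      refine h3.trans ((add_le_add h1 h2).trans (le_of_eq ?_))
      ring)
  refine hbound.trans ?_
  rw [Fin.sum_univ_three]
  simp only [Matrix.cons_val_zero, Matrix.cons_val_one, Matrix.cons_val]
  have e1 : -(4 * N * t) * (1 - r) = -(kap p * t) := by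
    rw [hr]; field_simp; ring
  have e2 : -(4 * N * t) * (1 - r') = -(kap p / 2 * t) := by
    rw [hr']; field_simp; ring
  rw [e1, e2, sub_self, mul_zero, Real.exp_zero, mul_one]
  linarith

end H72IPS
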