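import Pool.Agent.H72.IPS.CylB

/-! # RMK: Riesz representation -/

namespace H72IPS

open Finset Filter Topology MeasureTheory

open scoped CompactlySupported

/-- a compactly supported function as an element of `CC` -/
noncomputable def rmk_toCC (f : C_c(Cfg, ℝ)) : CC := CC.mk (fun x => f x) f.continuous

theorem rmk_integral_sub_le (ρ : ProbabilityMeasure Cfg) (f g : CC) :
    |(∫ x, f x ∂(ρ : Measure Cfg)) - ∫ x, g x ∂(ρ : Measure Cfg)| ≤ ‖f - g‖ := by
  have hint : ∀ (g : CC), Integrable (fun x => g x) (ρ : Measure Cfg) := by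
    intro g
    exact BoundedContinuousFunction.integrable (ρ : Measure Cfg)
      (g : BoundedContinuousFunction Cfg ℝ)
  rw [← integral_sub (hint f) (hint g)]
  have h1 := norm_integral_le_of_norm_le_const (μ := (ρ : Measure Cfg))
    (f := fun x => f x - g x) (C := ‖f - g‖) (Eventually.of_forall (fun x => by
      rw [Real.norm_eq_abs, ← CC.sub_apply]
      exact CC.abs_le_norm (f - g) x))
  simpa using h1

/-- RMK.  Riesz-Markov-Kakutani on the compact space `Cfg`. -/
theorem exists_prob (Λ : CC →ₗ[ℝ] ℝ) (hpos : ∀ f : CC, (∀ x, 0 ≤ f x) → 0 ≤ Λ f)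
    (h1 : Λ (CC.mk (fun _ => 1) continuous_const) = 1) :
    ∃ μ : ProbabilityMeasure Cfg, ∀ f : CC, ∫ x, f x ∂(μ : Measure Cfg) = Λ f := by
  let L : C_c(Cfg, ℝ) →ₗ[ℝ] ℝ :=
    { toFun := fun f => Λ (rmk_toCC f)
      map_add' := by
        intro f g
        rw [← map_add]
        rfl
      map_smul' := by
        intro c f
        rw [← map_smul]
        rfl }
  let Λ' : C_c(Cfg, ℝ) →ₚ[ℝ] ℝ := PositiveLinearMap.mk₀ L (by
    intro f hf
    exact hpos _ (fun x => hf x))
  have key : ∀ f : CC, ∫ x, f x ∂(RealRMK.rieszMeasure Λ') = Λ f := by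
    intro f
    have h := RealRMK.integral_rieszMeasure Λ'
      (CompactlySupportedContinuousMap.continuousMapEquiv ⟨fun x => f x, f.continuous⟩)
    exact h
  let m : Measure Cfg := RealRMK.rieszMeasure Λ'
  have h2 := key (CC.mk (fun _ => 1) continuous_const)
  rw [h1] at h2
  simp only [CC.mk_apply, integral_const, smul_eq_mul, mul_one] at h2
  have hprob : IsProbabilityMeasure m := by
    constructor
    have h3 : (m Set.univ).toReal = 1 := h2
    have h4 : m Set.univ ≠ ⊤ := by
      intro h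
      rw [h] at h3
      simp at h3
    rw [← ENNReal.ofReal_toReal h4, h3, ENNReal.ofReal_one]
  exact ⟨⟨m, hprob⟩, key⟩

/-- two probability measures with the same integrals of cylinder functions coincide -/
theorem prob_ext_cyl {μ ν : ProbabilityMeasure Cfg}
    (h : ∀ f : CC, IsCyl f → ∫ x, f x ∂(μ : Measure Cfg) = ∫ x, f x ∂(ν : Measure Cfg)) : μ = ν := by
  have hall : ∀ f : CC, ∫ x, f x ∂(μ : Measure Cfg) = ∫ x, f x ∂(ν : Measure Cfg) := by
    intro f
    have : ∀ ε : ℝ, 0 < ε → |(∫ x, f x ∂(μ : Measure Cfg)) - ∫ x, f x ∂(ν : Measure Cfg)| ≤ ε := by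
      intro ε hε
      obtain ⟨g, hg, hfg⟩ := cyl_dense f (ε := ε / 2) (by positivity)
      have h1 := (rmk_integral_sub_le μ f g).trans hfg
      have h2 := (rmk_integral_sub_le ν f g).trans hfg
      rw [h g hg] at h1
      rw [abs_le] at h1 h2 ⊢
      constructor <;> linarith [h1.1, h1.2, h2.1, h2.2]
    have h0 : |(∫ x, f x ∂(μ : Measure Cfg)) - ∫ x, f x ∂(ν : Measure Cfg)| ≤ 0 :=
      le_of_forall_pos_le_add (fun ε hε => by simpa using this ε hε)
    exact sub_eq_zero.1 (abs_nonpos_iff.1 h0)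
  have : (μ : Measure Cfg) = (ν : Measure Cfg) := by
    refine MeasureTheory.ext_of_forall_integral_eq_of_IsFiniteMeasure (fun f => ?_)
    exact hall f
  exact Subtype.ext this

end H72IPS
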