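import Pool.Agent.H72.IPS.Uni
import Pool.Agent.H72.IPS.Rmk
import Pool.Agent.H72.IPS.Asy

/-! # ERG: ergodicity from asymptotic constancy -/

namespace H72IPS

open Finset Filter Topology MeasureTheory

theorem erg_PT_sub {p : Bool → Bool → ℝ} (hp : IsProb p) {t : ℝ} (ht : 0 ≤ t) (f g : CC) :
    PT p t (f - g) = PT p t f - PT p t g := by
  have h1 : f - g = f + (-1 : ℝ) • g := by
    ext x; simp; ring
  have h2 : PT p t f - PT p t g = PT p t f + (-1 : ℝ) • PT p t g := by
    ext x; simp; ring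
  rw [h1, PT_add_fun hp ht, PT_smul hp ht, h2]

/-- oscillation of `PT t f` tends to zero, cylinder functions -/
theorem erg_osc_cyl {p : Bool → Bool → ℝ} (hp : IsProb p) (h : AsympConst p) (f : CC)
    (hf : IsCyl f) (η : ℝ) (hη : 0 < η) :
    ∃ t0 : ℝ, 0 ≤ t0 ∧ ∀ t ≥ t0, ∀ x y : Cfg, |PT p t f x - PT p t f y| ≤ η := by
  obtain ⟨t0, ht0⟩ := h f hf η hη
  refine ⟨max t0 0, le_max_right _ _, fun t ht x y => ?_⟩
  have ht' : 0 ≤ t := le_trans (le_max_right _ _) ht
  obtain ⟨N0, hN0⟩ := ht0 t (le_trans (le_max_left _ _) ht)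
  have hT := PT_tendsto hp ht' f
  have hx : Tendsto (fun N : ℕ => CC.ev x (SN p N t f)) atTop (𝓝 (CC.ev x (PT p t f))) :=
    ((CC.ev x).continuous.tendsto _).comp hT
  have hy : Tendsto (fun N : ℕ => CC.ev y (SN p N t f)) atTop (𝓝 (CC.ev y (PT p t f))) :=
    ((CC.ev y).continuous.tendsto _).comp hT
  have hxy := (hx.sub hy).abs
  refine le_of_tendsto hxy ?_
  filter_upwards [eventually_ge_atTop N0] with N hN
  exact hN0 N hN x y

theorem erg_osc {p : Bool → Bool → ℝ} (hp : IsProb p) (h : AsympConst p) (f : CC)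
    (η : ℝ) (hη : 0 < η) :
    ∃ t0 : ℝ, 0 ≤ t0 ∧ ∀ t ≥ t0, ∀ x y : Cfg, |PT p t f x - PT p t f y| ≤ η := by
  obtain ⟨g, hg, hfg⟩ := cyl_dense f (ε := η / 3) (by positivity)
  obtain ⟨t0, ht0, H⟩ := erg_osc_cyl hp h g hg (η / 3) (by positivity)
  refine ⟨t0, ht0, fun t ht x y => ?_⟩
  have ht' : 0 ≤ t := le_trans ht0 ht
  have h1 : ‖PT p t f - PT p t g‖ ≤ η / 3 := by
    rw [← erg_PT_sub hp ht']
    exact (PT_norm_le hp ht' _).trans hfg
  have hx := (CC.abs_le_norm (PT p t f - PT p t g) x).trans h1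
  have hy := (CC.abs_le_norm (PT p t f - PT p t g) y).trans h1
  have hxy := H t ht x y
  rw [CC.sub_apply] at hx hy
  rw [abs_le] at hx hy hxy ⊢
  constructor <;> linarith [hx.1, hx.2, hy.1, hy.2, hxy.1, hxy.2]

theorem erg_step {p : Bool → Bool → ℝ} (hp : IsProb p) {s : ℝ} (hs : 0 ≤ s) (g : CC) (y : Cfg)
    {η : ℝ} (hη : 0 ≤ η) (hg : ∀ x, |g x - g y| ≤ η) (x : Cfg) : |PT p s g x - g y| ≤ η := by
  have h1 : ‖g - CC.mk (fun _ => g y) continuous_const‖ ≤ η :=
    CC.norm_le hη (fun x => by simpa using hg x)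
  have h2 := (CC.abs_le_norm (PT p s (g - CC.mk (fun _ => g y) continuous_const)) x).trans
    ((PT_norm_le hp hs _).trans h1)
  rw [erg_PT_sub hp hs, PT_const hp hs] at h2
  simpa using h2

theorem erg_step2 {p : Bool → Bool → ℝ} (hp : IsProb p) (h : AsympConst p) (f : CC)
    (η : ℝ) (hη : 0 < η) :
    ∃ t0 : ℝ, 0 ≤ t0 ∧ ∀ t ≥ t0, ∀ s ≥ t, ∀ x y : Cfg, |PT p s f x - PT p t f y| ≤ η := by
  obtain ⟨t0, ht0, H⟩ := erg_osc hp h f η hη
  refine ⟨t0, ht0, fun t ht s hs x y => ?_⟩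
  have h1 : s = (s - t) + t := by ring
  rw [h1, PT_semigroup hp (by linarith) (by linarith)]
  exact erg_step hp (by linarith) _ y hη.le (fun x => H t ht x y) x

/-- the limit exists -/
theorem erg_limit {p : Bool → Bool → ℝ} (hp : IsProb p) (h : AsympConst p) (f : CC) :
    ∃ c : ℝ, ∀ x : Cfg, Tendsto (fun t : ℝ => PT p t f x) atTop (𝓝 c) := by
  have x0 : Cfg := fun _ => false
  have hC : CauchySeq (fun t : ℝ => PT p t f x0) := by
    rw [Metric.cauchySeq_iff']
    intro ε hε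
    obtain ⟨t0, ht0, H⟩ := erg_step2 hp h f (ε / 2) (by positivity)
    refine ⟨t0, fun t ht => ?_⟩
    rw [Real.dist_eq]
    exact lt_of_le_of_lt (H t0 le_rfl t ht x0 x0) (by linarith)
  obtain ⟨c, hc⟩ := cauchySeq_tendsto_of_complete hC
  refine ⟨c, fun x => ?_⟩
  rw [Metric.tendsto_atTop] at hc ⊢
  intro ε hε
  obtain ⟨t1, ht1⟩ := hc (ε / 2) (by positivity)
  obtain ⟨t0, ht0, H⟩ := erg_osc hp h f (ε / 3) (by positivity)
  refine ⟨max t0 t1, fun t ht => ?_⟩
  have h1 := ht1 t (le_trans (le_max_right _ _) ht)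
  have h2 := H t (le_trans (le_max_left _ _) ht) x x0
  rw [Real.dist_eq] at h1 ⊢
  have : PT p t f x - c = (PT p t f x - PT p t f x0) + (PT p t f x0 - c) := by ring
  rw [this]
  refine lt_of_le_of_lt (abs_add_le _ _) ?_
  linarith

/-- ERG.  `osc (PT t f) → 0` for cylinder `f`, hence for all `f` (density, contraction);
`|PT (s+t) f x - PT t f x| ≤ osc (PT t f)`, so `PT t f x` converges to a constant `Λ f`, which is linear,
positive and unital: `exists_prob`.  Conclude with `evolution_eq`, density and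
`ProbabilityMeasure.tendsto_iff_forall_integral_tendsto`. -/
theorem ergodic_of_asympConst {p : Bool → Bool → ℝ} (hp : IsProb p) (h : AsympConst p) :
    Ergodic p := by
  classical
  choose L hL using erg_limit hp h
  let x0 : Cfg := fun _ => false
  have hev : ∀ᶠ t : ℝ in atTop, 0 ≤ t := eventually_ge_atTop 0
  let Λ : CC →ₗ[ℝ] ℝ :=
    { toFun := L
      map_add' := by
        intro f g
        refine tendsto_nhds_unique (hL (f + g) x0) ?_
        refine ((hL f x0).add (hL g x0)).congr' ?_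
        filter_upwards [hev] with t ht
        rw [PT_add_fun hp ht, CC.add_apply]
      map_smul' := by
        intro c f
        refine tendsto_nhds_unique (hL (c • f) x0) ?_
        refine ((hL f x0).const_mul c).congr' ?_
        filter_upwards [hev] with t ht
        rw [PT_smul hp ht, CC.smul_apply] }
  have hΛ : ∀ f, Λ f = L f := fun _ => rfl
  obtain ⟨π, hπ⟩ := exists_prob Λ (by
      intro f hf
      rw [hΛ]
      refine ge_of_tendsto (hL f x0) ?_
      filter_upwards [hev] with t ht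
      exact PT_nonneg hp ht hf x0) (by
      rw [hΛ]
      refine tendsto_nhds_unique (hL _ x0) ?_
      refine tendsto_const_nhds.congr' ?_
      filter_upwards [hev] with t ht
      rw [PT_const hp ht]
      rfl)
  refine ⟨π, fun ζ μ hμ => ?_⟩
  rw [ProbabilityMeasure.tendsto_iff_forall_integral_tendsto]
  intro f
  have hint : ∀ (ρ : ProbabilityMeasure Cfg) (g : CC), Integrable (fun x => g x) (ρ : Measure Cfg) := by
    intro ρ g
    exact BoundedContinuousFunction.integrable (ρ : Measure Cfg)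
      (g : BoundedContinuousFunction Cfg ℝ)
  have hdiff : ∀ (ρ : ProbabilityMeasure Cfg) (f g : CC),
      |(∫ x, f x ∂(ρ : Measure Cfg)) - ∫ x, g x ∂(ρ : Measure Cfg)| ≤ ‖f - g‖ := by
    intro ρ f g
    rw [← integral_sub (hint ρ f) (hint ρ g)]
    have h1 := norm_integral_le_of_norm_le_const (μ := (ρ : Measure Cfg))
      (f := fun x => f x - g x) (C := ‖f - g‖) (Eventually.of_forall (fun x => by
        rw [Real.norm_eq_abs, ← CC.sub_apply]
        exact CC.abs_le_norm (f - g) x))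
    simpa using h1
  let F : CC := f
  have hF : ∀ ρ : ProbabilityMeasure Cfg, ∫ x, f x ∂(ρ : Measure Cfg) = ∫ x, F x ∂(ρ : Measure Cfg) :=
    fun _ => rfl
  rw [Metric.tendsto_atTop]
  intro ε hε
  obtain ⟨g, hg, hfg⟩ := cyl_dense F (ε := ε / 4) (by positivity)
  have hgl := hL g ζ
  rw [Metric.tendsto_atTop] at hgl
  obtain ⟨t1, ht1⟩ := hgl (ε / 4) (by positivity)
  refine ⟨max t1 0, fun t ht => ?_⟩
  have ht0 : 0 ≤ t := le_trans (le_max_right _ _) ht
  have h1 := ht1 t (le_trans (le_max_left _ _) ht)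
  rw [← evolution_eq hp hμ g hg ht0, ← hΛ, ← hπ, Real.dist_eq] at h1
  have h2 := (hdiff (μ t) F g).trans hfg
  have h3 := (hdiff π F g).trans hfg
  rw [hF, hF, Real.dist_eq]
  rw [abs_lt] at h1 ⊢
  rw [abs_le] at h2 h3
  constructor <;> linarith [h1.1, h1.2, h2.1, h2.2, h3.1, h3.2]

end H72IPS
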