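import Pool.Agent.H72.IPS.Lim

/-! # FWD: the forward equation of the limit semigroup -/

namespace H72IPS

open Finset Filter Topology MeasureTheory

/-- the generator of a cylinder function as a continuous function -/
noncomputable def genC (p : Bool → Bool → ℝ) (f : Cfg → ℝ) (hf : IsCyl f) : CC :=
  CC.mk (gen p f) (gen_isCyl p hf).continuous

/-- the finite volume generator of a cylinder function is eventually the generator -/
theorem fwd_AN_eq (p : Bool → Bool → ℝ) (f : CC) (hf : IsCyl f) :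
    ∃ N1 : ℕ, ∀ N : ℕ, N1 ≤ N → AN p N f = genC p f hf := by
  obtain ⟨S, hS⟩ := id hf
  obtain ⟨N1, hN1⟩ : ∃ N1 : ℕ, ∀ i ∈ S, |i| < (N1 : ℤ) := by
    refine ⟨S.sup (fun i => i.natAbs) + 1, fun i hi => ?_⟩
    have h := Finset.le_sup (f := fun i : ℤ => i.natAbs) hi
    have h' : i.natAbs ≤ S.sup (fun i => i.natAbs) := h
    rw [Int.abs_eq_natAbs]
    exact_mod_cast Nat.lt_succ_of_le h'
  refine ⟨N1, fun N hN => ?_⟩
  have hST : S ⊆ Finset.Ico (-(N : ℤ)) N := by
    intro i hi
    have h := abs_lt.1 (hN1 i hi)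
    have h2 : (N1 : ℤ) ≤ N := by exact_mod_cast hN
    rw [Finset.mem_Ico]
    omega
  ext x
  rw [AN_apply]
  exact (gen_eq_sum p hS hST x).symm

theorem fwd_hasDerivAt (p : Bool → Bool → ℝ) (N : ℕ) (t : ℝ) (f : CC) (x : Cfg) :
    HasDerivAt (fun s => SN p N s f x) (SN p N t (AN p N f) x) t := by
  have h := (CC.ev x).hasFDerivAt.comp_hasDerivAt t (SN_hasDerivAt p N t f)
  exact h

theorem fwd_cont (p : Bool → Bool → ℝ) (N : ℕ) (f : CC) (x : Cfg) :
    Continuous (fun s => SN p N s f x) :=
  continuous_iff_continuousAt.2 fun t => (fwd_hasDerivAt p N t f x).continuousAt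

theorem fwd_exp_tendsto : Tendsto (fun N : ℕ => Real.exp (-(N : ℝ))) atTop (𝓝 0) :=
  Real.tendsto_exp_neg_atTop_nhds_zero.comp tendsto_natCast_atTop_atTop

theorem fwd_continuousOn {p : Bool → Bool → ℝ} (hp : IsProb p) (g : CC) (hg : IsCyl g) (x : Cfg) :
    ContinuousOn (fun s => PT p s g x) (Set.Ici 0) := by
  intro t ht
  have ht : 0 ≤ t := ht
  obtain ⟨N0, C, -, hC, h⟩ := PT_unif hp g hg (t + 1)
  have hunif : TendstoUniformlyOn (fun (N : ℕ) s => SN p N s g x) (fun s => PT p s g x) atTop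
      (Set.Icc 0 (t + 1)) := by
    rw [Metric.tendstoUniformlyOn_iff]
    intro ε hε
    have h1 : Tendsto (fun N : ℕ => C * Real.exp (-(N : ℝ))) atTop (𝓝 (C * 0)) :=
      fwd_exp_tendsto.const_mul C
    rw [mul_zero] at h1
    filter_upwards [eventually_ge_atTop N0, h1.eventually (gt_mem_nhds hε)] with N hN hlt s hs
    have h2 := h N hN s hs
    have h3 := CC.abs_le_norm (PT p s g - SN p N s g) x
    rw [Real.dist_eq]
    exact lt_of_le_of_lt (h3.trans h2) hlt
  have h4 := hunif.continuousOn (Frequently.of_forall fun N => (fwd_cont p N g x).continuousOn)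
  refine (h4 t ⟨ht, by linarith⟩).mono_of_mem_nhdsWithin ?_
  rw [mem_nhdsWithin]
  refine ⟨Set.Iio (t + 1), isOpen_Iio, by show t < t + 1; linarith, ?_⟩
  rintro s ⟨h1, h2⟩
  exact ⟨h2, le_of_lt h1⟩

theorem fwd_integral {p : Bool → Bool → ℝ} (hp : IsProb p) (f : CC) (hf : IsCyl f) (x : Cfg) {t : ℝ}
    (ht : 0 ≤ t) :
    PT p t f x = f x + ∫ s in (0 : ℝ)..t, PT p (max s 0) (genC p f hf) x := by
  have hg : IsCyl (genC p f hf) := gen_isCyl p hf
  obtain ⟨N1, hN1⟩ := fwd_AN_eq p f hf
  obtain ⟨N0, C, -, hC, hu⟩ := PT_unif hp (genC p f hf) hg t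
  have hcont : Continuous (fun s => PT p (max s 0) (genC p f hf) x) :=
    (fwd_continuousOn hp _ hg x).comp_continuous (continuous_id.max continuous_const)
      (fun s => Set.mem_Ici.2 (le_max_right _ _))
  have h1 : ∀ N : ℕ, N1 ≤ N → SN p N t f x = f x + ∫ s in (0 : ℝ)..t, SN p N s (genC p f hf) x := by
    intro N hN
    have hd : ∀ s ∈ Set.uIcc 0 t, HasDerivAt (fun s => SN p N s f x)
        (SN p N s (genC p f hf) x) s := by
      intro s _
      have := fwd_hasDerivAt p N s f x
      rwa [hN1 N hN] at this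
    have h2 := intervalIntegral.integral_eq_sub_of_hasDerivAt hd
      ((fwd_cont p N _ x).intervalIntegrable _ _)
    rw [h2, SN_zero]
    show _ = f x + (_ - f x)
    ring
  have h2 : Tendsto (fun N : ℕ => SN p N t f x) atTop (𝓝 (PT p t f x)) :=
    ((CC.ev x).continuous.tendsto _).comp (PT_tendsto hp ht f)
  have h3 : Tendsto (fun N : ℕ => f x + ∫ s in (0 : ℝ)..t, SN p N s (genC p f hf) x) atTop
      (𝓝 (f x + ∫ s in (0 : ℝ)..t, PT p (max s 0) (genC p f hf) x)) := by
    refine tendsto_const_nhds.add ?_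
    rw [tendsto_iff_norm_sub_tendsto_zero]
    have h5 : Tendsto (fun N : ℕ => C * Real.exp (-(N : ℝ)) * |t - 0|) atTop (𝓝 0) := by
      have := (fwd_exp_tendsto.const_mul C).mul_const |t - 0|
      rw [mul_zero, zero_mul] at this
      exact this
    refine squeeze_zero' (Eventually.of_forall fun _ => norm_nonneg _) ?_ h5
    filter_upwards [eventually_ge_atTop N0] with N hN
    rw [← intervalIntegral.integral_sub ((fwd_cont p N _ x).intervalIntegrable _ _)
      (hcont.intervalIntegrable _ _)]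
    refine intervalIntegral.norm_integral_le_of_norm_le_const fun s hs => ?_
    rw [Set.uIoc_of_le ht] at hs
    have h6 := hu N hN s ⟨hs.1.le, hs.2⟩
    have h7 := CC.abs_le_norm (PT p s (genC p f hf) - SN p N s (genC p f hf)) x
    rw [max_eq_left hs.1.le, ← norm_neg, neg_sub]
    exact h7.trans h6
  refine tendsto_nhds_unique h2 (h3.congr' ?_)
  filter_upwards [eventually_ge_atTop N1] with N hN
  exact (h1 N hN).symm

/-- FWD.  For large `N` one has `AN p N f = genC p f hf`, so `SN p N t f - f = ∫_0^t SN p N s (genC f) ds`;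
let `N → ∞` with `PT_unif` (for `f` and for the cylinder function `gen p f`) and differentiate. -/
theorem PT_forward {p : Bool → Bool → ℝ} (hp : IsProb p) (f : CC) (hf : IsCyl f) (x : Cfg) {t : ℝ}
    (ht : 0 ≤ t) :
    HasDerivWithinAt (fun s => PT p s f x) (PT p t (genC p f hf) x) (Set.Ici 0) t := by
  have hg : IsCyl (genC p f hf) := gen_isCyl p hf
  have hcont : Continuous (fun s => PT p (max s 0) (genC p f hf) x) :=
    (fwd_continuousOn hp _ hg x).comp_continuous (continuous_id.max continuous_const)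
      (fun s => Set.mem_Ici.2 (le_max_right _ _))
  have h1 : HasDerivAt (fun u => f x + ∫ s in (0 : ℝ)..u, PT p (max s 0) (genC p f hf) x)
      (PT p (max t 0) (genC p f hf) x) t :=
    (intervalIntegral.integral_hasDerivAt_right (hcont.intervalIntegrable _ _)
      (hcont.stronglyMeasurableAtFilter _ _) hcont.continuousAt).const_add _
  rw [max_eq_left ht] at h1
  exact h1.hasDerivWithinAt.congr (fun s hs => fwd_integral hp f hf x hs)
    (fwd_integral hp f hf x ht)

end H72IPS
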