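import Pool.Agent.H72.IPS.SemA

/-! # INF: influence bounds (finite speed of propagation) -/

namespace H72IPS

open Finset

theorem inf_rate_mem {p : Bool → Bool → ℝ} (hp : IsProb p) (x : Cfg) (j : ℤ) :
    0 ≤ rate p x j ∧ rate p x j ≤ 1 := ⟨cr_nonneg hp _ _, cr_le_one hp _ _⟩

theorem inf_flip_update (x : Cfg) (j k : ℤ) (b : Bool) (hjk : j ≠ k) :
    flip (Function.update x k b) j = Function.update (flip x j) k b := by
  unfold flip
  rw [Function.update_of_ne hjk, Function.update_comm hjk]

theorem inf_term {p : Bool → Bool → ℝ} (hp : IsProb p) (g : Cfg → ℝ)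
    (δ : ℤ → ℝ) (hδ : ∀ k x, |dd g k x| ≤ δ k) (k : ℤ) (x : Cfg) (j : ℤ) :
    |2 * dd g k x + (rate p (Function.update x k true) j *
        (g (flip (Function.update x k true) j) - g (Function.update x k true)) -
      rate p (Function.update x k false) j *
        (g (flip (Function.update x k false) j) - g (Function.update x k false)))| ≤
      2 * δ k + if j = k - 1 then δ (k - 1) else 0 := by
  set u : Cfg := Function.update x k true with hu
  set v : Cfg := Function.update x k false with hv
  set D : ℝ := dd g k x with hD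
  have hDuv : D = g u - g v := rfl
  have hδk : ∀ y, |dd g k y| ≤ δ k := hδ k
  have hδ0 : ∀ i, 0 ≤ δ i := fun i => (abs_nonneg _).trans (hδ i x)
  obtain ⟨hru0, hru1⟩ := inf_rate_mem hp u j
  obtain ⟨hrv0, hrv1⟩ := inf_rate_mem hp v j
  by_cases hjk : j = k
  · subst hjk
    have h1 : flip u j = v := by
      rw [flip_of_true (by rw [hu]; simp), hu, hv, Function.update_idem]
    have h2 : flip v j = u := by
      rw [flip_of_false (by rw [hv]; simp), hu, hv, Function.update_idem]
    rw [h1, h2]
    have h3 : 2 * D + (rate p u j * (g v - g u) - rate p v j * (g u - g v)) =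
        (2 - rate p u j - rate p v j) * D := by rw [hDuv]; ring
    rw [h3, abs_mul, abs_of_nonneg (by linarith)]
    have h4 : (if j = j - 1 then δ (j - 1) else 0) = 0 := if_neg (by omega)
    rw [h4, add_zero]
    have := hδk x
    rw [← hD] at this
    calc (2 - rate p u j - rate p v j) * |D| ≤ 2 * |D| := by
          gcongr
          linarith
      _ ≤ 2 * δ j := by gcongr
  · have hD' : g (flip u j) - g (flip v j) = dd g k (flip x j) := by
      rw [hu, hv, inf_flip_update x j k true hjk, inf_flip_update x j k false hjk]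
      rfl
    set D' : ℝ := dd g k (flip x j) with hD'def
    have hb1 : |D| ≤ δ k := hδk x
    have hb2 : |D'| ≤ δ k := hδk _
    have h5 : 2 * D + (rate p u j * (g (flip u j) - g u) - rate p v j * (g (flip v j) - g v)) =
        ((2 - rate p v j) * D + rate p v j * D') +
          (rate p u j - rate p v j) * (g (flip u j) - g u) := by
      rw [hDuv, ← hD']
      ring
    have h6 : |(2 - rate p v j) * D + rate p v j * D'| ≤ 2 * δ k := by
      refine (abs_add_le _ _).trans ?_
      rw [abs_mul, abs_mul, abs_of_nonneg (by linarith : 0 ≤ 2 - rate p v j),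
        abs_of_nonneg hrv0]
      calc (2 - rate p v j) * |D| + rate p v j * |D'| ≤
            (2 - rate p v j) * δ k + rate p v j * δ k := by
              gcongr
              linarith
        _ = 2 * δ k := by ring
    rw [h5]
    refine (abs_add_le _ _).trans (add_le_add h6 ?_)
    by_cases hj : j = k - 1
    · rw [if_pos hj, abs_mul, abs_flip_sub, ← hj]
      have h7 : |rate p u j - rate p v j| ≤ 1 := by
        rw [abs_le]
        constructor <;> linarith
      calc |rate p u j - rate p v j| * |dd g j u| ≤ 1 * δ j := by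
            gcongr
            exact hδ j u
        _ = δ j := one_mul _
    · rw [if_neg hj]
      have h8 : rate p u j = rate p v j := by
        unfold rate
        rw [hu, hv, Function.update_of_ne hjk, Function.update_of_ne hjk,
          Function.update_of_ne (by omega), Function.update_of_ne (by omega)]
      rw [h8, sub_self, zero_mul, abs_zero]

/-- One step: put `u = update x k true`, `v = update x k false`, `c = 4N`, `q_u, q_v` the rates of
`k - 1` in `u, v`.  For `j ∉ {k-1, k}` both copies have the same rate `c_j`.  Then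
`dd (Qf g) k x = (g u - g v) (1 - (a_y + b_y)/c - (sum_{j ≠ k} c_j)/c) + (1/c) sum_{j ≠ k} c_j
(g u^j - g v^j) + (1/c) (q_u - q_v) (g u^{k-1} - g u)`, where `c_{k-1} := q_v`, `y = x (k+1)`, and the
terms of `j = k` (`j = k-1`) are only present when `k` (`k - 1`) belongs to the window; all
coefficients of the first two kinds are nonnegative with sum at most one, `|q_u - q_v| ≤ 1`. -/
theorem dd_Qf_le {p : Bool → Bool → ℝ} (hp : IsProb p) {N : ℕ} (hN : 1 ≤ N) (g : Cfg → ℝ)
    (δ : ℤ → ℝ) (hδ : ∀ k x, |dd g k x| ≤ δ k) (k : ℤ) (x : Cfg) :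
    |dd (Qf p N g) k x| ≤ δ k + (4 * (N : ℝ))⁻¹ * δ (k - 1) := by
  have hN' : (0 : ℝ) < N := by exact_mod_cast hN
  have hc : (0 : ℝ) < 4 * (N : ℝ) := by positivity
  have hδ0 : ∀ i, 0 ≤ δ i := fun i => (abs_nonneg _).trans (hδ i x)
  have hcard : ((Finset.Ico (-(N : ℤ)) N).card : ℝ) = 2 * N := by
    rw [Int.card_Ico]
    have : ((N : ℤ) - -(N : ℤ)).toNat = 2 * N := by omega
    rw [this]
    push_cast
    ring
  have h1 : dd (Qf p N g) k x = (4 * (N : ℝ))⁻¹ * ∑ j ∈ Finset.Ico (-(N : ℤ)) N,
      (2 * dd g k x + (rate p (Function.update x k true) j *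
        (g (flip (Function.update x k true) j) - g (Function.update x k true)) -
      rate p (Function.update x k false) j *
        (g (flip (Function.update x k false) j) - g (Function.update x k false)))) := by
    rw [Finset.sum_add_distrib, Finset.sum_const, nsmul_eq_mul, hcard, Finset.sum_sub_distrib]
    unfold dd Qf
    field_simp
    ring
  rw [h1, abs_mul, abs_of_pos (inv_pos.2 hc)]
  calc (4 * (N : ℝ))⁻¹ * |∑ j ∈ Finset.Ico (-(N : ℤ)) N,
      (2 * dd g k x + (rate p (Function.update x k true) j *
        (g (flip (Function.update x k true) j) - g (Function.update x k true)) -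
      rate p (Function.update x k false) j *
        (g (flip (Function.update x k false) j) - g (Function.update x k false))))| ≤
      (4 * (N : ℝ))⁻¹ * ∑ j ∈ Finset.Ico (-(N : ℤ)) N,
        (2 * δ k + if j = k - 1 then δ (k - 1) else 0) := by
        gcongr
        refine (Finset.abs_sum_le_sum_abs _ _).trans (Finset.sum_le_sum fun j _ => ?_)
        exact inf_term hp g δ hδ k x j
    _ ≤ (4 * (N : ℝ))⁻¹ * (2 * N * (2 * δ k) + δ (k - 1)) := by
        gcongr
        rw [Finset.sum_add_distrib, Finset.sum_const, nsmul_eq_mul, hcard]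
        gcongr
        rw [Finset.sum_ite_eq']
        split_ifs
        · exact le_rfl
        · exact hδ0 _
    _ = δ k + (4 * (N : ℝ))⁻¹ * δ (k - 1) := by
        field_simp
        ring

/-- iterate with exponential weights -/
theorem dd_iter {p : Bool → Bool → ℝ} (hp : IsProb p) {N : ℕ} (hN : 1 ≤ N) (g : Cfg → ℝ) (m : ℤ)
    {K : ℝ} (h0 : ∀ k < m, ∀ x, dd g k x = 0) (h : ∀ (k : ℤ) x, |dd g k x| ≤ K * Real.exp (-(k : ℝ)))
    (n : ℕ) :
    (∀ k < m, ∀ x, dd ((Qf p N)^[n] g) k x = 0) ∧
    ∀ (k : ℤ) x, |dd ((Qf p N)^[n] g) k x|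
      ≤ K * Real.exp (-(k : ℝ)) * (1 + Real.exp 1 / (4 * N)) ^ n := by
  have hN' : (0 : ℝ) < N := by exact_mod_cast hN
  have hc : (0 : ℝ) < 4 * (N : ℝ) := by positivity
  have hK : 0 ≤ K := by
    have h1 := (abs_nonneg _).trans (h 0 (fun _ => true))
    simpa using h1
  have hρ : (0 : ℝ) < 1 + Real.exp 1 / (4 * N) := by positivity
  induction n with
  | zero =>
    refine ⟨h0, fun k x => ?_⟩
    rw [pow_zero, mul_one]
    exact h k x
  | succ n ih =>
    obtain ⟨ih0, ih1⟩ := ih
    set G : Cfg → ℝ := (Qf p N)^[n] g with hG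
    set ρ : ℝ := 1 + Real.exp 1 / (4 * N) with hρdef
    set δ : ℤ → ℝ := fun k => if k < m then 0 else K * Real.exp (-(k : ℝ)) * ρ ^ n with hδ
    have hδG : ∀ k x, |dd G k x| ≤ δ k := by
      intro k x
      rw [hδ]
      simp only
      split_ifs with hk
      · rw [ih0 k hk x, abs_zero]
      · exact ih1 k x
    have hδle : ∀ k : ℤ, δ k ≤ K * Real.exp (-(k : ℝ)) * ρ ^ n := by
      intro k
      rw [hδ]
      simp only
      split_ifs with hk
      · positivity
      · exact le_rfl
    have hstep := dd_Qf_le hp hN G δ hδG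
    rw [Function.iterate_succ_apply', ← hG]
    constructor
    · intro k hk x
      have h1 := hstep k x
      have h2 : δ k = 0 := if_pos hk
      have h3 : δ (k - 1) = 0 := if_pos (by omega)
      rw [h2, h3, mul_zero, add_zero] at h1
      exact abs_eq_zero.1 (le_antisymm h1 (abs_nonneg _))
    · intro k x
      refine (hstep k x).trans ?_
      calc δ k + (4 * (N : ℝ))⁻¹ * δ (k - 1) ≤ K * Real.exp (-(k : ℝ)) * ρ ^ n +
            (4 * (N : ℝ))⁻¹ * (K * Real.exp (-((k - 1 : ℤ) : ℝ)) * ρ ^ n) := by
            gcongr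
            · exact hδle k
            · exact hδle (k - 1)
        _ = K * Real.exp (-(k : ℝ)) * ρ ^ (n + 1) := by
            have h4 : Real.exp (-((k - 1 : ℤ) : ℝ)) = Real.exp (-(k : ℝ)) * Real.exp 1 := by
              rw [← Real.exp_add]
              congr 1
              push_cast
              ring
            rw [h4, pow_succ, hρdef]
            field_simp

/-- influence bound for the semigroup, from `dd_iter` and `SN_poisson_bound` -/
theorem dd_SN {p : Bool → Bool → ℝ} (hp : IsProb p) {N : ℕ} (hN : 1 ≤ N) {t : ℝ} (ht : 0 ≤ t)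
    (f : CC) (m : ℤ) {K : ℝ} (h0 : ∀ k < m, ∀ x, dd f k x = 0)
    (h : ∀ (k : ℤ) x, |dd f k x| ≤ K * Real.exp (-(k : ℝ))) :
    (∀ k < m, ∀ x, dd (SN p N t f) k x = 0) ∧
    ∀ (k : ℤ) x, |dd (SN p N t f) k x| ≤ K * Real.exp (-(k : ℝ) + Real.exp 1 * t) := by
  have hN' : (0 : ℝ) < N := by exact_mod_cast hN
  have hit := dd_iter hp hN (f : Cfg → ℝ) m h0 h
  constructor
  · intro k hk x
    have h1 := SN_poisson_bound p hN ht f (Function.update x k true) (Function.update x k false)
      (ι := Unit) ∅ (fun _ => 0) (fun _ => 0) (fun n => by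
        have h2 := (hit n).1 k hk x
        unfold dd at h2
        rw [h2, abs_zero, Finset.sum_empty])
    rw [Finset.sum_empty] at h1
    exact abs_eq_zero.1 (le_antisymm h1 (abs_nonneg _))
  · intro k x
    have h1 := SN_poisson_bound p hN ht f (Function.update x k true) (Function.update x k false)
      (ι := Unit) {()} (fun _ => K * Real.exp (-(k : ℝ)))
      (fun _ => 1 + Real.exp 1 / (4 * N)) (fun n => by
        rw [Finset.sum_singleton]
        exact (hit n).2 k x)
    rw [Finset.sum_singleton] at h1
    refine h1.trans (le_of_eq ?_)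
    rw [mul_assoc, ← Real.exp_add]
    congr 2
    field_simp
    ring

end H72IPS
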