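import Pool.Agent.H72.IPS.Cau
import Pool.Agent.H72.IPS.CylB

/-! # LIM: the infinite volume semigroup -/

namespace H72IPS

open Finset Filter Topology

/-- the infinite volume semigroup -/
noncomputable def PT (p : Bool → Bool → ℝ) (t : ℝ) (f : CC) : CC :=
  limUnder atTop (fun N : ℕ => SN p N t f)

private theorem lim_cauchySeq {p : Bool → Bool → ℝ} (hp : IsProb p) {t : ℝ} (ht : 0 ≤ t) (f : CC) :
    CauchySeq (fun N : ℕ => SN p N t f) := by
  rw [Metric.cauchySeq_iff']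
  intro ε hε
  obtain ⟨g, hg, hfg⟩ := cyl_dense f (ε := ε / 4) (by positivity)
  obtain ⟨N0, C, hN0, hC, hcau⟩ := SN_cauchy hp g hg t
  have hlim : Tendsto (fun N : ℕ => C * Real.exp (-(N : ℝ))) atTop (𝓝 0) := by
    have h1 : Tendsto (fun N : ℕ => Real.exp (-(N : ℝ))) atTop (𝓝 0) :=
      Real.tendsto_exp_neg_atTop_nhds_zero.comp tendsto_natCast_atTop_atTop
    simpa using h1.const_mul C
  have hev : ∀ᶠ N : ℕ in atTop, C * Real.exp (-(N : ℝ)) < ε / 4 :=
    (tendsto_order.1 hlim).2 _ (by positivity)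
  obtain ⟨N1, hN1⟩ := eventually_atTop.1 hev
  refine ⟨max N0 N1, fun N hN => ?_⟩
  set M := max N0 N1 with hM
  have hM1 : N1 ≤ M := le_max_right _ _
  have hM0 : N0 ≤ M := le_max_left _ _
  have hcau' := hcau M N hM0 hN t ⟨ht, le_rfl⟩
  have hsmall := hN1 M hM1
  rw [dist_eq_norm]
  have h1M : 1 ≤ M := hN0.trans hM0
  have h1N : 1 ≤ N := h1M.trans hN
  have e1 := SN_norm_le hp h1N ht (f - g)
  have e2 := SN_norm_le hp h1M ht (f - g)
  have key : SN p N t f - SN p M t f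
      = SN p N t (f - g) + (SN p N t g - SN p M t g) - SN p M t (f - g) := by
    rw [map_sub, map_sub]; abel
  rw [key]
  calc ‖SN p N t (f - g) + (SN p N t g - SN p M t g) - SN p M t (f - g)‖
      ≤ ‖SN p N t (f - g) + (SN p N t g - SN p M t g)‖ + ‖SN p M t (f - g)‖ := norm_sub_le _ _
    _ ≤ ‖SN p N t (f - g)‖ + ‖SN p N t g - SN p M t g‖ + ‖SN p M t (f - g)‖ := by
        gcongr
        exact norm_add_le _ _
    _ < ε := by linarith

theorem PT_tendsto {p : Bool → Bool → ℝ} (hp : IsProb p) {t : ℝ} (ht : 0 ≤ t) (f : CC) :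
    Tendsto (fun N : ℕ => SN p N t f) atTop (𝓝 (PT p t f)) :=
  CauchySeq.tendsto_limUnder (lim_cauchySeq hp ht f)

theorem PT_unif {p : Bool → Bool → ℝ} (hp : IsProb p) (f : CC) (hf : IsCyl f) (T : ℝ) :
    ∃ (N0 : ℕ) (C : ℝ), 1 ≤ N0 ∧ 0 ≤ C ∧ ∀ N : ℕ, N0 ≤ N → ∀ t ∈ Set.Icc 0 T,
      ‖PT p t f - SN p N t f‖ ≤ C * Real.exp (-(N : ℝ)) := by
  obtain ⟨N0, C, hN0, hC, hcau⟩ := SN_cauchy hp f hf T
  refine ⟨N0, C, hN0, hC, fun N hN t ht => ?_⟩
  have h1 : Tendsto (fun N' : ℕ => ‖SN p N' t f - SN p N t f‖) atTop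
      (𝓝 ‖PT p t f - SN p N t f‖) :=
    ((PT_tendsto hp ht.1 f).sub_const _).norm
  refine le_of_tendsto h1 ?_
  filter_upwards [eventually_ge_atTop N] with N' hN'
  exact hcau N N' hN hN' t ht

theorem PT_add_fun {p : Bool → Bool → ℝ} (hp : IsProb p) {t : ℝ} (ht : 0 ≤ t) (f g : CC) :
    PT p t (f + g) = PT p t f + PT p t g := by
  refine tendsto_nhds_unique (PT_tendsto hp ht (f + g)) ?_
  have h := (PT_tendsto hp ht f).add (PT_tendsto hp ht g)
  refine h.congr (fun N => ?_)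
  rw [map_add]

theorem PT_smul {p : Bool → Bool → ℝ} (hp : IsProb p) {t : ℝ} (ht : 0 ≤ t) (c : ℝ) (f : CC) :
    PT p t (c • f) = c • PT p t f := by
  refine tendsto_nhds_unique (PT_tendsto hp ht (c • f)) ?_
  have h := (PT_tendsto hp ht f).const_smul c
  refine h.congr (fun N => ?_)
  rw [map_smul]

private theorem lim_tendsto_apply {p : Bool → Bool → ℝ} (hp : IsProb p) {t : ℝ} (ht : 0 ≤ t)
    (f : CC) (x : Cfg) : Tendsto (fun N : ℕ => SN p N t f x) atTop (𝓝 (PT p t f x)) :=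
  ((CC.ev x).continuous.tendsto (PT p t f)).comp (PT_tendsto hp ht f)

theorem PT_nonneg {p : Bool → Bool → ℝ} (hp : IsProb p) {t : ℝ} (ht : 0 ≤ t) {f : CC}
    (hf : ∀ x, 0 ≤ f x) (x : Cfg) : 0 ≤ PT p t f x := by
  refine ge_of_tendsto (lim_tendsto_apply hp ht f x) ?_
  filter_upwards [eventually_ge_atTop 1] with N hN
  exact SN_nonneg hp hN ht hf x

theorem PT_const {p : Bool → Bool → ℝ} (hp : IsProb p) {t : ℝ} (ht : 0 ≤ t) (c : ℝ) :
    PT p t (CC.mk (fun _ => c) continuous_const) = CC.mk (fun _ => c) continuous_const := by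
  refine tendsto_nhds_unique (PT_tendsto hp ht _) ?_
  refine tendsto_const_nhds.congr' ?_
  filter_upwards [eventually_ge_atTop 1] with N hN
  exact (SN_const p hN t c).symm

theorem PT_norm_le {p : Bool → Bool → ℝ} (hp : IsProb p) {t : ℝ} (ht : 0 ≤ t) (f : CC) :
    ‖PT p t f‖ ≤ ‖f‖ := by
  refine le_of_tendsto (PT_tendsto hp ht f).norm ?_
  filter_upwards [eventually_ge_atTop 1] with N hN
  exact SN_norm_le hp hN ht f

theorem PT_zero {p : Bool → Bool → ℝ} (hp : IsProb p) (f : CC) : PT p 0 f = f := by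
  refine tendsto_nhds_unique (PT_tendsto hp le_rfl f) ?_
  refine tendsto_const_nhds.congr (fun N => ?_)
  rw [SN_zero]
  rfl

theorem PT_semigroup {p : Bool → Bool → ℝ} (hp : IsProb p) {s t : ℝ} (hs : 0 ≤ s) (ht : 0 ≤ t)
    (f : CC) : PT p (s + t) f = PT p s (PT p t f) := by
  refine tendsto_nhds_unique (PT_tendsto hp (add_nonneg hs ht) f) ?_
  have h1 : Tendsto (fun N : ℕ => SN p N s (PT p t f)) atTop (𝓝 (PT p s (PT p t f))) :=
    PT_tendsto hp hs _
  have h2 : Tendsto (fun N : ℕ => SN p N s (SN p N t f - PT p t f)) atTop (𝓝 0) := by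
    have h3 : Tendsto (fun N : ℕ => ‖SN p N t f - PT p t f‖) atTop (𝓝 0) := by
      have := ((PT_tendsto hp ht f).sub_const (PT p t f)).norm
      simpa using this
    refine squeeze_zero_norm' ?_ h3
    filter_upwards [eventually_ge_atTop 1] with N hN
    exact SN_norm_le hp hN hs _
  have h4 := h1.add h2
  rw [add_zero] at h4
  refine h4.congr (fun N => ?_)
  rw [map_sub, SN_add]
  change _ = SN p N s (SN p N t f)
  abel

end H72IPS
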