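import Pool.Agent.H72.IPS.Asy

/-! # Path coupling with weights depending on three left and three right neighbours: definitions -/

namespace H72IPS

/-- a weight function of the states `l1 l2 l3` of the sites `k-1, k-2, k-3` and `r1 r2 r3` of the sites
`k+1, k+2, k+3` -/
abbrev Wt := Bool → Bool → Bool → Bool → Bool → Bool → ℝ

/-- the weight of a discrepancy at `k` in the environment `x` -/
def pat (W : Wt) (x : Cfg) (k : ℤ) : ℝ :=
  W (x (k - 1)) (x (k - 2)) (x (k - 3)) (x (k + 1)) (x (k + 2)) (x (k + 3))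

/-- The generator of the coupled system applied to the weight of a discrepancy at `k` (state `1` in the
first copy, `0` in the second one), in the environment `l1 l2 l3 | r1 r2 r3`; `e` is the state of
`k-4`, `f` the state of `k+4`; `c s y` is the flip rate of a site in state `s` with right neighbour in
state `y`. -/
def Gval (c : Bool → Bool → ℝ) (W : Wt) (l1 l2 l3 r1 r2 r3 e f : Bool) : ℝ :=
  -(c false r1 + c true r1) * W l1 l2 l3 r1 r2 r3
  + c r1 r2 * (W l1 l2 l3 (!r1) r2 r3 - W l1 l2 l3 r1 r2 r3)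
  + c r2 r3 * (W l1 l2 l3 r1 (!r2) r3 - W l1 l2 l3 r1 r2 r3)
  + c r3 f * (W l1 l2 l3 r1 r2 (!r3) - W l1 l2 l3 r1 r2 r3)
  + c l2 l1 * (W l1 (!l2) l3 r1 r2 r3 - W l1 l2 l3 r1 r2 r3)
  + c l3 l2 * (W l1 l2 (!l3) r1 r2 r3 - W l1 l2 l3 r1 r2 r3)
  + c l1 false * (W (!l1) l2 l3 r1 r2 r3 - W l1 l2 l3 r1 r2 r3)
  + (c l1 true - c l1 false) *
      (min (W (!l1) l2 l3 r1 r2 r3 + W l2 l3 e false r1 r2)
           (W l2 l3 e true r1 r2 + W l1 l2 l3 r1 r2 r3) - W l1 l2 l3 r1 r2 r3)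

/-- the path coupling criterion -/
structure PCCrit (c : Bool → Bool → ℝ) (W : Wt) : Prop where
  pos : ∀ l1 l2 l3 r1 r2 r3, 0 < W l1 l2 l3 r1 r2 r3
  neg : ∀ l1 l2 l3 r1 r2 r3 e f, Gval c W l1 l2 l3 r1 r2 r3 e f < 0

end H72IPS
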