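import Pool.Agent.H72.IPS.CylA

/-! # TEL: telescoping -/

namespace H72IPS

open Finset Filter Topology

/-- the configuration equal to `x` on `F` and to `y` elsewhere -/
def mixc (x y : Cfg) (F : Finset ℤ) : Cfg := fun i => if i ∈ F then x i else y i

theorem update_diff_le (g : Cfg → ℝ) {δ : ℤ → ℝ} (hδ : ∀ k x, |dd g k x| ≤ δ k) (x : Cfg) (k : ℤ)
    (a b : Bool) : |g (Function.update x k a) - g (Function.update x k b)| ≤ δ k := by
  have h0 : 0 ≤ δ k := (abs_nonneg _).trans (hδ k x)
  have h1 := hδ k x
  unfold dd at h1
  cases a <;> cases b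
  · simpa using h0
  · rw [abs_sub_comm]; exact h1
  · exact h1
  · simpa using h0

theorem mixc_bound (g : Cfg → ℝ) {δ : ℤ → ℝ} (hδ : ∀ k x, |dd g k x| ≤ δ k) (x y : Cfg)
    (F : Finset ℤ) : |g (mixc x y F) - g y| ≤ ∑ k ∈ F, δ k := by
  classical
  induction F using Finset.induction_on with
  | empty =>
    have : mixc x y ∅ = y := by funext i; simp [mixc]
    rw [this]; simp
  | insert k F hk ih =>
    rw [Finset.sum_insert hk]
    have e1 : mixc x y (insert k F) = Function.update (mixc x y F) k (x k) := by
      funext i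
      by_cases h : i = k
      · subst h; simp [mixc]
      · rw [Function.update_of_ne h]; simp [mixc, h]
    have e2 : mixc x y F = Function.update (mixc x y F) k (mixc x y F k) := by
      rw [Function.update_eq_self]
    have h1 : |g (mixc x y (insert k F)) - g (mixc x y F)| ≤ δ k := by
      rw [e1]
      conv_lhs => rw [e2]
      rw [Function.update_idem]
      exact update_diff_le g hδ _ _ _ _
    calc |g (mixc x y (insert k F)) - g y|
        = |(g (mixc x y (insert k F)) - g (mixc x y F)) + (g (mixc x y F) - g y)| := by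
          congr 1; ring
      _ ≤ _ := (abs_add_le _ _).trans (add_le_add h1 ih)

theorem tendsto_mixc (x y : Cfg) : Tendsto (fun F => mixc x y F) atTop (𝓝 x) := by
  rw [tendsto_pi_nhds]
  intro i
  refine tendsto_const_nhds.congr' ?_
  filter_upwards [eventually_ge_atTop ({i} : Finset ℤ)] with F hF
  have : i ∈ F := hF (Finset.mem_singleton_self i)
  simp [mixc, this]

/-- telescoping: a continuous function with summable discrete derivatives has bounded oscillation
(change the sites of `[-n, n]` one after the other, then let `n → ∞` by continuity) -/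
theorem tel (g : CC) (δ : ℤ → ℝ) (hδ : ∀ k x, |dd g k x| ≤ δ k) {B : ℝ}
    (hB : ∀ F : Finset ℤ, ∑ k ∈ F, δ k ≤ B) (x y : Cfg) : |g x - g y| ≤ B := by
  have h1 : Tendsto (fun F => |g (mixc x y F) - g y|) atTop (𝓝 |g x - g y|) :=
    (((g.continuous.tendsto x).comp (tendsto_mixc x y)).sub_const _).abs
  exact le_of_tendsto' h1 fun F => (mixc_bound _ hδ x y F).trans (hB F)

end H72IPS
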