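import Pool.Agent.H72.IPS.PCS
import Pool.Agent.H72.IPS.Inf
import Pool.Agent.H72.IPS.CylA
import Pool.Agent.H72.IPS.Tel

/-! # PCE: the path coupling criterion implies asymptotic constancy

There are `ε > 0` with `Gval ≤ -ε W` (finitely many patterns), `ε ≤ 1` say, and `M0` with
`|dd f k x| ≤ M0 * pat W x k` for all `k`.  Iterating `pc_step` (using also that the derivatives at
`k < m` vanish, `dd_iter`) and `SN_poisson_bound` (applied to the two configurations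
`update x k true/false`) gives `|dd (SN t f) k x| ≤ M0 Wmax e^{-ε t}` for `m ≤ k ≤ N - 4`; `dd_SN` gives
`|dd (SN t f) k x| ≤ K e^{-k + e t}` for all `k`.  Apply `tel` with
`δ k = 0` for `k < m`, `M0 Wmax e^{-ε t}` for `m ≤ k < L`, `K e^{-k + e t}` for `k ≥ L`, where
`L = ⌈4 t⌉ + |m| + 1` and `N ≥ L + 4` : `osc ≤ (L - m) M0 Wmax e^{-ε t} + 2 K e^{-L + e t}`, which tends
to `0` as `t → ∞`. -/

namespace H72IPS

open Finset

/-- a uniform gap -/
theorem pce_gap {c : Bool → Bool → ℝ} {W : Wt} (h : PCCrit c W) :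
    ∃ ε : ℝ, 0 < ε ∧ ε ≤ 1 ∧ ∀ l1 l2 l3 r1 r2 r3 e f,
      Gval c W l1 l2 l3 r1 r2 r3 e f ≤ -ε * W l1 l2 l3 r1 r2 r3 := by
  obtain ⟨a, ha⟩ := Finite.exists_min
    (fun a : Bool × Bool × Bool × Bool × Bool × Bool × Bool × Bool =>
      -(Gval c W a.1 a.2.1 a.2.2.1 a.2.2.2.1 a.2.2.2.2.1 a.2.2.2.2.2.1 a.2.2.2.2.2.2.1
        a.2.2.2.2.2.2.2) / W a.1 a.2.1 a.2.2.1 a.2.2.2.1 a.2.2.2.2.1 a.2.2.2.2.2.1)
  refine ⟨min 1 (-(Gval c W a.1 a.2.1 a.2.2.1 a.2.2.2.1 a.2.2.2.2.1 a.2.2.2.2.2.1 a.2.2.2.2.2.2.1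
        a.2.2.2.2.2.2.2) / W a.1 a.2.1 a.2.2.1 a.2.2.2.1 a.2.2.2.2.1 a.2.2.2.2.2.1), ?_,
        min_le_left _ _, ?_⟩
  · refine lt_min one_pos (div_pos ?_ (h.pos _ _ _ _ _ _))
    have := h.neg a.1 a.2.1 a.2.2.1 a.2.2.2.1 a.2.2.2.2.1 a.2.2.2.2.2.1 a.2.2.2.2.2.2.1
        a.2.2.2.2.2.2.2
    linarith
  · intro l1 l2 l3 r1 r2 r3 e f
    have h1 := ha (l1, l2, l3, r1, r2, r3, e, f)
    simp only at h1
    have hW := h.pos l1 l2 l3 r1 r2 r3
    rw [le_div_iff₀ hW] at h1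
    have h2 := mul_le_mul_of_nonneg_right (min_le_right 1 (-(Gval c W a.1 a.2.1 a.2.2.1 a.2.2.2.1
      a.2.2.2.2.1 a.2.2.2.2.2.1 a.2.2.2.2.2.2.1 a.2.2.2.2.2.2.2) /
      W a.1 a.2.1 a.2.2.1 a.2.2.2.1 a.2.2.2.2.1 a.2.2.2.2.2.1)) hW.le
    linarith

/-- the weights are bounded below and above -/
theorem pce_bounds {W : Wt} (hW : ∀ l1 l2 l3 r1 r2 r3, 0 < W l1 l2 l3 r1 r2 r3) :
    ∃ a b : ℝ, 0 < a ∧ 0 < b ∧ (∀ (x : Cfg) k, a ≤ pat W x k) ∧ ∀ (x : Cfg) k, pat W x k ≤ b := by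
  obtain ⟨u, hu⟩ := Finite.exists_min
    (fun a : Bool × Bool × Bool × Bool × Bool × Bool =>
      W a.1 a.2.1 a.2.2.1 a.2.2.2.1 a.2.2.2.2.1 a.2.2.2.2.2)
  obtain ⟨v, hv⟩ := Finite.exists_max
    (fun a : Bool × Bool × Bool × Bool × Bool × Bool =>
      W a.1 a.2.1 a.2.2.1 a.2.2.2.1 a.2.2.2.2.1 a.2.2.2.2.2)
  refine ⟨_, _, hW u.1 u.2.1 u.2.2.1 u.2.2.2.1 u.2.2.2.2.1 u.2.2.2.2.2,
    hW v.1 v.2.1 v.2.2.1 v.2.2.2.1 v.2.2.2.2.1 v.2.2.2.2.2, fun x k => ?_, fun x k => ?_⟩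
  · exact hu (x (k - 1), x (k - 2), x (k - 3), x (k + 1), x (k + 2), x (k + 3))
  · exact hv (x (k - 1), x (k - 2), x (k - 3), x (k + 1), x (k + 2), x (k + 3))

/-- the iterates of the Markov operator -/
theorem pce_iter {p : Bool → Bool → ℝ} (hp : IsProb p)
    (hE : ∀ s, cr p s false ≤ cr p s true) {W : Wt}
    (hW : ∀ l1 l2 l3 r1 r2 r3, 0 < W l1 l2 l3 r1 r2 r3) {ε : ℝ} (hε1 : ε ≤ 1)
    (hG : ∀ l1 l2 l3 r1 r2 r3 e f,
      Gval (cr p) W l1 l2 l3 r1 r2 r3 e f ≤ -ε * W l1 l2 l3 r1 r2 r3)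
    {N : ℕ} (hN : 1 ≤ N) {m : ℤ} (hm : -(N : ℤ) + 3 ≤ m) {g : Cfg → ℝ} {M K : ℝ} (hM : 0 ≤ M)
    (h0 : ∀ k < m, ∀ x, dd g k x = 0)
    (hK : ∀ (k : ℤ) x, |dd g k x| ≤ K * Real.exp (-(k : ℝ)))
    (h : ∀ k, m ≤ k → ∀ x, |dd g k x| ≤ M * pat W x k) (n : ℕ) :
    ∀ k, m ≤ k → k + 4 ≤ N → ∀ x,
      |dd ((Qf p N)^[n] g) k x| ≤ M * (1 - ε / (4 * N)) ^ n * pat W x k := by
  have hN' : (1 : ℝ) ≤ N := by exact_mod_cast hN
  have hr : 0 ≤ 1 - ε / (4 * (N : ℝ)) := by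
    rw [sub_nonneg, div_le_one (by positivity)]
    linarith
  induction n with
  | zero =>
    intro k hk _ x
    simpa using h k hk x
  | succ n ih =>
    intro k hk hk' x
    rw [Function.iterate_succ_apply']
    have h1 := pc_step hp hE hW hG hN hm (g := (Qf p N)^[n] g)
      (M := M * (1 - ε / (4 * N)) ^ n) (mul_nonneg hM (pow_nonneg hr n))
      (dd_iter hp hN g m h0 hK n).1 ih k hk hk' x
    rw [pow_succ]
    linarith [h1]

/-- the exponential decay of the discrete derivatives of the semigroup -/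
theorem pce_SN {p : Bool → Bool → ℝ} (hp : IsProb p)
    (hE : ∀ s, cr p s false ≤ cr p s true) {W : Wt}
    (hW : ∀ l1 l2 l3 r1 r2 r3, 0 < W l1 l2 l3 r1 r2 r3) {ε : ℝ} (hε1 : ε ≤ 1)
    (hG : ∀ l1 l2 l3 r1 r2 r3 e f,
      Gval (cr p) W l1 l2 l3 r1 r2 r3 e f ≤ -ε * W l1 l2 l3 r1 r2 r3)
    {N : ℕ} (hN : 1 ≤ N) {m : ℤ} (hm : -(N : ℤ) + 3 ≤ m) {f : CC} {M K b : ℝ} (hM : 0 ≤ M)
    (h0 : ∀ k < m, ∀ x, dd f k x = 0)
    (hK : ∀ (k : ℤ) x, |dd f k x| ≤ K * Real.exp (-(k : ℝ)))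
    (h : ∀ k, m ≤ k → ∀ x, |dd f k x| ≤ M * pat W x k)
    (hb : ∀ (x : Cfg) k, pat W x k ≤ b) {t : ℝ} (ht : 0 ≤ t)
    (k : ℤ) (hk : m ≤ k) (hk' : k + 4 ≤ N) (x : Cfg) :
    |dd (SN p N t f) k x| ≤ M * b * Real.exp (-(ε * t)) := by
  have hN' : (1 : ℝ) ≤ N := by exact_mod_cast hN
  have hr : 0 ≤ 1 - ε / (4 * (N : ℝ)) := by
    rw [sub_nonneg, div_le_one (by positivity)]
    linarith
  have h1 := SN_poisson_bound p hN ht f (Function.update x k true) (Function.update x k false)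
    (Finset.univ : Finset Unit) (fun _ => M * b) (fun _ => 1 - ε / (4 * (N : ℝ))) (fun n => by
      have h2 := pce_iter hp hE hW hε1 hG hN hm hM h0 hK h n k hk hk' x
      have h3 : M * (1 - ε / (4 * (N : ℝ))) ^ n * pat W x k ≤
          M * (1 - ε / (4 * (N : ℝ))) ^ n * b :=
        mul_le_mul_of_nonneg_left (hb x k) (mul_nonneg hM (pow_nonneg hr n))
      simp only [Finset.univ_unique, Finset.sum_singleton]
      unfold dd at h2
      linarith)
  simp only [Finset.univ_unique, Finset.sum_singleton] at h1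
  have h4 : -(4 * (N : ℝ) * t) * (1 - (1 - ε / (4 * (N : ℝ)))) = -(ε * t) := by
    field_simp
    ring
  rw [h4] at h1
  exact h1

/-- sums of a geometric tail -/
theorem pce_tail (L : ℤ) (F : Finset ℤ) (hF : ∀ k ∈ F, L ≤ k) :
    ∑ k ∈ F, Real.exp (-(k : ℝ)) ≤ 2 * Real.exp (-(L : ℝ)) := by
  have h1 : ∀ k ∈ F, Real.exp (-(k : ℝ)) ≤ Real.exp (-(L : ℝ)) * (1 / 2 : ℝ) ^ ((k - L).toNat) := by
    intro k hk
    have h2 : ((k - L).toNat : ℤ) = k - L := Int.toNat_of_nonneg (by have := hF k hk; omega)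
    have h3 : ((k - L).toNat : ℝ) = (k : ℝ) - L := by exact_mod_cast h2
    have h4 : Real.exp (-(k : ℝ)) = Real.exp (-(L : ℝ)) * (Real.exp (-1)) ^ ((k - L).toNat) := by
      rw [← Real.exp_nat_mul, ← Real.exp_add, h3]
      congr 1; ring
    rw [h4]
    refine mul_le_mul_of_nonneg_left (pow_le_pow_left₀ (Real.exp_pos _).le ?_ _) (Real.exp_pos _).le
    rw [Real.exp_neg, one_div]
    refine inv_anti₀ (by norm_num) ?_
    have := Real.add_one_le_exp (1 : ℝ)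
    linarith
  refine (Finset.sum_le_sum h1).trans ?_
  rw [← Finset.mul_sum, mul_comm]
  refine mul_le_mul_of_nonneg_right ?_ (Real.exp_pos _).le
  have h5 : ∑ k ∈ F, (1 / 2 : ℝ) ^ ((k - L).toNat) =
      ∑ n ∈ F.image (fun k => (k - L).toNat), (1 / 2 : ℝ) ^ n := by
    rw [Finset.sum_image]
    intro k hk k' hk' hkk
    have a1 := hF k hk
    have a2 := hF k' hk'
    simp only at hkk
    omega
  rw [h5]
  have h6 := summable_geometric_two.sum_le_tsum (F.image (fun k => (k - L).toNat))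
    (fun n _ => by positivity)
  rw [tsum_geometric_two] at h6
  exact h6

/-- the sum of the three ranges -/
theorem pce_sum {m L : ℤ} (hmL : m ≤ L) {A K E : ℝ} (hA : 0 ≤ A) (hK : 0 ≤ K)
    (F : Finset ℤ) :
    ∑ k ∈ F, (if k < m then 0 else if k < L then A else K * Real.exp (-(k : ℝ) + E)) ≤
      ((L : ℝ) - m) * A + 2 * K * Real.exp (-(L : ℝ) + E) := by
  classical
  have h1 : ∀ k ∈ F, (if k < m then 0 else if k < L then A else K * Real.exp (-(k : ℝ) + E)) ≤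
      (if k ∈ Finset.Ico m L then A else 0) +
      (if L ≤ k then K * Real.exp E * Real.exp (-(k : ℝ)) else 0) := by
    intro k _
    by_cases c1 : k < m
    · rw [if_pos c1]
      have e1 : (0 : ℝ) ≤ if k ∈ Finset.Ico m L then A else 0 := by split_ifs <;> simp [hA]
      have e2 : (0 : ℝ) ≤ if L ≤ k then K * Real.exp E * Real.exp (-(k : ℝ)) else 0 := by
        split_ifs
        · positivity
        · exact le_rfl
      linarith
    · rw [if_neg c1]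
      by_cases c2 : k < L
      · rw [if_pos c2, if_pos (Finset.mem_Ico.mpr ⟨not_lt.mp c1, c2⟩), if_neg (not_le.mpr c2)]
        simp
      · rw [if_neg c2, if_neg (fun h => c2 (Finset.mem_Ico.mp h).2), if_pos (not_lt.mp c2),
          Real.exp_add]
        linarith [mul_comm (Real.exp (-(k : ℝ))) (Real.exp E)]
  refine (Finset.sum_le_sum h1).trans ?_
  rw [Finset.sum_add_distrib]
  refine add_le_add ?_ ?_
  · rw [← Finset.sum_filter]
    rw [Finset.sum_const, nsmul_eq_mul]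
    refine mul_le_mul_of_nonneg_right ?_ hA
    have h2 : (F.filter (fun k => k ∈ Finset.Ico m L)).card ≤ (Finset.Ico m L).card :=
      Finset.card_le_card (fun k hk => (Finset.mem_filter.mp hk).2)
    rw [Int.card_Ico] at h2
    have h3 : ((L - m).toNat : ℤ) = L - m := Int.toNat_of_nonneg (by omega)
    have h4 : ((F.filter (fun k => k ∈ Finset.Ico m L)).card : ℝ) ≤ ((L - m).toNat : ℝ) := by
      exact_mod_cast h2
    have h5 : ((L - m).toNat : ℝ) = (L : ℝ) - m := by exact_mod_cast h3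
    linarith
  · rw [← Finset.sum_filter, ← Finset.mul_sum]
    have h2 := pce_tail L (F.filter (fun k => L ≤ k)) (fun k hk => (Finset.mem_filter.mp hk).2)
    have h3 := mul_le_mul_of_nonneg_left h2 (mul_nonneg hK (Real.exp_pos E).le)
    refine h3.trans (le_of_eq ?_)
    rw [Real.exp_add]; ring

/-- the final estimate tends to zero -/
theorem pce_limit {ε : ℝ} (hε : 0 < ε) (c D K : ℝ) {η : ℝ} (hη : 0 < η) :
    ∃ t0 : ℝ, ∀ t ≥ t0, (4 * t + c) * (D * Real.exp (-(ε * t))) + 2 * K * Real.exp (-t) ≤ η := by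
  have h1 : Filter.Tendsto (fun t : ℝ => t ^ (1 : ℝ) * Real.exp (-ε * t)) Filter.atTop (nhds 0) :=
    tendsto_rpow_mul_exp_neg_mul_atTop_nhds_zero 1 ε hε
  have h2 : Filter.Tendsto (fun t : ℝ => t ^ (0 : ℝ) * Real.exp (-ε * t)) Filter.atTop (nhds 0) :=
    tendsto_rpow_mul_exp_neg_mul_atTop_nhds_zero 0 ε hε
  have h3 : Filter.Tendsto (fun t : ℝ => t ^ (0 : ℝ) * Real.exp (-1 * t)) Filter.atTop (nhds 0) :=
    tendsto_rpow_mul_exp_neg_mul_atTop_nhds_zero 0 1 one_pos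
  have h4 := ((h1.const_mul (4 * D)).add (h2.const_mul (c * D))).add (h3.const_mul (2 * K))
  simp only [mul_zero, add_zero] at h4
  have h5 := (h4.eventually (ge_mem_nhds hη))
  obtain ⟨t0, ht0⟩ := Filter.eventually_atTop.mp h5
  refine ⟨t0, fun t ht => ?_⟩
  have h6 := ht0 t ht
  rw [Real.rpow_one, Real.rpow_zero, one_mul, one_mul] at h6
  have e1 : -ε * t = -(ε * t) := by ring
  have e2 : -1 * t = -t := by ring
  rw [e1, e2] at h6
  linarith

theorem asympConst_of_pc {p : Bool → Bool → ℝ} (hp : IsProb p)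
    (hE : ∀ s, cr p s false ≤ cr p s true) {W : Wt} (h : PCCrit (cr p) W) : AsympConst p := by
  intro f hf η hη
  obtain ⟨ε, hε, hε1, hG⟩ := pce_gap h
  obtain ⟨a, b, ha, hb0, hpa, hpb⟩ := pce_bounds h.pos
  obtain ⟨m, K, hK0, h0, hK⟩ := hf.dd_bounds
  have hM0 : 0 ≤ K * Real.exp (-(m : ℝ)) / a := by positivity
  have hM : ∀ k, m ≤ k → ∀ x, |dd f k x| ≤ K * Real.exp (-(m : ℝ)) / a * pat W x k := by
    intro k hk x
    have h1 := hK k x
    have h2 : Real.exp (-(k : ℝ)) ≤ Real.exp (-(m : ℝ)) := by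
      apply Real.exp_le_exp.mpr
      have : (m : ℝ) ≤ k := by exact_mod_cast hk
      linarith
    have h3 := mul_le_mul_of_nonneg_left h2 hK0
    have h4 := mul_le_mul_of_nonneg_left (hpa x k) hM0
    have h5 : K * Real.exp (-(m : ℝ)) / a * a = K * Real.exp (-(m : ℝ)) := by
      field_simp
    linarith
  obtain ⟨t1, ht1⟩ := pce_limit hε (2 * |(m : ℝ)| + 2) (K * Real.exp (-(m : ℝ)) / a * b) K hη
  refine ⟨max t1 0, fun t ht => ?_⟩
  have htt : t1 ≤ t := le_trans (le_max_left _ _) ht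
  have ht0 : 0 ≤ t := le_trans (le_max_right _ _) ht
  -- the cut-off
  let L : ℤ := ⌈4 * t⌉ + |m| + 1
  have hceil : 0 ≤ ⌈4 * t⌉ := Int.ceil_nonneg (by linarith)
  have habs : m ≤ |m| := le_abs_self m
  have habs' : -m ≤ |m| := neg_le_abs m
  have hmL : m ≤ L := by simp only [L]; omega
  have hL1 : 4 * t ≤ (L : ℝ) := by
    have h1 := Int.le_ceil (4 * t)
    have h2 : (0 : ℝ) ≤ |(m : ℝ)| := abs_nonneg _
    simp only [L]
    push_cast
    linarith
  have hL2 : (L : ℝ) - m ≤ 4 * t + (2 * |(m : ℝ)| + 2) := by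
    have h1 := Int.ceil_lt_add_one (4 * t)
    have h2 : -(m : ℝ) ≤ |(m : ℝ)| := neg_le_abs _
    simp only [L]
    push_cast
    linarith
  refine ⟨(L + 4).toNat, fun N hN x y => ?_⟩
  have hLN : L + 4 ≤ (N : ℤ) := by
    have := Int.self_le_toNat (L + 4)
    have h2 : ((L + 4).toNat : ℤ) ≤ (N : ℤ) := by exact_mod_cast hN
    omega
  have hN1 : 1 ≤ N := by
    have : 0 ≤ L := by simp only [L]; have := abs_nonneg m; omega
    omega
  have hmN : -(N : ℤ) + 3 ≤ m := by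
    have : |m| + 5 ≤ (N : ℤ) := by
      have : L = ⌈4 * t⌉ + |m| + 1 := rfl
      omega
    omega
  set A : ℝ := K * Real.exp (-(m : ℝ)) / a * b * Real.exp (-(ε * t)) with hA
  have hA0 : 0 ≤ A := by positivity
  have hinf := dd_SN hp hN1 ht0 f m h0 hK
  have htel := tel (SN p N t f)
    (fun k => if k < m then 0 else if k < L then A else
      K * Real.exp (-(k : ℝ) + Real.exp 1 * t)) (by
      intro k z
      by_cases c1 : k < m
      · rw [if_pos c1, hinf.1 k c1 z, abs_zero]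
      · rw [if_neg c1]
        by_cases c2 : k < L
        · rw [if_pos c2]
          exact pce_SN hp hE h.pos hε1 hG hN1 hmN hM0 h0 hK hM hpb ht0 k (not_lt.mp c1)
            (by omega) z
        · rw [if_neg c2]
          exact hinf.2 k z)
    (B := ((L : ℝ) - m) * A + 2 * K * Real.exp (-(L : ℝ) + Real.exp 1 * t))
    (fun F => pce_sum hmL hA0 hK0 F) x y
  refine htel.trans ?_
  refine le_trans (add_le_add (mul_le_mul_of_nonneg_right hL2 hA0)
    (mul_le_mul_of_nonneg_left ?_ (by positivity : 0 ≤ 2 * K))) (ht1 t htt)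
  apply Real.exp_le_exp.mpr
  have he : Real.exp 1 < 3 := by
    have := Real.exp_one_lt_d9
    linarith
  have := mul_le_mul_of_nonneg_right he.le ht0
  linarith

end H72IPS
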