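import Pool.Agent.H72.IPS.Bas
import Pool.Agent.H72.IPS.PCDefs

/-! # PCS: one step of path coupling

Write `u = update x k true`, `v = update x k false`, `c = 4N`, `w = pat W x k`.  All sites
`k-3, ..., k+3` belong to the window `[-N, N)`.  For `j ≠ k-1, k` both copies have the same rate
`c_j`; put `c_{k-1} := q_v = cr (x (k-1)) false`, `q_u = cr (x (k-1)) true ≥ q_v`.  Then

`dd (Qf g) k x = (g u - g v) (1 - (1/c) (a_y + b_y + sum_{j ≠ k} c_j + (q_u - q_v)))
  + (1/c) sum_{j ≠ k} c_j (g u^j - g v^j) + (1/c) (q_u - q_v) (g u^{k-1} - g v)`.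

Here `g u^j - g v^j = dd g k (flip x j)`, whose weight is `pat W (flip x j) k` (it equals `w` unless
`j ∈ {k-3,k-2,k-1,k+1,k+2,k+3}`), and `g u^{k-1} - g v` is estimated in two ways:
`(g u^{k-1} - g v^{k-1}) + (g v^{k-1} - g v)` and `(g u^{k-1} - g u) + (g u - g v)`, where
`|g v^{k-1} - g v| = |dd g (k-1) v|` has the weight `W l2 l3 e false r1 r2` and
`|g u^{k-1} - g u| = |dd g (k-1) u|` the weight `W l2 l3 e true r1 r2` (if `k-1 < m` these are zero and
the weights nonnegative).  The coefficients are nonnegative as `N ≥ 1`.  Summing up,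
`|dd (Qf g) k x| ≤ M (w + Gval / c) ≤ M w (1 - ε / c)`. -/

namespace H72IPS

open Finset

theorem pcs_flip_update {x : Cfg} {k j : ℤ} (hj : j ≠ k) (b : Bool) :
    flip (Function.update x k b) j = Function.update (flip x j) k b := by
  unfold flip
  rw [Function.update_of_ne hj, Function.update_comm hj]

theorem pcs_flip_self (x : Cfg) (k : ℤ) (b : Bool) :
    flip (Function.update x k b) k = Function.update x k (!b) := by
  unfold flip
  rw [Function.update_self, Function.update_idem]

theorem pcs_rate_self (p : Bool → Bool → ℝ) (x : Cfg) (k : ℤ) (b : Bool) :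
    rate p (Function.update x k b) k = cr p b (x (k + 1)) := by
  unfold rate
  rw [Function.update_self, Function.update_of_ne (by omega)]

theorem pcs_rate_pred (p : Bool → Bool → ℝ) (x : Cfg) (k : ℤ) (b : Bool) :
    rate p (Function.update x k b) (k - 1) = cr p (x (k - 1)) b := by
  unfold rate
  rw [Function.update_of_ne (by omega), sub_add_cancel, Function.update_self]

theorem pcs_rate_other (p : Bool → Bool → ℝ) (x : Cfg) {k j : ℤ} (b : Bool) (h : j ≠ k)
    (h' : j ≠ k - 1) : rate p (Function.update x k b) j = rate p x j := by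
  unfold rate
  rw [Function.update_of_ne h, Function.update_of_ne (by omega)]

theorem pcs_pat_far (W : Wt) (x : Cfg) {k j : ℤ} (h : j < k - 3 ∨ k + 3 < j) :
    pat W (flip x j) k = pat W x k := by
  unfold pat flip
  rw [Function.update_of_ne (by omega), Function.update_of_ne (by omega),
    Function.update_of_ne (by omega), Function.update_of_ne (by omega),
    Function.update_of_ne (by omega), Function.update_of_ne (by omega)]

/-- the sum over the seven sites -/
theorem pcs_sum7 (k : ℤ) (f : ℤ → ℝ) : ∑ j ∈ Icc (k - 3) (k + 3), f j =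
    f (k - 3) + f (k - 2) + f (k - 1) + f k + f (k + 1) + f (k + 2) + f (k + 3) := by
  have h : Icc (k - 3) (k + 3) = {k - 3, k - 2, k - 1, k, k + 1, k + 2, k + 3} := by
    ext j
    simp only [mem_Icc, mem_insert, mem_singleton]
    omega
  rw [h, sum_insert, sum_insert, sum_insert, sum_insert, sum_insert, sum_insert, sum_singleton]
  · ring
  all_goals
    simp only [mem_insert, mem_singleton]
    omega

theorem pcs_main {N : ℕ} (hN : 1 ≤ N) (S : Finset ℤ) (T A B C : ℤ → ℝ) (D M w : ℝ)
    (_hM : 0 ≤ M) (hD : |D| ≤ M * w) (hT : ∀ j ∈ S, T j = B j - A j * D)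
    (hB : ∀ j ∈ S, |B j| ≤ M * C j) (hA : ∑ j ∈ S, A j ≤ 4 * N) :
    |D + (4 * (N : ℝ))⁻¹ * ∑ j ∈ S, T j| ≤
      M * (w + (4 * (N : ℝ))⁻¹ * ∑ j ∈ S, (C j - A j * w)) := by
  have hN' : (0 : ℝ) < 4 * N := by
    have : (1 : ℝ) ≤ N := by exact_mod_cast hN
    linarith
  have hc : (0 : ℝ) < (4 * (N : ℝ))⁻¹ := inv_pos.mpr hN'
  have hc1 : (4 * (N : ℝ))⁻¹ * (4 * N) = 1 := inv_mul_cancel₀ hN'.ne'
  have h1 : ∑ j ∈ S, T j = ∑ j ∈ S, B j - (∑ j ∈ S, A j) * D := by
    rw [sum_congr rfl hT, sum_sub_distrib, sum_mul]
  have h2 : ∑ j ∈ S, (C j - A j * w) = ∑ j ∈ S, C j - (∑ j ∈ S, A j) * w := by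
    rw [sum_sub_distrib, sum_mul]
  rw [h1, h2]
  set a := ∑ j ∈ S, A j with ha
  set c := (4 * (N : ℝ))⁻¹ with hcdef
  have h3 : 0 ≤ 1 - c * a := by
    have : c * a ≤ c * (4 * N) := mul_le_mul_of_nonneg_left hA hc.le
    rw [hc1] at this
    linarith
  have h4 : |∑ j ∈ S, B j| ≤ M * ∑ j ∈ S, C j := by
    refine (abs_sum_le_sum_abs _ _).trans ?_
    rw [mul_sum]
    exact sum_le_sum hB
  have h5 : D + c * (∑ j ∈ S, B j - a * D) = (1 - c * a) * D + c * ∑ j ∈ S, B j := by ring
  rw [h5]
  refine (abs_add_le _ _).trans ?_
  rw [abs_mul, abs_mul, abs_of_nonneg h3, abs_of_pos hc]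
  have h6 : (1 - c * a) * |D| ≤ (1 - c * a) * (M * w) := mul_le_mul_of_nonneg_left hD h3
  have h7 : c * |∑ j ∈ S, B j| ≤ c * (M * ∑ j ∈ S, C j) := mul_le_mul_of_nonneg_left h4 hc.le
  have h8 : M * (w + c * (∑ j ∈ S, C j - a * w)) =
      (1 - c * a) * (M * w) + c * (M * ∑ j ∈ S, C j) := by ring
  rw [h8]
  exact add_le_add h6 h7

theorem pc_step {p : Bool → Bool → ℝ} (hp : IsProb p) (hE : ∀ s, cr p s false ≤ cr p s true)
    {W : Wt} (hW : ∀ l1 l2 l3 r1 r2 r3, 0 < W l1 l2 l3 r1 r2 r3) {ε : ℝ}
    (hG : ∀ l1 l2 l3 r1 r2 r3 e f,
      Gval (cr p) W l1 l2 l3 r1 r2 r3 e f ≤ -ε * W l1 l2 l3 r1 r2 r3)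
    {N : ℕ} (hN : 1 ≤ N) {m : ℤ} (hm : -(N : ℤ) + 3 ≤ m) {g : Cfg → ℝ} {M : ℝ} (hM : 0 ≤ M)
    (h0 : ∀ k < m, ∀ x, dd g k x = 0)
    (h : ∀ k, m ≤ k → k + 4 ≤ N → ∀ x, |dd g k x| ≤ M * pat W x k)
    (k : ℤ) (hk : m ≤ k) (hk' : k + 4 ≤ N) (x : Cfg) :
    |dd (Qf p N g) k x| ≤ M * (1 - ε / (4 * N)) * pat W x k := by
  have hN' : (0 : ℝ) < 4 * N := by
    have : (1 : ℝ) ≤ N := by exact_mod_cast hN
    linarith
  set u := Function.update x k true with hu
  set v := Function.update x k false with hv
  set qu := cr p (x (k - 1)) true with hqu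
  set qv := cr p (x (k - 1)) false with hqv
  set mn := min (W (!x (k - 1)) (x (k - 2)) (x (k - 3)) (x (k + 1)) (x (k + 2)) (x (k + 3)) +
      W (x (k - 2)) (x (k - 3)) (x (k - 4)) false (x (k + 1)) (x (k + 2)))
    (W (x (k - 2)) (x (k - 3)) (x (k - 4)) true (x (k + 1)) (x (k + 2)) +
      W (x (k - 1)) (x (k - 2)) (x (k - 3)) (x (k + 1)) (x (k + 2)) (x (k + 3))) with hmn
  have hq : 0 ≤ qu - qv := sub_nonneg.mpr (hE _)
  have hqv0 : 0 ≤ qv := cr_nonneg hp _ _
  let A : ℤ → ℝ := fun j => if j = k then cr p true (x (k + 1)) + cr p false (x (k + 1))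
    else if j = k - 1 then qu else rate p x j
  let B : ℤ → ℝ := fun j => if j = k then 0
    else if j = k - 1 then qv * dd g k (flip x (k - 1)) + (qu - qv) * (g (flip u (k - 1)) - g v)
    else rate p x j * dd g k (flip x j)
  let C : ℤ → ℝ := fun j => if j = k then 0
    else if j = k - 1 then qv * pat W (flip x (k - 1)) k + (qu - qv) * mn
    else rate p x j * pat W (flip x j) k
  let T : ℤ → ℝ := fun j => rate p u j * (g (flip u j) - g u) - rate p v j * (g (flip v j) - g v)
  have hdd : ∀ y, |dd g k y| ≤ M * pat W y k := h k hk hk'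
  have hWpos : ∀ y i, 0 ≤ pat W y i := fun y i => (hW _ _ _ _ _ _).le
  -- the discrepancy at `k - 1`
  have hpred : ∀ y, |dd g (k - 1) y| ≤ M * pat W y (k - 1) := by
    intro y
    by_cases hkm : m ≤ k - 1
    · exact h (k - 1) hkm (by omega) y
    · rw [h0 (k - 1) (by omega) y, abs_zero]
      exact mul_nonneg hM (hWpos _ _)
  have hexp : dd (Qf p N g) k x = dd g k x + (4 * (N : ℝ))⁻¹ * ∑ j ∈ Ico (-(N : ℤ)) N, T j := by
    have e1 : dd (Qf p N g) k x = Qf p N g u - Qf p N g v := rfl
    have e2 : dd g k x = g u - g v := rfl
    have e3 : ∑ j ∈ Ico (-(N : ℤ)) N, T j =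
        ∑ j ∈ Ico (-(N : ℤ)) N, rate p u j * (g (flip u j) - g u) -
        ∑ j ∈ Ico (-(N : ℤ)) N, rate p v j * (g (flip v j) - g v) := by
      rw [← sum_sub_distrib]
    rw [e1, e2, e3]
    unfold Qf
    ring
  have hT : ∀ j ∈ Ico (-(N : ℤ)) N, T j = B j - A j * dd g k x := by
    intro j _
    by_cases hj : j = k
    · rw [hj]
      have e1 : A k = cr p true (x (k + 1)) + cr p false (x (k + 1)) := if_pos rfl
      have e2 : B k = 0 := if_pos rfl
      rw [e1, e2]
      show rate p u k * (g (flip u k) - g u) - rate p v k * (g (flip v k) - g v) = _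
      rw [hu, hv, pcs_rate_self, pcs_rate_self, pcs_flip_self, pcs_flip_self]
      unfold dd
      simp only [Bool.not_true, Bool.not_false]
      ring
    by_cases hj1 : j = k - 1
    · rw [hj1]
      have hne : k - 1 ≠ k := by omega
      have e1 : A (k - 1) = qu := by
        show (if k - 1 = k then _ else if k - 1 = k - 1 then qu else _) = qu
        rw [if_neg hne, if_pos rfl]
      have e2 : B (k - 1) = qv * dd g k (flip x (k - 1)) +
          (qu - qv) * (g (flip u (k - 1)) - g v) := by
        show (if k - 1 = k then _ else if k - 1 = k - 1 then _ else _) = _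
        rw [if_neg hne, if_pos rfl]
      rw [e1, e2]
      have e3 : dd g k (flip x (k - 1)) = g (flip u (k - 1)) - g (flip v (k - 1)) := by
        rw [hu, hv, pcs_flip_update hne, pcs_flip_update hne]
        rfl
      have e4 : dd g k x = g u - g v := rfl
      have e5 : rate p u (k - 1) = qu := pcs_rate_pred p x k true
      have e6 : rate p v (k - 1) = qv := pcs_rate_pred p x k false
      show rate p u (k - 1) * (g (flip u (k - 1)) - g u) -
        rate p v (k - 1) * (g (flip v (k - 1)) - g v) = _
      rw [e3, e4, e5, e6]
      ring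
    · have e1 : A j = rate p x j := by
        show (if j = k then _ else if j = k - 1 then qu else _) = _
        rw [if_neg hj, if_neg hj1]
      have e2 : B j = rate p x j * dd g k (flip x j) := by
        show (if j = k then _ else if j = k - 1 then _ else _) = _
        rw [if_neg hj, if_neg hj1]
      have e3 : dd g k (flip x j) = g (flip u j) - g (flip v j) := by
        rw [hu, hv, pcs_flip_update hj, pcs_flip_update hj]
        rfl
      have e4 : dd g k x = g u - g v := rfl
      have e5 : rate p u j = rate p x j := pcs_rate_other p x true hj hj1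
      have e6 : rate p v j = rate p x j := pcs_rate_other p x false hj hj1
      rw [e1, e2]
      show rate p u j * (g (flip u j) - g u) - rate p v j * (g (flip v j) - g v) = _
      rw [e3, e4, e5, e6]
      ring
  have hB : ∀ j ∈ Ico (-(N : ℤ)) N, |B j| ≤ M * C j := by
    intro j _
    by_cases hj : j = k
    · have e1 : C j = 0 := if_pos hj
      have e2 : B j = 0 := if_pos hj
      rw [e1, e2, abs_zero, mul_zero]
    by_cases hj1 : j = k - 1
    · have e1 : C j = qv * pat W (flip x (k - 1)) k + (qu - qv) * mn := by
        show (if j = k then _ else if j = k - 1 then _ else _) = _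
        rw [if_neg hj, if_pos hj1]
      have e2 : B j = qv * dd g k (flip x (k - 1)) +
          (qu - qv) * (g (flip u (k - 1)) - g v) := by
        show (if j = k then _ else if j = k - 1 then _ else _) = _
        rw [if_neg hj, if_pos hj1]
      have hne : k - 1 ≠ k := by omega
      rw [e1, e2]
      have e3 : dd g k (flip x (k - 1)) = g (flip u (k - 1)) - g (flip v (k - 1)) := by
        rw [hu, hv, pcs_flip_update hne, pcs_flip_update hne]
        rfl
      have f1 : |g (flip u (k - 1)) - g v| ≤ M * mn := by
        rw [hmn, mul_min_of_nonneg _ _ hM]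
        refine le_min ?_ ?_
        · have g1 := hdd (flip x (k - 1))
          rw [e3] at g1
          have g2 := hpred v
          rw [← abs_flip_sub] at g2
          have g3 : pat W (flip x (k - 1)) k = W (!x (k - 1)) (x (k - 2)) (x (k - 3)) (x (k + 1))
              (x (k + 2)) (x (k + 3)) := by
            unfold pat flip
            rw [Function.update_self, Function.update_of_ne (by omega),
              Function.update_of_ne (by omega), Function.update_of_ne (by omega),
              Function.update_of_ne (by omega), Function.update_of_ne (by omega)]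
          have g4 : pat W v (k - 1) = W (x (k - 2)) (x (k - 3)) (x (k - 4)) false (x (k + 1))
              (x (k + 2)) := by
            unfold pat
            have i1 : k - 1 - 1 = k - 2 := by ring
            have i2 : k - 1 - 2 = k - 3 := by ring
            have i3 : k - 1 - 3 = k - 4 := by ring
            have i4 : k - 1 + 1 = k := by ring
            have i5 : k - 1 + 2 = k + 1 := by ring
            have i6 : k - 1 + 3 = k + 2 := by ring
            rw [i1, i2, i3, i4, i5, i6, hv, Function.update_self,
              Function.update_of_ne (by omega), Function.update_of_ne (by omega),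
              Function.update_of_ne (by omega), Function.update_of_ne (by omega),
              Function.update_of_ne (by omega)]
          rw [g3] at g1
          rw [g4] at g2
          have g5 : g (flip u (k - 1)) - g v = (g (flip u (k - 1)) - g (flip v (k - 1))) +
              (g (flip v (k - 1)) - g v) := by ring
          rw [g5, mul_add]
          exact (abs_add_le _ _).trans (add_le_add g1 g2)
        · have g1 := hdd x
          have e4 : dd g k x = g u - g v := rfl
          rw [e4] at g1
          have g2 := hpred u
          rw [← abs_flip_sub] at g2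
          have g4 : pat W u (k - 1) = W (x (k - 2)) (x (k - 3)) (x (k - 4)) true (x (k + 1))
              (x (k + 2)) := by
            unfold pat
            have i1 : k - 1 - 1 = k - 2 := by ring
            have i2 : k - 1 - 2 = k - 3 := by ring
            have i3 : k - 1 - 3 = k - 4 := by ring
            have i4 : k - 1 + 1 = k := by ring
            have i5 : k - 1 + 2 = k + 1 := by ring
            have i6 : k - 1 + 3 = k + 2 := by ring
            rw [i1, i2, i3, i4, i5, i6, hu, Function.update_self,
              Function.update_of_ne (by omega), Function.update_of_ne (by omega),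
              Function.update_of_ne (by omega), Function.update_of_ne (by omega),
              Function.update_of_ne (by omega)]
          rw [g4] at g2
          have g5 : g (flip u (k - 1)) - g v = (g (flip u (k - 1)) - g u) + (g u - g v) := by ring
          rw [g5, mul_add]
          exact (abs_add_le _ _).trans (add_le_add g2 g1)
      refine (abs_add_le _ _).trans ?_
      rw [abs_mul, abs_mul, abs_of_nonneg hqv0, abs_of_nonneg hq]
      have f2 := mul_le_mul_of_nonneg_left (hdd (flip x (k - 1))) hqv0
      have f3 := mul_le_mul_of_nonneg_left f1 hq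
      calc qv * |dd g k (flip x (k - 1))| + (qu - qv) * |g (flip u (k - 1)) - g v|
          ≤ qv * (M * pat W (flip x (k - 1)) k) + (qu - qv) * (M * mn) := add_le_add f2 f3
        _ = M * (qv * pat W (flip x (k - 1)) k + (qu - qv) * mn) := by ring
    · have e1 : C j = rate p x j * pat W (flip x j) k := by
        show (if j = k then _ else if j = k - 1 then _ else _) = _
        rw [if_neg hj, if_neg hj1]
      have e2 : B j = rate p x j * dd g k (flip x j) := by
        show (if j = k then _ else if j = k - 1 then _ else _) = _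
        rw [if_neg hj, if_neg hj1]
      have hr : 0 ≤ rate p x j := cr_nonneg hp _ _
      rw [e1, e2, abs_mul, abs_of_nonneg hr]
      calc rate p x j * |dd g k (flip x j)| ≤ rate p x j * (M * pat W (flip x j) k) :=
            mul_le_mul_of_nonneg_left (hdd _) hr
        _ = M * (rate p x j * pat W (flip x j) k) := by ring
  have hkS : k ∈ Ico (-(N : ℤ)) N := by
    rw [mem_Ico]; omega
  have hA : ∑ j ∈ Ico (-(N : ℤ)) N, A j ≤ 4 * N := by
    have e1 : ∀ j ∈ Ico (-(N : ℤ)) N, A j ≤ 1 + (if j = k then 1 else 0) := by
      intro j _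
      by_cases hj : j = k
      · have e1 : A j = cr p true (x (k + 1)) + cr p false (x (k + 1)) := if_pos hj
        rw [e1, if_pos hj]
        exact add_le_add (cr_le_one hp _ _) (cr_le_one hp _ _)
      · by_cases hj1 : j = k - 1
        · have e1 : A j = qu := by
            show (if j = k then _ else if j = k - 1 then qu else _) = _
            rw [if_neg hj, if_pos hj1]
          rw [e1, if_neg hj, add_zero]
          exact cr_le_one hp _ _
        · have e1 : A j = rate p x j := by
            show (if j = k then _ else if j = k - 1 then qu else _) = _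
            rw [if_neg hj, if_neg hj1]
          rw [e1, if_neg hj, add_zero]
          exact cr_le_one hp _ _
    refine (sum_le_sum e1).trans ?_
    rw [sum_add_distrib, sum_ite_eq' (Ico (-(N : ℤ)) N) k, if_pos hkS, sum_const, Int.card_Ico,
      nsmul_eq_mul, mul_one]
    have e2 : ((N : ℤ) - -(N : ℤ)).toNat = 2 * N := by omega
    rw [e2]
    have : (1 : ℝ) ≤ N := by exact_mod_cast hN
    push_cast
    linarith
  have hmain := pcs_main hN (Ico (-(N : ℤ)) N) T A B C (dd g k x) M (pat W x k) hM (hdd x) hT hB hA
  rw [← hexp] at hmain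
  refine hmain.trans ?_
  -- the sum is `Gval`
  have hsub : Icc (k - 3) (k + 3) ⊆ Ico (-(N : ℤ)) N := by
    intro j hj
    rw [mem_Icc] at hj
    rw [mem_Ico]
    omega
  have hsum : ∑ j ∈ Ico (-(N : ℤ)) N, (C j - A j * pat W x k) =
      Gval (cr p) W (x (k - 1)) (x (k - 2)) (x (k - 3)) (x (k + 1)) (x (k + 2)) (x (k + 3))
        (x (k - 4)) (x (k + 4)) := by
    rw [← sum_subset hsub, pcs_sum7]
    · have a0 : A k = cr p true (x (k + 1)) + cr p false (x (k + 1)) := if_pos rfl
      have c0 : C k = 0 := if_pos rfl
      have hne : k - 1 ≠ k := by omega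
      have a1 : A (k - 1) = qu := by
        show (if k - 1 = k then _ else if k - 1 = k - 1 then qu else _) = qu
        rw [if_neg hne, if_pos rfl]
      have c1 : C (k - 1) = qv * pat W (flip x (k - 1)) k + (qu - qv) * mn := by
        show (if k - 1 = k then _ else if k - 1 = k - 1 then _ else _) = _
        rw [if_neg hne, if_pos rfl]
      have ao : ∀ j, j ≠ k → j ≠ k - 1 → A j = rate p x j := by
        intro j hj hj1
        show (if j = k then _ else if j = k - 1 then qu else _) = _
        rw [if_neg hj, if_neg hj1]
      have co : ∀ j, j ≠ k → j ≠ k - 1 → C j = rate p x j * pat W (flip x j) k := by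
        intro j hj hj1
        show (if j = k then _ else if j = k - 1 then _ else _) = _
        rw [if_neg hj, if_neg hj1]
      rw [a0, c0, a1, c1, ao (k - 3) (by omega) (by omega), ao (k - 2) (by omega) (by omega),
        ao (k + 1) (by omega) (by omega), ao (k + 2) (by omega) (by omega),
        ao (k + 3) (by omega) (by omega), co (k - 3) (by omega) (by omega),
        co (k - 2) (by omega) (by omega), co (k + 1) (by omega) (by omega),
        co (k + 2) (by omega) (by omega), co (k + 3) (by omega) (by omega)]
      have p1 : pat W (flip x (k - 1)) k = W (!x (k - 1)) (x (k - 2)) (x (k - 3)) (x (k + 1))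
          (x (k + 2)) (x (k + 3)) := by
        unfold pat flip
        rw [Function.update_self, Function.update_of_ne (by omega),
          Function.update_of_ne (by omega), Function.update_of_ne (by omega),
          Function.update_of_ne (by omega), Function.update_of_ne (by omega)]
      have p2 : pat W (flip x (k - 2)) k = W (x (k - 1)) (!x (k - 2)) (x (k - 3)) (x (k + 1))
          (x (k + 2)) (x (k + 3)) := by
        unfold pat flip
        rw [Function.update_self, Function.update_of_ne (by omega),
          Function.update_of_ne (by omega), Function.update_of_ne (by omega),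
          Function.update_of_ne (by omega), Function.update_of_ne (by omega)]
      have p3 : pat W (flip x (k - 3)) k = W (x (k - 1)) (x (k - 2)) (!x (k - 3)) (x (k + 1))
          (x (k + 2)) (x (k + 3)) := by
        unfold pat flip
        rw [Function.update_self, Function.update_of_ne (by omega),
          Function.update_of_ne (by omega), Function.update_of_ne (by omega),
          Function.update_of_ne (by omega), Function.update_of_ne (by omega)]
      have p4 : pat W (flip x (k + 1)) k = W (x (k - 1)) (x (k - 2)) (x (k - 3)) (!x (k + 1))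
          (x (k + 2)) (x (k + 3)) := by
        unfold pat flip
        rw [Function.update_self, Function.update_of_ne (by omega),
          Function.update_of_ne (by omega), Function.update_of_ne (by omega),
          Function.update_of_ne (by omega), Function.update_of_ne (by omega)]
      have p5 : pat W (flip x (k + 2)) k = W (x (k - 1)) (x (k - 2)) (x (k - 3)) (x (k + 1))
          (!x (k + 2)) (x (k + 3)) := by
        unfold pat flip
        rw [Function.update_self, Function.update_of_ne (by omega),
          Function.update_of_ne (by omega), Function.update_of_ne (by omega),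
          Function.update_of_ne (by omega), Function.update_of_ne (by omega)]
      have p6 : pat W (flip x (k + 3)) k = W (x (k - 1)) (x (k - 2)) (x (k - 3)) (x (k + 1))
          (x (k + 2)) (!x (k + 3)) := by
        unfold pat flip
        rw [Function.update_self, Function.update_of_ne (by omega),
          Function.update_of_ne (by omega), Function.update_of_ne (by omega),
          Function.update_of_ne (by omega), Function.update_of_ne (by omega)]
      have r1 : rate p x (k - 3) = cr p (x (k - 3)) (x (k - 2)) := by
        unfold rate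
        have : k - 3 + 1 = k - 2 := by ring
        rw [this]
      have r2 : rate p x (k - 2) = cr p (x (k - 2)) (x (k - 1)) := by
        unfold rate
        have : k - 2 + 1 = k - 1 := by ring
        rw [this]
      have r3 : rate p x (k + 1) = cr p (x (k + 1)) (x (k + 2)) := by
        unfold rate
        have : k + 1 + 1 = k + 2 := by ring
        rw [this]
      have r4 : rate p x (k + 2) = cr p (x (k + 2)) (x (k + 3)) := by
        unfold rate
        have : k + 2 + 1 = k + 3 := by ring
        rw [this]
      have r5 : rate p x (k + 3) = cr p (x (k + 3)) (x (k + 4)) := by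
        unfold rate
        have : k + 3 + 1 = k + 4 := by ring
        rw [this]
      rw [p1, p2, p3, p4, p5, p6, r1, r2, r3, r4, r5]
      have w0 : pat W x k = W (x (k - 1)) (x (k - 2)) (x (k - 3)) (x (k + 1)) (x (k + 2))
        (x (k + 3)) := rfl
      rw [w0]
      unfold Gval
      rw [← hmn, ← hqu, ← hqv]
      ring
    · intro j hj hj'
      rw [mem_Icc] at hj'
      have hj1 : j ≠ k := by omega
      have hj2 : j ≠ k - 1 := by omega
      have e1 : A j = rate p x j := by
        show (if j = k then _ else if j = k - 1 then qu else _) = _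
        rw [if_neg hj1, if_neg hj2]
      have e2 : C j = rate p x j * pat W (flip x j) k := by
        show (if j = k then _ else if j = k - 1 then _ else _) = _
        rw [if_neg hj1, if_neg hj2]
      rw [e1, e2, pcs_pat_far W x (by omega), sub_self]
  rw [hsum]
  have hGv := hG (x (k - 1)) (x (k - 2)) (x (k - 3)) (x (k + 1)) (x (k + 2)) (x (k + 3))
    (x (k - 4)) (x (k + 4))
  have w0 : pat W x k = W (x (k - 1)) (x (k - 2)) (x (k - 3)) (x (k + 1)) (x (k + 2))
    (x (k + 3)) := rfl
  rw [← w0] at hGv
  have hc : (0 : ℝ) < (4 * (N : ℝ))⁻¹ := inv_pos.mpr hN'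
  have f1 := mul_le_mul_of_nonneg_left hGv hc.le
  calc M * (pat W x k + (4 * (N : ℝ))⁻¹ * _) ≤ M * (pat W x k + (4 * (N : ℝ))⁻¹ *
        (-ε * pat W x k)) := mul_le_mul_of_nonneg_left (by linarith) hM
    _ = M * (1 - ε / (4 * N)) * pat W x k := by
        rw [div_eq_mul_inv]
        ring

end H72IPS
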