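import Pool.Agent.H72.IPS.Bas

/-! # The dual basis: definitions and the algebra of one flip

`a0 = cr p false false`, `a1 = cr p false true`, `b0 = cr p true false`, `b1 = cr p true true`. -/

namespace H72IPS

open Finset

/-- `phi = 1` at state `0`, `phi = -q` at state `1` -/
def phi (q : ℝ) (x : Cfg) (j : ℤ) : ℝ := if x j then -q else 1

/-- products of `phi` -/
def Phi (q : ℝ) (A : Finset ℤ) (x : Cfg) : ℝ := ∏ j ∈ A, phi q x j

/-- the constants of the dual process -/
noncomputable def qq (p : Bool → Bool → ℝ) : ℝ := cr p true true / cr p false true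
noncomputable def rho (p : Bool → Bool → ℝ) : ℝ := cr p false true / (cr p false true + cr p true true)
def r0 (p : Bool → Bool → ℝ) : ℝ := cr p false false + cr p true false
def DD (p : Bool → Bool → ℝ) : ℝ :=
  cr p false true + cr p true true - (cr p false false + cr p true false)
noncomputable def uu (p : Bool → Bool → ℝ) : ℝ :=
  r0 p - cr p false false * (cr p false true + cr p true true) / cr p false true
noncomputable def kap (p : Bool → Bool → ℝ) : ℝ := r0 p - |uu p|

/-- the hypotheses of the dual theorem -/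
structure DualHyp (p : Bool → Bool → ℝ) : Prop where
  prob : IsProb p
  pos : ∀ s y, 0 < cr p s y
  east : ∀ s, cr p s false ≤ cr p s true
  main : cr p false false * (cr p true true - cr p false true)
    < 2 * cr p false true * cr p true false

theorem phi_uu_eq {p : Bool → Bool → ℝ} (h : DualHyp p) :
    uu p = cr p true false - cr p false false * qq p := by
  have h1 := h.pos false true
  unfold uu r0 qq
  field_simp
  ring

theorem phi_qq_pos {p : Bool → Bool → ℝ} (h : DualHyp p) : 0 < qq p :=
  div_pos (h.pos true true) (h.pos false true)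

theorem phi_qq_mul {p : Bool → Bool → ℝ} (h : DualHyp p) :
    cr p false true * qq p = cr p true true := by
  have h1 := h.pos false true
  unfold qq
  field_simp

theorem phi_rho_mul {p : Bool → Bool → ℝ} (h : DualHyp p) : rho p * (1 + qq p) = 1 := by
  have h1 := h.pos false true
  have h2 := h.pos true true
  unfold rho qq
  field_simp

theorem phi_abs_uu_lt {p : Bool → Bool → ℝ} (h : DualHyp p) : |uu p| < r0 p := by
  have ha0 := h.pos false false
  have ha1 := h.pos false true
  have hb0 := h.pos true false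
  have hq := phi_qq_pos h
  have hqm := phi_qq_mul h
  have hm := h.main
  rw [abs_lt, phi_uu_eq h]
  unfold r0
  constructor
  · have h3 : cr p false true * (cr p false false * qq p) <
        cr p false true * (cr p false false + 2 * cr p true false) := by
      nlinarith
    have h4 := lt_of_mul_lt_mul_left h3 ha1.le
    linarith
  · have : 0 < cr p false false * qq p := mul_pos ha0 hq
    linarith

theorem DualHyp.kap_pos {p : Bool → Bool → ℝ} (h : DualHyp p) : 0 < kap p := by
  have := phi_abs_uu_lt h
  unfold kap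
  linarith

theorem DualHyp.consts {p : Bool → Bool → ℝ} (h : DualHyp p) :
    0 < qq p ∧ 0 < rho p ∧ rho p < 1 ∧ 0 ≤ DD p ∧ 0 < r0 p ∧ r0 p ≤ 2 ∧ r0 p + DD p ≤ 2 ∧
      |uu p| ≤ 2 ∧ |uu p| < r0 p := by
  have ha0 := h.pos false false
  have ha1 := h.pos false true
  have hb0 := h.pos true false
  have hb1 := h.pos true true
  have e0 := h.east false
  have e1 := h.east true
  have c1 := cr_le_one h.prob false false
  have c2 := cr_le_one h.prob true false
  have c3 := cr_le_one h.prob false true
  have c4 := cr_le_one h.prob true true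
  have hu := phi_abs_uu_lt h
  have hr : r0 p ≤ 2 := by unfold r0; linarith
  refine ⟨phi_qq_pos h, by unfold rho; positivity, ?_, ?_, ?_, hr, ?_, by linarith, hu⟩
  · unfold rho
    rw [div_lt_one (by positivity)]
    linarith
  · unfold DD; linarith
  · unfold r0; linarith
  · unfold r0 DD; linarith

theorem abs_phi_le (q : ℝ) (hq : 0 < q) (x : Cfg) (j : ℤ) : |phi q x j| ≤ max 1 q := by
  unfold phi
  split_ifs
  · rw [abs_neg, abs_of_pos hq]; exact le_max_right _ _
  · rw [abs_one]; exact le_max_left _ _

theorem phi_Phi_erase (q : ℝ) {A : Finset ℤ} {j : ℤ} (hj : j ∈ A) (x : Cfg) :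
    Phi q A x = phi q x j * Phi q (A.erase j) x :=
  (Finset.mul_prod_erase A (phi q x) hj).symm

theorem phi_Phi_insert (q : ℝ) {A : Finset ℤ} {j : ℤ} (hj : j ∉ A) (x : Cfg) :
    Phi q (insert j A) x = phi q x j * Phi q A x :=
  Finset.prod_insert hj

theorem phi_Phi_flip (q : ℝ) (A : Finset ℤ) (j : ℤ) (x : Cfg) :
    Phi q (A.erase j) (flip x j) = Phi q (A.erase j) x := by
  refine Finset.prod_congr rfl fun i hi => ?_
  have h1 : i ≠ j := Finset.ne_of_mem_erase hi
  simp [phi, flip, Function.update_of_ne h1]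

theorem phi_sq (q : ℝ) (x : Cfg) (j : ℤ) : phi q x j * phi q x j = (1 - q) * phi q x j + q := by
  unfold phi
  split_ifs <;> ring

/-- flip of one site of `A`: with `y = x (j+1)`, `r_y = cr false y + cr true y`, `u_y = uu` if `y = 0`
and `u_y = 0` if `y = 1` -/
theorem flip_Phi {p : Bool → Bool → ℝ} (h : DualHyp p) {A : Finset ℤ} {j : ℤ} (hj : j ∈ A)
    (x : Cfg) :
    rate p x j * (Phi (qq p) A (flip x j) - Phi (qq p) A x)
      = -(cr p false (x (j + 1)) + cr p true (x (j + 1))) * Phi (qq p) A x
        + (if x (j + 1) then 0 else uu p) * Phi (qq p) (A.erase j) x := by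
  have hqm := phi_qq_mul h
  rw [phi_Phi_erase (qq p) hj (flip x j), phi_Phi_erase (qq p) hj x, phi_Phi_flip, phi_uu_eq h]
  generalize Phi (qq p) (A.erase j) x = Ψ
  have hf : phi (qq p) (flip x j) j = if x j then 1 else -(qq p) := by
    unfold phi flip
    rw [Function.update_self]
    cases x j <;> simp
  rw [hf]
  unfold rate phi
  rcases hx : x j with _ | _ <;> rcases hy : x (j + 1) with _ | _
  · simp only [Bool.false_eq_true, if_false]
    ring
  · simp only [Bool.false_eq_true, if_false, if_true]
    linear_combination (-Ψ) * hqm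
  · simp only [Bool.false_eq_true, if_false, if_true]
    ring
  · simp only [if_true]
    linear_combination (-Ψ) * hqm

/-- the state of a site in terms of `phi` -/
theorem phi_ind {p : Bool → Bool → ℝ} (h : DualHyp p) (x : Cfg) (j : ℤ) :
    (if x j then (1 : ℝ) else 0) = rho p * (1 - phi (qq p) x j) := by
  have h1 := phi_rho_mul h
  unfold phi
  split_ifs
  · linear_combination -h1
  · ring

theorem phi_rate_sum {p : Bool → Bool → ℝ} (h : DualHyp p) (x : Cfg) (j : ℤ) :
    cr p false (x j) + cr p true (x j) = r0 p + DD p * (rho p * (1 - phi (qq p) x j)) := by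
  rw [← phi_ind h]
  unfold r0 DD
  cases x j <;> simp

theorem phi_uu_if {p : Bool → Bool → ℝ} (h : DualHyp p) (x : Cfg) (j : ℤ) :
    (if x j then (0 : ℝ) else uu p) = uu p * (1 - rho p * (1 - phi (qq p) x j)) := by
  rw [← phi_ind h]
  split_ifs <;> ring

/-- expansion if `j + 1 ∉ A` -/
theorem flip_Phi_notMem {p : Bool → Bool → ℝ} (h : DualHyp p) {A : Finset ℤ} {j : ℤ} (hj : j ∈ A)
    (hj' : j + 1 ∉ A) (x : Cfg) :
    rate p x j * (Phi (qq p) A (flip x j) - Phi (qq p) A x)
      = -(r0 p + DD p * rho p) * Phi (qq p) A x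
        + DD p * rho p * Phi (qq p) (insert (j + 1) A) x
        + uu p * (1 - rho p) * Phi (qq p) (A.erase j) x
        + uu p * rho p * Phi (qq p) (insert (j + 1) (A.erase j)) x := by
  rw [flip_Phi h hj x, phi_rate_sum h, phi_uu_if h, phi_Phi_insert (qq p) hj' x,
    phi_Phi_insert (qq p) (fun hh => hj' (Finset.mem_of_mem_erase hh)) x]
  ring

/-- expansion if `j + 1 ∈ A` -/
theorem flip_Phi_mem {p : Bool → Bool → ℝ} (h : DualHyp p) {A : Finset ℤ} {j : ℤ} (hj : j ∈ A)
    (hj' : j + 1 ∈ A) (x : Cfg) :
    rate p x j * (Phi (qq p) A (flip x j) - Phi (qq p) A x)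
      = -(r0 p + DD p * (1 - rho p)) * Phi (qq p) A x
        + DD p * (1 - rho p) * Phi (qq p) (A.erase (j + 1)) x
        + uu p * (1 - rho p) * Phi (qq p) ((A.erase j).erase (j + 1)) x
        + uu p * rho p * Phi (qq p) (A.erase j) x := by
  have hne : j + 1 ≠ j := by omega
  have hj2 : j + 1 ∈ A.erase j := Finset.mem_erase.mpr ⟨hne, hj'⟩
  have hsq := phi_sq (qq p) x (j + 1)
  have hr := phi_rho_mul h
  rw [flip_Phi h hj x, phi_rate_sum h, phi_uu_if h, phi_Phi_erase (qq p) hj' x,
    phi_Phi_erase (qq p) hj2 x]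
  generalize Phi (qq p) (A.erase (j + 1)) x = Ψ
  generalize Phi (qq p) ((A.erase j).erase (j + 1)) x = Ψ'
  generalize phi (qq p) x (j + 1) = f at hsq
  linear_combination (DD p * rho p * Ψ + uu p * rho p * Ψ') * hsq +
    (DD p * Ψ * (1 - f) + uu p * Ψ' * (1 - f)) * hr

end H72IPS
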