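import Pool.Agent.H72.IPS.Phi

/-! # PHIQ: the operator `Qf` on products -/

namespace H72IPS

open Finset

theorem phiq_Phi_flip_notMem (q : ℝ) {A : Finset ℤ} {j : ℤ} (hj : j ∉ A) (x : Cfg) :
    Phi q A (flip x j) = Phi q A x := by
  unfold Phi
  refine Finset.prod_congr rfl fun i hi => ?_
  have hij : i ≠ j := fun h => hj (h ▸ hi)
  unfold phi flip
  rw [Function.update_of_ne hij]

/-- the operator `Qf` on a product of `Phi A`, `A ⊆ [m, n)`, and a function of the sites `≥ n`
(the hypothesis `m ≤ n` is needed for `A = ∅`) -/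
theorem Qf_Phi_mul (p : Bool → Bool → ℝ) (q : ℝ) {N : ℕ} {m n : ℤ} (hm : -(N : ℤ) ≤ m) (hn : n ≤ N)
    {A : Finset ℤ} (hA : A ⊆ Ico m n) {h : Cfg → ℝ}
    (hdep : ∀ x y : Cfg, (∀ i, n ≤ i → x i = y i) → h x = h y) (x : Cfg)
    (hmn : m ≤ n) :
    Qf p N (fun x => Phi q A x * h x) x
      = Phi q A x * (h x + (4 * (N : ℝ))⁻¹ * ∑ j ∈ Ico n N, rate p x j * (h (flip x j) - h x))
        + (4 * (N : ℝ))⁻¹ * (∑ j ∈ A, rate p x j * (Phi q A (flip x j) - Phi q A x)) * h x := by
  have hlow : ∀ j : ℤ, j < n → h (flip x j) = h x := by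
    intro j hj
    refine hdep _ _ fun i hi => ?_
    unfold flip
    rw [Function.update_of_ne (by omega)]
  have hsplit : ∑ j ∈ Ico (-(N : ℤ)) N,
        rate p x j * (Phi q A (flip x j) * h (flip x j) - Phi q A x * h x) =
      (∑ j ∈ A, rate p x j * (Phi q A (flip x j) - Phi q A x)) * h x +
        Phi q A x * ∑ j ∈ Ico n (N : ℤ), rate p x j * (h (flip x j) - h x) := by
    have h1 : (∑ j ∈ A, rate p x j * (Phi q A (flip x j) - Phi q A x)) * h x =
        ∑ j ∈ Ico (-(N : ℤ)) N, (if j < n then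
          rate p x j * (Phi q A (flip x j) - Phi q A x) * h x else 0) := by
      rw [Finset.sum_mul]
      have hAI : A ⊆ Ico (-(N : ℤ)) N := by
        intro j hj
        have := Finset.mem_Ico.mp (hA hj)
        exact Finset.mem_Ico.mpr ⟨by omega, by omega⟩
      rw [← Finset.sum_subset hAI]
      · refine Finset.sum_congr rfl fun j hj => ?_
        rw [if_pos (Finset.mem_Ico.mp (hA hj)).2]
      · intro j _ hjA
        rw [phiq_Phi_flip_notMem q hjA]
        simp
    have h2 : Phi q A x * ∑ j ∈ Ico n (N : ℤ), rate p x j * (h (flip x j) - h x) =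
        ∑ j ∈ Ico (-(N : ℤ)) N, (if j < n then 0 else
          Phi q A x * (rate p x j * (h (flip x j) - h x))) := by
      rw [Finset.mul_sum]
      have hI : Ico n (N : ℤ) ⊆ Ico (-(N : ℤ)) N := Finset.Ico_subset_Ico (by omega) le_rfl
      rw [← Finset.sum_subset hI]
      · refine Finset.sum_congr rfl fun j hj => ?_
        rw [if_neg (by have := (Finset.mem_Ico.mp hj).1; omega)]
      · intro j hj hjn
        rw [if_pos]
        by_contra hlt
        exact hjn (Finset.mem_Ico.mpr ⟨by omega, (Finset.mem_Ico.mp hj).2⟩)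
    rw [h1, h2, ← Finset.sum_add_distrib]
    refine Finset.sum_congr rfl fun j hj => ?_
    by_cases hjn : j < n
    · rw [if_pos hjn, if_pos hjn, hlow j hjn]; ring
    · rw [if_neg hjn, if_neg hjn]
      have hjA : j ∉ A := fun h => hjn (Finset.mem_Ico.mp (hA h)).2
      rw [phiq_Phi_flip_notMem q hjA]; ring
  unfold Qf
  rw [hsplit]
  ring

end H72IPS
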