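import Pool.Agent.H72.IPS.PhiQ

/-! # REP1: sup norm representations on a block of sites -/

namespace H72IPS

open Finset

/-- `Rep1 q m n g γ`: `g` is a function of the sites `≥ n` plus a sum of products `Phi A * h`, `A`
nonempty, `A ⊆ [m, n)`, `h` a function of the sites `≥ n`, with total supremum of the `|h|` at most
`γ` -/
inductive Rep1 (q : ℝ) (m n : ℤ) : (Cfg → ℝ) → ℝ → Prop
  | base (h : Cfg → ℝ) (hdep : ∀ x y : Cfg, (∀ i, n ≤ i → x i = y i) → h x = h y) : Rep1 q m n h 0
  | atom (A : Finset ℤ) (hA : A.Nonempty) (hsub : A ⊆ Ico m n) (h : Cfg → ℝ)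
      (hdep : ∀ x y : Cfg, (∀ i, n ≤ i → x i = y i) → h x = h y) (K : ℝ) (hK : ∀ x, |h x| ≤ K) :
      Rep1 q m n (fun x => Phi q A x * h x) K
  | add {g g' : Cfg → ℝ} {γ γ' : ℝ} : Rep1 q m n g γ → Rep1 q m n g' γ' →
      Rep1 q m n (fun x => g x + g' x) (γ + γ')
  | mono {g : Cfg → ℝ} {γ γ' : ℝ} : Rep1 q m n g γ → γ ≤ γ' → Rep1 q m n g γ'

theorem rep1_abs_Phi_le {q : ℝ} (hq : 0 < q) {m n : ℤ} {A : Finset ℤ} (hsub : A ⊆ Ico m n)
    (x : Cfg) : |Phi q A x| ≤ (max 1 q) ^ (n - m).toNat := by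
  have hM : (1 : ℝ) ≤ max 1 q := le_max_left _ _
  have h1 : |Phi q A x| ≤ (max 1 q) ^ A.card := by
    unfold Phi
    rw [Finset.abs_prod]
    calc ∏ i ∈ A, |phi q x i| ≤ ∏ _i ∈ A, max 1 q :=
          Finset.prod_le_prod (fun i _ => abs_nonneg _) (fun i _ => abs_phi_le q hq x i)
      _ = (max 1 q) ^ A.card := Finset.prod_const _
  have h2 : A.card ≤ (n - m).toNat := by
    have := Finset.card_le_card hsub
    rwa [Int.card_Ico] at this
  exact h1.trans (pow_le_pow_right₀ hM h2)

theorem Rep1.eval {q : ℝ} (hq : 0 < q) {m n : ℤ} {g : Cfg → ℝ} {γ : ℝ} (h : Rep1 q m n g γ)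
    (x z : Cfg) (hxz : ∀ i, n ≤ i → x i = z i) :
    |g x - g z| ≤ 2 * (max 1 q) ^ (n - m).toNat * γ := by
  have hM : (1 : ℝ) ≤ max 1 q := le_max_left _ _
  induction h with
  | base h hdep =>
    rw [hdep x z hxz, sub_self, abs_zero, mul_zero]
  | atom A hA hsub h hdep K hK =>
    have hK0 : 0 ≤ K := (abs_nonneg _).trans (hK x)
    have h1 := rep1_abs_Phi_le hq hsub x
    have h2 := rep1_abs_Phi_le hq hsub z
    have h3 : |Phi q A x * h x| ≤ (max 1 q) ^ (n - m).toNat * K := by
      rw [abs_mul]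
      exact mul_le_mul h1 (hK x) (abs_nonneg _) (by positivity)
    have h4 : |Phi q A z * h z| ≤ (max 1 q) ^ (n - m).toNat * K := by
      rw [abs_mul]
      exact mul_le_mul h2 (hK z) (abs_nonneg _) (by positivity)
    have h5 := abs_sub (Phi q A x * h x) (Phi q A z * h z)
    calc |Phi q A x * h x - Phi q A z * h z| ≤ |Phi q A x * h x| + |Phi q A z * h z| := h5
      _ ≤ 2 * (max 1 q) ^ (n - m).toNat * K := by linarith
  | @add g g' γ γ' _ _ ih ih' =>
    have h5 : |g x + g' x - (g z + g' z)| ≤ |g x - g z| + |g' x - g' z| := by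
      have : g x + g' x - (g z + g' z) = (g x - g z) + (g' x - g' z) := by ring
      rw [this]
      exact abs_add_le _ _
    calc |g x + g' x - (g z + g' z)| ≤ |g x - g z| + |g' x - g' z| := h5
      _ ≤ 2 * (max 1 q) ^ (n - m).toNat * γ + 2 * (max 1 q) ^ (n - m).toNat * γ' :=
          add_le_add ih ih'
      _ = 2 * (max 1 q) ^ (n - m).toNat * (γ + γ') := by ring
  | mono _ hle ih =>
    exact ih.trans (mul_le_mul_of_nonneg_left hle (by positivity))

theorem rep1_congr {q : ℝ} {m n : ℤ} {g g' : Cfg → ℝ} {γ : ℝ} (h : Rep1 q m n g γ)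
    (he : ∀ x, g' x = g x) : Rep1 q m n g' γ := by
  have : g' = g := funext he
  rw [this]; exact h

/-- an atom with a possibly empty set -/
theorem rep1_atom' {q : ℝ} {m n : ℤ} (A : Finset ℤ) (hsub : A ⊆ Ico m n) (h : Cfg → ℝ)
    (hdep : ∀ x y : Cfg, (∀ i, n ≤ i → x i = y i) → h x = h y) (K : ℝ) (hK : ∀ x, |h x| ≤ K) :
    Rep1 q m n (fun x => Phi q A x * h x) K := by
  rcases A.eq_empty_or_nonempty with rfl | hA
  · have hK0 : 0 ≤ K := (abs_nonneg _).trans (hK (fun _ => false))
    refine rep1_congr ((Rep1.base h hdep).mono hK0) (fun x => ?_)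
    simp [Phi]
  · exact Rep1.atom A hA hsub h hdep K hK

/-- a scaled atom -/
theorem rep1_atom_smul {q : ℝ} {m n : ℤ} (A : Finset ℤ) (hsub : A ⊆ Ico m n) (h : Cfg → ℝ)
    (hdep : ∀ x y : Cfg, (∀ i, n ≤ i → x i = y i) → h x = h y) (K : ℝ) (hK : ∀ x, |h x| ≤ K)
    (c : ℝ) : Rep1 q m n (fun x => c * Phi q A x * h x) (|c| * K) := by
  refine rep1_congr (rep1_atom' A hsub (fun x => c * h x)
    (fun x y hxy => by rw [hdep x y hxy]) (|c| * K) (fun x => ?_)) (fun x => by ring)
  rw [abs_mul]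
  exact mul_le_mul_of_nonneg_left (hK x) (abs_nonneg _)

theorem rep1_zero {q : ℝ} {m n : ℤ} : Rep1 q m n (fun _ => 0) 0 :=
  Rep1.base _ (fun _ _ _ => rfl)

theorem rep1_sum {q : ℝ} {m n : ℤ} {ι : Type*} (S : Finset ι) (g : ι → Cfg → ℝ) (γ : ι → ℝ)
    (h : ∀ i ∈ S, Rep1 q m n (g i) (γ i)) :
    Rep1 q m n (fun x => ∑ i ∈ S, g i x) (∑ i ∈ S, γ i) := by
  classical
  induction S using Finset.induction_on with
  | empty => exact rep1_congr rep1_zero (fun x => by simp)
  | insert a S ha ih =>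
    rw [Finset.sum_insert ha]
    refine rep1_congr ((h a (Finset.mem_insert_self _ _)).add
      (ih fun i hi => h i (Finset.mem_insert_of_mem hi))) (fun x => ?_)
    rw [Finset.sum_insert ha]

theorem rep1_smul {q : ℝ} {m n : ℤ} {g : Cfg → ℝ} {γ : ℝ} (h : Rep1 q m n g γ) (c : ℝ)
    (hc : 0 ≤ c) : Rep1 q m n (fun x => c * g x) (c * γ) := by
  induction h with
  | base h hdep =>
    rw [mul_zero]
    exact Rep1.base _ (fun x y hxy => by rw [hdep x y hxy])
  | atom A hA hsub h hdep K hK =>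
    refine rep1_congr (Rep1.atom A hA hsub (fun x => c * h x)
      (fun x y hxy => by rw [hdep x y hxy]) (c * K) (fun x => ?_)) (fun x => by ring)
    rw [abs_mul, abs_of_nonneg hc]
    exact mul_le_mul_of_nonneg_left (hK x) hc
  | add _ _ ih ih' =>
    rw [mul_add]
    exact rep1_congr (ih.add ih') (fun x => by ring)
  | mono _ hle ih => exact ih.mono (mul_le_mul_of_nonneg_left hle hc)

/-- the expansion of one flip inside `A` -/
theorem rep1_term {p : Bool → Bool → ℝ} (hp : DualHyp p) {m n : ℤ} {A : Finset ℤ}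
    (hA : A ⊆ Ico m n) {j : ℤ} (hj : j ∈ A) :
    ∃ (e : Cfg → ℝ) (D : ℝ) (R : Cfg → ℝ),
      (∀ x y : Cfg, (∀ i, n ≤ i → x i = y i) → e x = e y) ∧
      (∀ x, D ≤ e x ∧ e x ≤ 2) ∧
      (∀ x, rate p x j * (Phi (qq p) A (flip x j) - Phi (qq p) A x)
        = -e x * Phi (qq p) A x + R x) ∧
      (∀ (h : Cfg → ℝ) (K : ℝ), (∀ x y : Cfg, (∀ i, n ≤ i → x i = y i) → h x = h y) →
        (∀ x, |h x| ≤ K) → Rep1 (qq p) m n (fun x => R x * h x) (K * (D - kap p))) := by
  obtain ⟨hq, hr, hr1, hD, hr0, hr02, hrD, hu, hur⟩ := hp.consts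
  have hjI := Finset.mem_Ico.mp (hA hj)
  have hDr : 0 ≤ DD p * rho p := mul_nonneg hD hr.le
  have hDr' : 0 ≤ DD p * (1 - rho p) := mul_nonneg hD (by linarith)
  have herase : A.erase j ⊆ Ico m n := (Finset.erase_subset _ _).trans hA
  by_cases hjn : j + 1 < n
  · have hj1 : j + 1 ∈ Ico m n := Finset.mem_Ico.mpr ⟨by omega, hjn⟩
    by_cases hjA : j + 1 ∈ A
    · refine ⟨fun _ => r0 p + DD p * (1 - rho p), r0 p + DD p * (1 - rho p),
        fun x => DD p * (1 - rho p) * Phi (qq p) (A.erase (j + 1)) x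
          + uu p * (1 - rho p) * Phi (qq p) ((A.erase j).erase (j + 1)) x
          + uu p * rho p * Phi (qq p) (A.erase j) x, fun _ _ _ => rfl, fun x => ⟨le_rfl, ?_⟩,
        fun x => ?_, fun h K hdep hK => ?_⟩
      · nlinarith
      · rw [flip_Phi_mem hp hj hjA x]; ring
      · have k1 := rep1_atom_smul (q := qq p) (A.erase (j + 1))
          ((Finset.erase_subset _ _).trans hA) h hdep K hK (DD p * (1 - rho p))
        have k2 := rep1_atom_smul (q := qq p) ((A.erase j).erase (j + 1))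
          ((Finset.erase_subset _ _).trans herase) h hdep K hK (uu p * (1 - rho p))
        have k3 := rep1_atom_smul (q := qq p) (A.erase j) herase h hdep K hK (uu p * rho p)
        refine (rep1_congr ((k1.add k2).add k3) (fun x => by ring)).mono (le_of_eq ?_)
        rw [abs_mul (uu p), abs_mul (uu p), abs_of_nonneg hDr', abs_of_pos hr,
          abs_of_pos (by linarith : (0 : ℝ) < 1 - rho p)]
        unfold kap
        ring
    · refine ⟨fun _ => r0 p + DD p * rho p, r0 p + DD p * rho p,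
        fun x => DD p * rho p * Phi (qq p) (insert (j + 1) A) x
          + uu p * (1 - rho p) * Phi (qq p) (A.erase j) x
          + uu p * rho p * Phi (qq p) (insert (j + 1) (A.erase j)) x, fun _ _ _ => rfl,
          fun x => ⟨le_rfl, ?_⟩, fun x => ?_, fun h K hdep hK => ?_⟩
      · nlinarith
      · rw [flip_Phi_notMem hp hj hjA x]; ring
      · have k1 := rep1_atom_smul (q := qq p) (insert (j + 1) A)
          (Finset.insert_subset hj1 hA) h hdep K hK (DD p * rho p)
        have k2 := rep1_atom_smul (q := qq p) (A.erase j) herase h hdep K hK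
          (uu p * (1 - rho p))
        have k3 := rep1_atom_smul (q := qq p) (insert (j + 1) (A.erase j))
          (Finset.insert_subset hj1 herase) h hdep K hK (uu p * rho p)
        refine (rep1_congr ((k1.add k2).add k3) (fun x => by ring)).mono (le_of_eq ?_)
        rw [abs_mul (uu p), abs_mul (uu p), abs_of_nonneg hDr, abs_of_pos hr,
          abs_of_pos (by linarith : (0 : ℝ) < 1 - rho p)]
        unfold kap
        ring
  · have hjn' : j + 1 = n := by omega
    refine ⟨fun x => cr p false (x n) + cr p true (x n), r0 p,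
      fun x => (if x n then 0 else uu p) * Phi (qq p) (A.erase j) x, fun x y hxy => ?_,
      fun x => ⟨?_, ?_⟩, fun x => ?_, fun h K hdep hK => ?_⟩
    · simp only [hxy n le_rfl]
    · have h0 := hp.east false
      have h1 := hp.east true
      unfold r0
      cases hx : x n
      · simp only [hx, le_refl]
      · simp only [hx]; linarith
    · cases hx : x n
      · simp only [hx]
        unfold r0 at hr02
        exact hr02
      · simp only [hx]
        have : r0 p + DD p = cr p false true + cr p true true := by unfold r0 DD; ring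
        linarith
    · rw [flip_Phi hp hj x, hjn']
    · refine (rep1_congr (rep1_atom' (q := qq p) (A.erase j) herase
        (fun x => (if x n then 0 else uu p) * h x) (fun x y hxy => ?_) (|uu p| * K)
        (fun x => ?_)) (fun x => by ring)).mono (le_of_eq ?_)
      · rw [hdep x y hxy, hxy n le_rfl]
      · have hK0 : 0 ≤ K := (abs_nonneg _).trans (hK x)
        rw [abs_mul]
        refine mul_le_mul ?_ (hK x) (abs_nonneg _) (abs_nonneg _)
        split_ifs
        · rw [abs_zero]; exact abs_nonneg _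
        · exact le_rfl
      · unfold kap; ring

theorem rep1_flip_agree {n : ℤ} {x y : Cfg} (hxy : ∀ i, n ≤ i → x i = y i) {j : ℤ} (hj : n ≤ j) :
    ∀ i, n ≤ i → flip x j i = flip y j i := by
  intro i hi
  unfold flip
  by_cases hij : i = j
  · subst hij
    rw [Function.update_self, Function.update_self, hxy i hi]
  · rw [Function.update_of_ne hij, Function.update_of_ne hij, hxy i hi]

theorem rep1_flip_below {n : ℤ} {x : Cfg} {j : ℤ} (hj : j < n) :
    ∀ i, n ≤ i → flip x j i = x i := by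
  intro i hi
  unfold flip
  rw [Function.update_of_ne (by omega)]

theorem rep1_rate_agree (p : Bool → Bool → ℝ) {n : ℤ} {x y : Cfg} (hxy : ∀ i, n ≤ i → x i = y i)
    {j : ℤ} (hj : n ≤ j) : rate p x j = rate p y j := by
  unfold rate
  rw [hxy j hj, hxy (j + 1) (by omega)]

/-- `Qf` of a function of the sites `≥ n` is a function of the sites `≥ n` -/
theorem rep1_Qf_dep (p : Bool → Bool → ℝ) (N : ℕ) {n : ℤ} {h : Cfg → ℝ}
    (hdep : ∀ x y : Cfg, (∀ i, n ≤ i → x i = y i) → h x = h y) (x y : Cfg)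
    (hxy : ∀ i, n ≤ i → x i = y i) : Qf p N h x = Qf p N h y := by
  unfold Qf
  rw [hdep x y hxy]
  congr 2
  refine Finset.sum_congr rfl fun j _ => ?_
  by_cases hj : n ≤ j
  · rw [rep1_rate_agree p hxy hj, hdep _ _ (rep1_flip_agree hxy hj)]
  · have hj' : j < n := not_le.mp hj
    rw [hdep _ _ (rep1_flip_below (x := x) hj'), hdep _ _ (rep1_flip_below (x := y) hj'),
      hdep x y hxy]
    ring

/-- One step.  For an atom `Phi A * h` with `|h| ≤ K`: by `Qf_Phi_mul` and `flip_Phi_mem`,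
`flip_Phi_notMem` (for `j ∈ A`, `j < n - 1`) and `flip_Phi` (for `j = n - 1 ∈ A`), with `c = 4N`,
`Qf (Phi A * h) = Phi A * h' + (1/c) sum_j (three more atoms or a base function)`, where
`|h'| ≤ K (1 - (1/c) sum_j d_j)`, `d_j` the absolute value of the coefficient of `Phi A`
(`r0 + DD rho`, `r0 + DD (1 - rho)`, and at least `r0` for `j = n-1`), because
`h + (1/c) sum_{j ≥ n} rate (h flip - h)` is an average of `h`; and for every `j` the other
coefficients have total absolute value `d_j - kap` (at most `|uu|` for `j = n-1`).  Hence the total is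
at most `K (1 - |A| kap / c) ≤ K (1 - kap / c)`. -/
theorem Rep1.step {p : Bool → Bool → ℝ} (hp : DualHyp p) {N : ℕ} (hN : 1 ≤ N) {m n : ℤ}
    (hm : -(N : ℤ) ≤ m) (hmn : m ≤ n) (hn : n ≤ N) {g : Cfg → ℝ} {γ : ℝ}
    (h : Rep1 (qq p) m n g γ) :
    Rep1 (qq p) m n (Qf p N g) (γ * (1 - kap p / (4 * N))) := by
  have hNpos : (0 : ℝ) < 4 * (N : ℝ) := by
    have : (1 : ℝ) ≤ N := by exact_mod_cast hN
    linarith
  have hinv : (0 : ℝ) < (4 * (N : ℝ))⁻¹ := inv_pos.mpr hNpos
  have hkap := hp.kap_pos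
  induction h with
  | base h hdep =>
    rw [zero_mul]
    exact Rep1.base _ (rep1_Qf_dep p N hdep)
  | atom A hA hsub h hdep K hK =>
    have hK0 : 0 ≤ K := (abs_nonneg _).trans (hK (fun _ => false))
    choose! e D R he hDe hR hRep using fun j (hj : j ∈ A) => rep1_term hp hsub hj
    -- the new function in front of `Phi A`
    set h' : Cfg → ℝ := fun x => h x +
      (4 * (N : ℝ))⁻¹ * ∑ j ∈ Ico n (N : ℤ), rate p x j * (h (flip x j) - h x)
      - (4 * (N : ℝ))⁻¹ * (∑ j ∈ A, e j x) * h x with hh'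
    have hdep' : ∀ x y : Cfg, (∀ i, n ≤ i → x i = y i) → h' x = h' y := by
      intro x y hxy
      have h1 : ∑ j ∈ Ico n (N : ℤ), rate p x j * (h (flip x j) - h x) =
          ∑ j ∈ Ico n (N : ℤ), rate p y j * (h (flip y j) - h y) := by
        refine Finset.sum_congr rfl fun j hj => ?_
        have hj' : n ≤ j := (Finset.mem_Ico.mp hj).1
        rw [rep1_rate_agree p hxy hj', hdep _ _ (rep1_flip_agree hxy hj'), hdep x y hxy]
      have h2 : ∑ j ∈ A, e j x = ∑ j ∈ A, e j y :=
        Finset.sum_congr rfl fun j hj => he j hj x y hxy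
      simp only [hh']
      rw [h1, h2, hdep x y hxy]
    have hcardA : (A.card : ℝ) ≤ (n : ℝ) + N := by
      have h1 := Finset.card_le_card hsub
      rw [Int.card_Ico] at h1
      have h2 : (A.card : ℤ) ≤ n + N := by omega
      exact_mod_cast h2
    have hbound : ∀ x, |h' x| ≤ K * (1 - (4 * (N : ℝ))⁻¹ * ∑ j ∈ A, D j) := by
      intro x
      set s1 := ∑ j ∈ Ico n (N : ℤ), rate p x j with hs1
      set s2 := ∑ j ∈ A, e j x with hs2
      have hs1' : s1 ≤ 2 * ((N : ℝ) - n) := by
        calc s1 ≤ ∑ _j ∈ Ico n (N : ℤ), (2 : ℝ) := by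
              refine Finset.sum_le_sum fun j _ => ?_
              have := cr_le_one hp.prob (x j) (x (j + 1))
              unfold rate; linarith
          _ = 2 * ((N : ℝ) - n) := by
              rw [Finset.sum_const, Int.card_Ico, nsmul_eq_mul]
              have h3 : (((N : ℤ) - n).toNat : ℝ) = (N : ℝ) - n := by
                have h4 : (((N : ℤ) - n).toNat : ℤ) = (N : ℤ) - n := Int.toNat_of_nonneg (by omega)
                exact_mod_cast h4
              rw [h3]; ring
      have hs2' : s2 ≤ 2 * ((n : ℝ) + N) := by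
        calc s2 ≤ ∑ _j ∈ A, (2 : ℝ) := Finset.sum_le_sum fun j hj => (hDe j hj x).2
          _ = 2 * (A.card : ℝ) := by rw [Finset.sum_const, nsmul_eq_mul]; ring
          _ ≤ 2 * ((n : ℝ) + N) := by linarith
      have hs2D : ∑ j ∈ A, D j ≤ s2 := Finset.sum_le_sum fun j hj => (hDe j hj x).1
      have hcoef : 0 ≤ 1 - (4 * (N : ℝ))⁻¹ * (s1 + s2) := by
        have : (4 * (N : ℝ))⁻¹ * (s1 + s2) ≤ (4 * (N : ℝ))⁻¹ * (4 * (N : ℝ)) :=
          mul_le_mul_of_nonneg_left (by linarith) hinv.le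
        rw [inv_mul_cancel₀ hNpos.ne'] at this
        linarith
      have hform : h' x = (1 - (4 * (N : ℝ))⁻¹ * (s1 + s2)) * h x +
          (4 * (N : ℝ))⁻¹ * ∑ j ∈ Ico n (N : ℤ), rate p x j * h (flip x j) := by
        simp only [hh', mul_sub, Finset.sum_sub_distrib, ← Finset.sum_mul]
        ring
      have hrate : ∀ j, 0 ≤ rate p x j := fun j => cr_nonneg hp.prob _ _
      have hsum : |∑ j ∈ Ico n (N : ℤ), rate p x j * h (flip x j)| ≤ s1 * K := by
        calc |∑ j ∈ Ico n (N : ℤ), rate p x j * h (flip x j)|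
            ≤ ∑ j ∈ Ico n (N : ℤ), |rate p x j * h (flip x j)| := Finset.abs_sum_le_sum_abs _ _
          _ ≤ ∑ j ∈ Ico n (N : ℤ), rate p x j * K := by
              refine Finset.sum_le_sum fun j _ => ?_
              rw [abs_mul, abs_of_nonneg (hrate j)]
              exact mul_le_mul_of_nonneg_left (hK _) (hrate j)
          _ = s1 * K := by rw [hs1, Finset.sum_mul]
      rw [hform]
      calc |(1 - (4 * (N : ℝ))⁻¹ * (s1 + s2)) * h x +
            (4 * (N : ℝ))⁻¹ * ∑ j ∈ Ico n (N : ℤ), rate p x j * h (flip x j)|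
          ≤ |(1 - (4 * (N : ℝ))⁻¹ * (s1 + s2)) * h x| +
            |(4 * (N : ℝ))⁻¹ * ∑ j ∈ Ico n (N : ℤ), rate p x j * h (flip x j)| := abs_add_le _ _
        _ ≤ (1 - (4 * (N : ℝ))⁻¹ * (s1 + s2)) * K + (4 * (N : ℝ))⁻¹ * (s1 * K) := by
            refine add_le_add ?_ ?_
            · rw [abs_mul, abs_of_nonneg hcoef]
              exact mul_le_mul_of_nonneg_left (hK x) hcoef
            · rw [abs_mul, abs_of_pos hinv]
              exact mul_le_mul_of_nonneg_left hsum hinv.le
        _ = K * (1 - (4 * (N : ℝ))⁻¹ * s2) := by ring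
        _ ≤ K * (1 - (4 * (N : ℝ))⁻¹ * ∑ j ∈ A, D j) := by
            refine mul_le_mul_of_nonneg_left ?_ hK0
            have := mul_le_mul_of_nonneg_left hs2D hinv.le
            linarith
    have hmain : Rep1 (qq p) m n (fun x => Phi (qq p) A x * h' x)
        (K * (1 - (4 * (N : ℝ))⁻¹ * ∑ j ∈ A, D j)) := Rep1.atom A hA hsub h' hdep' _ hbound
    have hrest : Rep1 (qq p) m n (fun x => (4 * (N : ℝ))⁻¹ * ∑ j ∈ A, R j x * h x)
        ((4 * (N : ℝ))⁻¹ * ∑ j ∈ A, K * (D j - kap p)) :=
      rep1_smul (rep1_sum A (fun j x => R j x * h x) _ fun j hj => hRep j hj h K hdep hK) _ hinv.le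
    refine (rep1_congr (hmain.add hrest) (fun x => ?_)).mono ?_
    · rw [Qf_Phi_mul p (qq p) hm hn hsub hdep x (by assumption)]
      have h1 : ∑ j ∈ A, rate p x j * (Phi (qq p) A (flip x j) - Phi (qq p) A x) =
          -(∑ j ∈ A, e j x) * Phi (qq p) A x + ∑ j ∈ A, R j x := by
        rw [Finset.sum_congr rfl fun j hj => hR j hj x, Finset.sum_add_distrib, ← Finset.sum_mul,
          Finset.sum_neg_distrib]
      rw [h1, ← Finset.sum_mul]
      simp only [hh']
      ring
    · have hcard : (1 : ℝ) ≤ A.card := by exact_mod_cast hA.card_pos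
      have h1 : ∑ j ∈ A, K * (D j - kap p) = K * ∑ j ∈ A, D j - A.card * (K * kap p) := by
        rw [← Finset.mul_sum, Finset.sum_sub_distrib, Finset.sum_const, nsmul_eq_mul]
        ring
      rw [h1]
      have h2 : K * kap p ≤ A.card * (K * kap p) := by
        have h3 : 0 ≤ K * kap p := mul_nonneg hK0 hkap.le
        nlinarith
      have h4 := mul_le_mul_of_nonneg_left h2 hinv.le
      have h5 : kap p / (4 * (N : ℝ)) = (4 * (N : ℝ))⁻¹ * kap p := by
        rw [div_eq_mul_inv, mul_comm]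
      rw [h5]
      linarith
  | @add g g' γ γ' _ _ ih ih' =>
    rw [Qf_add, add_mul]
    exact ih.add ih'
  | mono _ hle ih =>
    refine ih.mono (mul_le_mul_of_nonneg_right hle ?_)
    obtain ⟨_, _, _, _, hr0, hr02, _, _, _⟩ := hp.consts
    have h1 : kap p ≤ 2 := by
      unfold kap
      have := abs_nonneg (uu p)
      linarith
    have h2 : kap p / (4 * (N : ℝ)) ≤ 1 := by
      rw [div_le_one hNpos]
      have : (1 : ℝ) ≤ N := by exact_mod_cast hN
      linarith
    linarith

end H72IPS
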