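import Pool.Agent.H72.IPS.Lim

/-! # UNI: uniqueness for the forward equation -/

namespace H72IPS

open Finset Filter Topology MeasureTheory

/-- `g` depends only on the sites of `T` -/
def UniDep (T : Finset ℤ) (g : Cfg → ℝ) : Prop :=
  ∀ x y : Cfg, (∀ i ∈ T, x i = y i) → g x = g y

theorem uni_dep_sum (p : Bool → Bool → ℝ) (N : ℕ) (m : ℤ) {g : Cfg → ℝ}
    (hg : UniDep (Finset.Icc m (N : ℤ)) g) :
    UniDep (Finset.Icc m (N : ℤ))
      (fun x => ∑ j ∈ Finset.Ico (-(N : ℤ)) N, rate p x j * (g (flip x j) - g x)) := by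
  intro x y hxy
  refine Finset.sum_congr rfl fun j hj => ?_
  rw [Finset.mem_Ico] at hj
  by_cases hjT : j ∈ Finset.Icc m (N : ℤ)
  · have h1 : x j = y j := hxy j hjT
    have h2 : x (j + 1) = y (j + 1) := hxy (j + 1) (by
      rw [Finset.mem_Icc] at hjT ⊢
      omega)
    have h3 : g (flip x j) = g (flip y j) := hg _ _ (fun i hi => by
      unfold flip
      by_cases hij : i = j
      · subst hij
        rw [Function.update_self, Function.update_self, h1]
      · rw [Function.update_of_ne hij, Function.update_of_ne hij]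
        exact hxy i hi)
    unfold rate
    rw [h1, h2, h3, hg x y hxy]
  · have h4 : ∀ z : Cfg, g (flip z j) = g z := fun z => hg _ _ (fun i hi => by
      unfold flip
      rw [Function.update_of_ne]
      rintro rfl
      exact hjT hi)
    rw [h4, h4, sub_self, sub_self, mul_zero, mul_zero]

theorem uni_dep_Qf (p : Bool → Bool → ℝ) (N : ℕ) (m : ℤ) {g : Cfg → ℝ}
    (hg : UniDep (Finset.Icc m (N : ℤ)) g) : UniDep (Finset.Icc m (N : ℤ)) (Qf p N g) := by
  intro x y hxy
  have h1 := uni_dep_sum p N m hg x y hxy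
  simp only at h1
  unfold Qf
  rw [h1, hg x y hxy]

theorem uni_dep_SN (p : Bool → Bool → ℝ) {N : ℕ} (hN : 1 ≤ N) (m : ℤ) (t : ℝ) (f : CC)
    (hf : UniDep (Finset.Icc m (N : ℤ)) f) : UniDep (Finset.Icc m (N : ℤ)) (SN p N t f) := by
  intro x y hxy
  have h := SN_hasSum p hN t f x
  have h' := SN_hasSum p hN t f y
  have hit : ∀ n, UniDep (Finset.Icc m (N : ℤ)) ((Qf p N)^[n] f) := by
    intro n
    induction n with
    | zero => exact hf
    | succ n ih =>
      rw [Function.iterate_succ_apply']
      exact uni_dep_Qf p N m ih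
  have he : (fun n : ℕ => Real.exp (-(4 * N * t)) * (4 * N * t) ^ n / (n.factorial : ℝ)
      * (Qf p N)^[n] f x) = (fun n : ℕ => Real.exp (-(4 * N * t)) * (4 * N * t) ^ n /
        (n.factorial : ℝ) * (Qf p N)^[n] f y) := by
    funext n
    rw [hit n x y hxy]
  rw [he] at h
  exact h.unique h'

/-- the configuration given by a pattern on `T` -/
noncomputable def uniPat (T : Finset ℤ) (a : T → Bool) : Cfg :=
  fun i => if h : i ∈ T then a ⟨i, h⟩ else false

open Classical in
/-- the indicator function of a pattern on `T` -/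
noncomputable def uniInd (T : Finset ℤ) (a : T → Bool) (x : Cfg) : ℝ :=
  if (∀ i : T, x i = a i) then 1 else 0

theorem uni_expand {T : Finset ℤ} {g : Cfg → ℝ} (hg : UniDep T g) (x : Cfg) :
    g x = ∑ a : T → Bool, g (uniPat T a) * uniInd T a x := by
  classical
  rw [Finset.sum_eq_single (fun i : T => x i)]
  · unfold uniInd
    rw [if_pos (fun i => rfl), mul_one]
    refine hg _ _ fun i hi => ?_
    unfold uniPat
    rw [dif_pos hi]
  · intro a _ ha
    unfold uniInd
    rw [if_neg, mul_zero]
    intro h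
    exact ha (funext fun i => (h i).symm)
  · intro h
    exact absurd (Finset.mem_univ _) h

theorem uni_ind_dep (T : Finset ℤ) (a : T → Bool) : UniDep T (uniInd T a) := by
  intro x y hxy
  unfold uniInd
  have h : (∀ i : T, x i = a i) ↔ ∀ i : T, y i = a i :=
    forall_congr' fun i => by rw [hxy i.1 i.2]
  simp only [h]

theorem uni_isCyl {T : Finset ℤ} {g : Cfg → ℝ} (hg : UniDep T g) : IsCyl g := ⟨T, hg⟩

theorem uni_integrable {g : Cfg → ℝ} (hg : IsCyl g) (μ : ProbabilityMeasure Cfg) :
    Integrable g (μ : Measure Cfg) :=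
  hg.continuous.integrable_of_hasCompactSupport (HasCompactSupport.of_compactSpace _)

theorem uni_integral {T : Finset ℤ} {g : Cfg → ℝ} (hg : UniDep T g) (μ : ProbabilityMeasure Cfg) :
    ∑ a : T → Bool, g (uniPat T a) * ∫ x, uniInd T a x ∂(μ : Measure Cfg) =
      ∫ x, g x ∂(μ : Measure Cfg) := by
  have h : (fun x => g x) = fun x => ∑ a : T → Bool, g (uniPat T a) * uniInd T a x :=
    funext fun x => uni_expand hg x
  rw [h, integral_finsetSum]
  · refine Finset.sum_congr rfl fun a _ => ?_
    rw [integral_const_mul]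
  · intro a _
    exact (uni_integrable (uni_isCyl (uni_ind_dep T a)) μ).const_mul _

theorem uni_gen {T : Finset ℤ} (p : Bool → Bool → ℝ) {g : Cfg → ℝ} (hg : UniDep T g)
    (x : Cfg) : ∑ a : T → Bool, g (uniPat T a) * gen p (uniInd T a) x = gen p g x := by
  have h1 : gen p g x = ∑ j ∈ T, rate p x j * (g (flip x j) - g x) :=
    gen_eq_sum p hg (Finset.Subset.refl T) x
  have h2 : ∀ a : T → Bool, gen p (uniInd T a) x =
      ∑ j ∈ T, rate p x j * (uniInd T a (flip x j) - uniInd T a x) := fun a =>
    gen_eq_sum p (uni_ind_dep T a) (Finset.Subset.refl T) x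
  rw [h1]
  have h3 : ∀ j ∈ T, rate p x j * (g (flip x j) - g x) =
      ∑ a : T → Bool, g (uniPat T a) * (rate p x j * (uniInd T a (flip x j) - uniInd T a x)) := by
    intro j _
    rw [uni_expand hg (flip x j), uni_expand hg x, ← Finset.sum_sub_distrib, Finset.mul_sum]
    refine Finset.sum_congr rfl fun a _ => ?_
    ring
  rw [Finset.sum_congr rfl h3, Finset.sum_comm]
  refine Finset.sum_congr rfl fun a _ => ?_
  rw [h2 a, Finset.mul_sum]

theorem uni_gen_integral {T : Finset ℤ} (p : Bool → Bool → ℝ) {g : Cfg → ℝ} (hg : UniDep T g)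
    (μ : ProbabilityMeasure Cfg) :
    ∑ a : T → Bool, g (uniPat T a) * ∫ x, gen p (uniInd T a) x ∂(μ : Measure Cfg) =
      ∫ x, gen p g x ∂(μ : Measure Cfg) := by
  have h : (fun x => gen p g x) = fun x => ∑ a : T → Bool, g (uniPat T a) *
      gen p (uniInd T a) x := funext fun x => (uni_gen p hg x).symm
  rw [h, integral_finsetSum]
  · refine Finset.sum_congr rfl fun a _ => ?_
    rw [integral_const_mul]
  · intro a _
    exact (uni_integrable (gen_isCyl p (uni_isCyl (uni_ind_dep T a))) μ).const_mul _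

/-- only the site `N` is missing in the window -/
theorem uni_diff (p : Bool → Bool → ℝ) (N : ℕ) (m : ℤ) (hm : -(N : ℤ) ≤ m) (hmN : m ≤ N)
    (g : CC) (hg : UniDep (Finset.Icc m (N : ℤ)) g) (x : Cfg) :
    gen p g x - AN p N g x = rate p x N * (g (flip x N) - g x) := by
  rw [gen_eq_sum p hg (Finset.Subset.refl _) x, AN_apply]
  have h1 : Finset.Icc m (N : ℤ) = insert (N : ℤ) (Finset.Ico m (N : ℤ)) := by
    ext j
    simp only [Finset.mem_Icc, Finset.mem_insert, Finset.mem_Ico]
    omega
  have h2 : ∑ j ∈ Finset.Ico (-(N : ℤ)) N, rate p x j * (g (flip x j) - g x) =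
      ∑ j ∈ Finset.Ico m (N : ℤ), rate p x j * (g (flip x j) - g x) := by
    symm
    apply Finset.sum_subset
    · intro j hj
      rw [Finset.mem_Ico] at hj ⊢
      omega
    · intro j hj hj'
      rw [Finset.mem_Ico] at hj hj'
      have h4 : g (flip x j) = g x := hg _ _ (fun i hi => by
        unfold flip
        rw [Function.update_of_ne]
        rintro rfl
        rw [Finset.mem_Icc] at hi
        omega)
      rw [h4, sub_self, mul_zero]
  rw [h2, h1, Finset.sum_insert (by simp), add_sub_cancel_right]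

/-- UNI.  Fix `t > 0` and `N` large, `g_s = SN p N (t - s) f`, a function of the sites of `[m, N]`.
Write `g_s = sum_a g_s(x_a) 1_a` over the finitely many patterns `a` on `[m, N]` (`x_a` the pattern
extended by `false`), so `F(s) = ∫ g_s dν_s = sum_a g_s(x_a) ν_s(a)` is differentiable on `[0, t]` with
`F'(s) = ∫ (gen p g_s - AN p N g_s) dν_s`, and `|gen p g_s - AN p N g_s| ≤ |dd g_s N| ≤ C e^{-N}`
(only the site `N` is missing).  So `|∫ f dν_t - SN p N t f ζ| = |F(t) - F(0)| ≤ t C e^{-N}`. -/
theorem evolution_eq {p : Bool → Bool → ℝ} (hp : IsProb p) {ζ : Cfg}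
    {ν : ℝ → ProbabilityMeasure Cfg} (hν : IsEvolution p ζ ν) (f : CC) (hf : IsCyl f) {t : ℝ}
    (ht : 0 ≤ t) : ∫ x, f x ∂(ν t : Measure Cfg) = PT p t f ζ := by
  classical
  obtain ⟨m1, M, hmM, hdep⟩ := hf.exists_interval
  obtain ⟨m2, K, hK, hdd0, hddK⟩ := IsCyl.dd_bounds hf
  have key : ∀ N : ℕ, 1 ≤ N → -(N : ℤ) ≤ m1 → M ≤ N →
      |∫ x, f x ∂(ν t : Measure Cfg) - SN p N t f ζ| ≤
        K * Real.exp (-(N : ℝ) + Real.exp 1 * t) * (t - 0) := by
    intro N hN hNm hMN
    set T : Finset ℤ := Finset.Icc m1 (N : ℤ) with hT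
    have hfT : UniDep T f := by
      intro x y hxy
      refine hdep x y fun i h1 h2 => hxy i ?_
      rw [hT, Finset.mem_Icc]
      omega
    have hgT : ∀ s : ℝ, UniDep T (SN p N (t - s) f) := fun s => uni_dep_SN p hN m1 _ f hfT
    have hAT : ∀ s : ℝ, UniDep T (AN p N (SN p N (t - s) f)) := by
      intro s x y hxy
      rw [AN_apply, AN_apply]
      exact uni_dep_sum p N m1 (hgT s) x y hxy
    set F : ℝ → ℝ := fun s => ∑ a : T → Bool, SN p N (t - s) f (uniPat T a) *
      ∫ x, uniInd T a x ∂(ν s : Measure Cfg) with hF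
    set F' : ℝ → ℝ := fun s => ∫ x, (gen p (SN p N (t - s) f) x - AN p N (SN p N (t - s) f) x)
      ∂(ν s : Measure Cfg) with hF'
    have hFeq : ∀ s, F s = ∫ x, SN p N (t - s) f x ∂(ν s : Measure Cfg) := fun s =>
      uni_integral (hgT s) (ν s)
    have hderiv : ∀ s ∈ Set.Icc 0 t, HasDerivWithinAt F (F' s) (Set.Icc 0 t) s := by
      intro s hs
      have h1 : ∀ x : Cfg, HasDerivAt (fun s => SN p N (t - s) f x)
          (-(AN p N (SN p N (t - s) f) x)) s := by
        intro x
        have h2 := (SN_hasDerivAt p N (t - s) f)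
        have h3 : HasDerivAt (fun s : ℝ => t - s) (-1) s := by
          simpa using (hasDerivAt_id s).const_sub t
        have h4 := HasDerivAt.scomp s h2 h3
        have h5 := ((CC.ev x).hasFDerivAt.comp_hasDerivAt s h4)
        have h6 : (CC.ev x) ((-1 : ℝ) • SN p N (t - s) (AN p N f)) =
            -(AN p N (SN p N (t - s) f) x) := by
          rw [AN_SN, map_smul, CC.ev_apply, smul_eq_mul, neg_one_mul]
        rw [h6] at h5
        exact h5
      have h7 : HasDerivWithinAt F (∑ a : T → Bool,
          (-(AN p N (SN p N (t - s) f) (uniPat T a)) * ∫ x, uniInd T a x ∂(ν s : Measure Cfg) +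
            SN p N (t - s) f (uniPat T a) * ∫ x, gen p (uniInd T a) x ∂(ν s : Measure Cfg)))
          (Set.Icc 0 t) s := by
        apply HasDerivWithinAt.fun_sum
        intro a _
        exact (h1 (uniPat T a)).hasDerivWithinAt.mul
          ((hν.forward (uniInd T a) (uni_isCyl (uni_ind_dep T a)) s hs.1).mono
            Set.Icc_subset_Ici_self)
      have h8 : (∑ a : T → Bool,
          (-(AN p N (SN p N (t - s) f) (uniPat T a)) * ∫ x, uniInd T a x ∂(ν s : Measure Cfg) +
            SN p N (t - s) f (uniPat T a) * ∫ x, gen p (uniInd T a) x ∂(ν s : Measure Cfg))) =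
          F' s := by
        rw [Finset.sum_add_distrib, uni_gen_integral p (hgT s) (ν s)]
        simp only [neg_mul]
        rw [Finset.sum_neg_distrib, uni_integral (hAT s) (ν s), hF', neg_add_eq_sub]
        simp only
        rw [integral_sub]
        · exact uni_integrable (gen_isCyl p (uni_isCyl (hgT s))) (ν s)
        · exact uni_integrable (uni_isCyl (hAT s)) (ν s)
      rw [h8] at h7
      exact h7
    have hbound : ∀ s ∈ Set.Ico 0 t, ‖F' s‖ ≤ K * Real.exp (-(N : ℝ) + Real.exp 1 * t) := by
      intro s hs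
      have h1 : ∀ x, ‖gen p (SN p N (t - s) f) x - AN p N (SN p N (t - s) f) x‖ ≤
          K * Real.exp (-(N : ℝ) + Real.exp 1 * t) := by
        intro x
        rw [uni_diff p N m1 hNm (by omega) _ (hgT s) x, Real.norm_eq_abs, abs_mul, abs_flip_sub]
        have h2 : |rate p x N| ≤ 1 := by
          unfold rate
          rw [abs_of_nonneg (cr_nonneg hp _ _)]
          exact cr_le_one hp _ _
        have h3 := (dd_SN hp hN (t := t - s) (by linarith [hs.2]) f m2 hdd0 hddK).2 (N : ℤ) x
        have h4 : K * Real.exp (-((N : ℤ) : ℝ) + Real.exp 1 * (t - s)) ≤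
            K * Real.exp (-(N : ℝ) + Real.exp 1 * t) := by
          refine mul_le_mul_of_nonneg_left (Real.exp_le_exp.2 ?_) hK
          push_cast
          have h5 := mul_nonneg (Real.exp_pos 1).le hs.1
          nlinarith
        calc |rate p x N| * |dd (SN p N (t - s) f) N x|
            ≤ 1 * |dd (SN p N (t - s) f) N x| :=
              mul_le_mul_of_nonneg_right h2 (abs_nonneg _)
          _ = |dd (SN p N (t - s) f) N x| := one_mul _
          _ ≤ _ := h3.trans h4
      have h6 := norm_integral_le_of_norm_le_const (μ := (ν s : Measure Cfg))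
        (Filter.Eventually.of_forall h1)
      rw [hF']
      simpa using h6
    have hmv := norm_image_sub_le_of_norm_deriv_le_segment' hderiv hbound t
      (Set.right_mem_Icc.2 ht)
    have hFt : F t = ∫ x, f x ∂(ν t : Measure Cfg) := by
      rw [hFeq t, sub_self, SN_zero]
      rfl
    have hF0 : F 0 = SN p N t f ζ := by
      rw [hFeq 0, sub_zero, hν.init, integral_dirac]
    rw [hFt, hF0, Real.norm_eq_abs] at hmv
    exact hmv
  -- the limit
  have hlim1 : Tendsto (fun N : ℕ => SN p N t f ζ) atTop (𝓝 (PT p t f ζ)) := by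
    have h1 := ((CC.ev ζ).continuous.tendsto (PT p t f)).comp (PT_tendsto hp ht f)
    exact h1
  have hlim2 : Tendsto (fun N : ℕ => SN p N t f ζ) atTop
      (𝓝 (∫ x, f x ∂(ν t : Measure Cfg))) := by
    have h1 : Tendsto (fun N : ℕ => K * Real.exp (-(N : ℝ) + Real.exp 1 * t) * (t - 0)) atTop
        (𝓝 0) := by
      have h2 : Tendsto (fun N : ℕ => Real.exp (-(N : ℝ) + Real.exp 1 * t)) atTop (𝓝 0) := by
        apply Real.tendsto_exp_atBot.comp
        apply tendsto_atBot_add_const_right
        exact tendsto_neg_atTop_atBot.comp tendsto_natCast_atTop_atTop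
      have h3 := (h2.const_mul K).mul_const (t - 0)
      simpa using h3
    rw [tendsto_iff_dist_tendsto_zero]
    refine squeeze_zero' (Filter.Eventually.of_forall fun N => dist_nonneg) ?_ h1
    filter_upwards [eventually_ge_atTop (1 + m1.natAbs + M.natAbs)] with N hN
    rw [Real.dist_eq, abs_sub_comm]
    exact key N (by omega) (by omega) (by omega)
  exact tendsto_nhds_unique hlim2 hlim1

end H72IPS
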