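import Pool.Agent.H72.IPS.Fwd
import Pool.Agent.H72.IPS.Uni
import Pool.Agent.H72.IPS.Rmk

/-! # WP: well-posedness -/

namespace H72IPS

open Finset Filter Topology MeasureTheory

/-- existence of the law at time `t` -/
theorem wp_exists {p : Bool → Bool → ℝ} (hp : IsProb p) (ζ : Cfg) {t : ℝ} (ht : 0 ≤ t) :
    ∃ μ : ProbabilityMeasure Cfg, ∀ f : CC, ∫ x, f x ∂(μ : Measure Cfg) = PT p t f ζ := by
  refine exists_prob
    { toFun := fun f => PT p t f ζ
      map_add' := fun f g => by rw [PT_add_fun hp ht]; rfl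
      map_smul' := fun c f => by rw [PT_smul hp ht]; rfl } ?_ ?_
  · intro f hf
    exact PT_nonneg hp ht hf ζ
  · show PT p t _ ζ = 1
    rw [PT_const hp ht]
    rfl

/-- the laws exist and are unique: `∫ f dμ_t = PT p t f ζ` -/
theorem wellPosed {p : Bool → Bool → ℝ} (hp : IsProb p) : WellPosed p := by
  intro ζ
  have hex : ∀ t : ℝ, ∃ μ : ProbabilityMeasure Cfg,
      ∀ f : CC, ∫ x, f x ∂(μ : Measure Cfg) = PT p (max t 0) f ζ :=
    fun t => wp_exists hp ζ (le_max_right t 0)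
  choose μ hμ using hex
  have hμ' : ∀ t : ℝ, 0 ≤ t → ∀ f : CC, ∫ x, f x ∂(μ t : Measure Cfg) = PT p t f ζ := by
    intro t ht f
    rw [hμ t f, max_eq_left ht]
  have hdirac : μ 0 = (⟨Measure.dirac ζ, inferInstance⟩ : ProbabilityMeasure Cfg) := by
    refine prob_ext_cyl fun f _ => ?_
    rw [hμ' 0 le_rfl f, PT_zero hp]
    show f ζ = ∫ x, f x ∂(Measure.dirac ζ)
    rw [integral_dirac]
  refine ⟨μ, ⟨?_, ?_⟩, ?_⟩
  · rw [hdirac]; rfl
  · intro f hf t ht
    have h1 := PT_forward hp (CC.mk f hf.continuous) hf ζ ht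
    have h2 : ∫ x, gen p f x ∂(μ t : Measure Cfg) =
        PT p t (genC p (CC.mk f hf.continuous) hf) ζ :=
      hμ' t ht (genC p (CC.mk f hf.continuous) hf)
    rw [h2]
    refine h1.congr (fun s hs => hμ' s hs (CC.mk f hf.continuous)) (hμ' t ht (CC.mk f hf.continuous))
  · intro ν hν t ht
    refine prob_ext_cyl fun f hf => ?_
    rw [evolution_eq hp hν f hf ht, hμ' t ht f]

end H72IPS
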